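import Mathlib

set_option autoImplicit false

open Finset

namespace Pool.Agent.MP5f

/-- The number of zero-sum trees with three edges (as in the frozen statement, with m = 3). -/
noncomputable def zs {n : ℕ} (c : Sym2 (Fin n) → ZMod 3) : ℕ :=
  Set.ncard {T : SimpleGraph (Fin n) |
    (∃ U : Finset (Fin n), U.card = 3 + 1 ∧ (∀ u v, T.Adj u v → u ∈ U) ∧
      (T.induce (U : Set (Fin n))).IsTree) ∧
    ∑ᶠ e ∈ T.edgeSet, c e = 0}

/-- The number of monochromatic trees with three edges (as in the frozen statement, m = 3). -/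
noncomputable def mono {n : ℕ} (c : Sym2 (Fin n) → Fin 2) : ℕ :=
  Set.ncard {T : SimpleGraph (Fin n) |
    (∃ U : Finset (Fin n), U.card = 3 + 1 ∧ (∀ u v, T.Adj u v → u ∈ U) ∧
      (T.induce (U : Set (Fin n))).IsTree) ∧
    ∃ i : Fin 2, ∀ e ∈ T.edgeSet, c e = i}

/-- A 2-colouring seen as a colouring by 0, 1 in `ZMod 3`. -/
def lift2 {n : ℕ} (c : Sym2 (Fin n) → Fin 2) : Sym2 (Fin n) → ZMod 3 := fun e => ((c e : ℕ) : ZMod 3)

/-- number of edges at `x` with colour `k` -/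
def dg {n : ℕ} (c : Sym2 (Fin n) → ZMod 3) (x : Fin n) (k : ZMod 3) : ℕ :=
  (univ.filter (fun y : Fin n => y ≠ x ∧ c s(x, y) = k)).card

/-- ordered zero-sum stars: centre `x` -/
def nS {n : ℕ} (c : Sym2 (Fin n) → ZMod 3) : ℕ :=
  ∑ x : Fin n, ∑ y : Fin n, ∑ z : Fin n, ∑ w : Fin n,
    if (x ≠ y ∧ x ≠ z ∧ x ≠ w ∧ y ≠ z ∧ y ≠ w ∧ z ≠ w) ∧
      c s(x, y) + c s(x, z) + c s(x, w) = 0 then 1 else 0

/-- ordered zero-sum paths `x y z w` -/
def nP {n : ℕ} (c : Sym2 (Fin n) → ZMod 3) : ℕ :=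
  ∑ x : Fin n, ∑ y : Fin n, ∑ z : Fin n, ∑ w : Fin n,
    if (x ≠ y ∧ x ≠ z ∧ x ≠ w ∧ y ≠ z ∧ y ≠ w ∧ z ≠ w) ∧
      c s(x, y) + c s(y, z) + c s(z, w) = 0 then 1 else 0

/-- ordered zero-sum triangles (monochromatic or rainbow) -/
def tri0 {n : ℕ} (c : Sym2 (Fin n) → ZMod 3) : ℕ :=
  ∑ x : Fin n, ∑ y : Fin n, ∑ z : Fin n,
    if (x ≠ y ∧ x ≠ z ∧ y ≠ z) ∧ c s(x, y) + c s(x, z) + c s(y, z) = 0 then 1 else 0

/-- ordered rainbow triangles -/
def rb3 {n : ℕ} (c : Sym2 (Fin n) → ZMod 3) : ℕ :=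
  ∑ x : Fin n, ∑ y : Fin n, ∑ z : Fin n,
    if (x ≠ y ∧ x ≠ z ∧ y ≠ z) ∧
      (c s(x, y) ≠ c s(x, z) ∧ c s(x, y) ≠ c s(y, z) ∧ c s(x, z) ≠ c s(y, z)) then 1 else 0

/-- the vertex function -/
noncomputable def Fv (N p q r : ℝ) : ℝ :=
  (N - 9) / 2 * (N ^ 2 / 4 - (p * q + p * r + q * r)) + 3 / 2 * (p * q * r)

/-- the quadratic edge term -/
noncomputable def Qe (N q r q' r' : ℝ) : ℝ :=
  (q + q' - N / 2) ^ 2 + (q + q' - N / 2) * (r + r' - N / 2) + (r + r' - N / 2) ^ 2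

/-- the edge function: `(p,q,r)` counts of colours `k, k+1, k+2` at `x`;
`(p',q',r')` counts of colours `k, k+2, k+1` at `y`, where `k` is the colour of `xy`. -/
noncomputable def Ps (N p q r p' q' r' : ℝ) : ℝ :=
  Qe N q r q' r' - 3 / 2 * (min q q' + min r r') + (Fv N p q r + Fv N p' q' r') / N

/-- edge term of a colouring -/
noncomputable def QeC {n : ℕ} (c : Sym2 (Fin n) → ZMod 3) (x y : Fin n) : ℝ :=
  Qe ((n : ℝ) - 1) (dg c x (c s(x, y) + 1)) (dg c x (c s(x, y) + 2))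
    (dg c y (c s(x, y) + 2)) (dg c y (c s(x, y) + 1))

/-- edge function of a colouring -/
noncomputable def PsC {n : ℕ} (c : Sym2 (Fin n) → ZMod 3) (x y : Fin n) : ℝ :=
  Ps ((n : ℝ) - 1) (dg c x (c s(x, y))) (dg c x (c s(x, y) + 1)) (dg c x (c s(x, y) + 2))
    (dg c y (c s(x, y))) (dg c y (c s(x, y) + 2)) (dg c y (c s(x, y) + 1))

/-- the constant -/
noncomputable def Cn (n : ℕ) : ℝ := (n : ℝ) * (n - 1) * (4 * (n : ℝ) ^ 2 - 29 * n + 57) / 24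

/-- difference of the numbers of edges of the two colours other than `k` at `x` -/
def sg {n : ℕ} (c : Sym2 (Fin n) → ZMod 3) (k : ZMod 3) (x : Fin n) : ℤ :=
  (dg c x (k + 1) : ℤ) - dg c x (k + 2)

/-- `x` sees all three colours -/
def Full {n : ℕ} (c : Sym2 (Fin n) → ZMod 3) (x : Fin n) : Prop := ∀ k, dg c x k ≠ 0

/-- colour `k` occurs on some edge -/
def Occ {n : ℕ} (c : Sym2 (Fin n) → ZMod 3) (k : ZMod 3) : Prop :=
  ∃ x y : Fin n, x ≠ y ∧ c s(x, y) = k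

/-- the colouring obtained by deleting the vertex `x` -/
def del {n : ℕ} (c : Sym2 (Fin (n + 1)) → ZMod 3) (x : Fin (n + 1)) : Sym2 (Fin n) → ZMod 3 :=
  fun e => c (e.map x.succAbove)

end Pool.Agent.MP5f
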