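import Mathlib
import Pool.Agent.MP_5f2667_co.Defs

set_option autoImplicit false

open Finset

namespace Pool.Agent.MP5f

/-- 8 times the vertex function, over the integers -/
def F8 (N p q r : ℤ) : ℤ := (N - 9) * (N ^ 2 - 4 * (p * q + p * r + q * r)) + 12 * (p * q * r)

/-- 8N times the edge function, over the integers -/
def P8 (N p q r p' q' r' : ℤ) : ℤ :=
  2 * N * ((2 * (q + q') - N) ^ 2 + (2 * (q + q') - N) * (2 * (r + r') - N) + (2 * (r + r') - N) ^ 2)
    - 12 * N * (min q q' + min r r') + F8 N p q r + F8 N p' q' r'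

/-- the potential used for n = 10 -/
def phi9 (p q r : ℕ) : ℤ := if q = 0 ∨ r = 0 then 0 else if p = 1 then -18 else 6

/-- no colour is missing at both ends of the pair -/
def NCM {n : ℕ} (c : Sym2 (Fin n) → ZMod 3) (x y : Fin n) : Prop :=
  ∀ k, ¬ (dg c x k = 0 ∧ dg c y k = 0)

/-- some colour `k` is absent and no other colour class is contained in a star -/
def Tame {n : ℕ} (c : Sym2 (Fin n) → ZMod 3) : Prop :=
  ∃ k, ¬ Occ c k ∧ ∀ l, l ≠ k → ∀ y : Fin n, ∃ u v : Fin n, u ≠ v ∧ u ≠ y ∧ v ≠ y ∧ c s(u, v) = l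

/-- the parity correction -/
noncomputable def Par (n : ℕ) : ℝ :=
  if n % 4 = 1 then 0 else if n % 4 = 3 then (3 * (n : ℝ) - 12) / 2
  else if n % 4 = 0 then (n : ℝ) * (3 * n - 13) / 8 else (n : ℝ) * (3 * n - 13) / 8 + 1 / 2

end Pool.Agent.MP5f
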