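import Mathlib
import Pool.Agent.MP_5f2667_co.Defs

set_option autoImplicit false

open Finset

/-
Proof hint. Partition of univ.erase x by the colour; for sum_by_colour use Finset.sum_fiberwise or sum over filter.
-/

namespace Pool.Agent.MP5f

theorem R06_filter {n : ℕ} (c : Sym2 (Fin n) → ZMod 3) (x : Fin n) (k : ZMod 3) :
    (univ.filter (fun y : Fin n => y ≠ x ∧ c s(x, y) = k)) =
      (univ.erase x).filter (fun y => c s(x, y) = k) := by
  ext y
  simp

theorem sum_by_colour {n : ℕ} (c : Sym2 (Fin n) → ZMod 3) (x : Fin n) (f : ZMod 3 → ℝ) :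
    ∑ y ∈ univ.erase x, f (c s(x, y)) = ∑ k : ZMod 3, (dg c x k : ℝ) * f k := by
  rw [← Finset.sum_fiberwise (univ.erase x) (fun y => c s(x, y)) (fun y => f (c s(x, y)))]
  refine Finset.sum_congr rfl fun k _ => ?_
  have h : ∀ y ∈ (univ.erase x).filter (fun y => c s(x, y) = k), f (c s(x, y)) = f k := by
    intro y hy
    rw [(Finset.mem_filter.1 hy).2]
  rw [Finset.sum_congr rfl h, Finset.sum_const, nsmul_eq_mul, dg, R06_filter]

theorem R06_sum {n : ℕ} (c : Sym2 (Fin n) → ZMod 3) (x : Fin n) :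
    ∑ k : ZMod 3, dg c x k + 1 = n := by
  have h := sum_by_colour c x (fun _ => 1)
  simp only [Finset.sum_const, nsmul_eq_mul, mul_one, Finset.card_erase_of_mem (mem_univ x),
    Finset.card_univ, Fintype.card_fin] at h
  have hn : 1 ≤ n := x.pos
  have h2 : ((n - 1 : ℕ) : ℝ) = ((∑ k : ZMod 3, dg c x k : ℕ) : ℝ) := by
    rw [h]
    push_cast
    rfl
  have h3 : n - 1 = ∑ k : ZMod 3, dg c x k := by exact_mod_cast h2
  omega

theorem dg_sum {n : ℕ} (c : Sym2 (Fin n) → ZMod 3) (x : Fin n) :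
    dg c x 0 + dg c x 1 + dg c x 2 + 1 = n := by
  have h := R06_sum c x
  rwa [show ∑ k : ZMod 3, dg c x k = dg c x 0 + dg c x 1 + dg c x 2 from
    Fin.sum_univ_three (fun k : Fin 3 => dg c x k)] at h

/-- the same starting from any colour -/
theorem dg_sum' {n : ℕ} (c : Sym2 (Fin n) → ZMod 3) (x : Fin n) (k : ZMod 3) :
    dg c x k + dg c x (k + 1) + dg c x (k + 2) + 1 = n := by
  have h := dg_sum c x
  have hk : k = 0 ∨ k = 1 ∨ k = 2 := by
    revert k
    decide
  rcases hk with rfl | rfl | rfl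
  · simpa using h
  · rw [show (1 + 1 : ZMod 3) = 2 by decide, show (1 + 2 : ZMod 3) = 0 by decide]
    omega
  · rw [show (2 + 1 : ZMod 3) = 0 by decide, show (2 + 2 : ZMod 3) = 1 by decide]
    omega

theorem dg_pos {n : ℕ} (c : Sym2 (Fin n) → ZMod 3) (x y : Fin n) (h : x ≠ y) :
    1 ≤ dg c x (c s(x, y)) ∧ 1 ≤ dg c y (c s(x, y)) := by
  constructor
  · exact Finset.card_pos.2 ⟨y, by simp [h.symm]⟩
  · exact Finset.card_pos.2 ⟨x, by simp [h, Sym2.eq_swap]⟩

end Pool.Agent.MP5f
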