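import Mathlib
import Pool.Agent.MP_5f2667_co.Defs

set_option autoImplicit false

open Finset

/-
Proof hint. For each U of card 4 the graphs T supported in U with T.induce U a tree correspond to the trees
on Fin 4 (order embedding of U); a tree on 4 vertices is one of 4 stars or 12 paths (decide over the 64 graphs on
Fin 4, or: 3 edges, connected). U is determined by T (every vertex of a tree with 4 vertices has positive degree).
Count triples: a star with centre x is hit by 6 ordered tuples (x,y,z,w) of nS, a path by 2 ordered tuples of nP;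
so 6*zs = nS + 3*nP. You may prove it through sum over embeddings Fin 4 into Fin n:
6 * (number for U) = sum over the 24 bijections f : Fin 4 -> U of (star indicator + 3 * path indicator).
The finsum over T.edgeSet becomes the sum of the three edge colours.
-/

namespace Pool.Agent.MP5f

/-- distinct entries -/
def R01Dst {α : Type*} (t : α × α × α × α) : Prop :=
  t.1 ≠ t.2.1 ∧ t.1 ≠ t.2.2.1 ∧ t.1 ≠ t.2.2.2 ∧ t.2.1 ≠ t.2.2.1 ∧ t.2.1 ≠ t.2.2.2 ∧
    t.2.2.1 ≠ t.2.2.2

instance R01DstDec {α : Type*} [DecidableEq α] (t : α × α × α × α) : Decidable (R01Dst t) := by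
  unfold R01Dst; infer_instance

/-- first auxiliary vertex -/
def R01P1 (b : Bool) {α : Type*} (t : α × α × α × α) : α := if b = true then t.1 else t.2.1

/-- second auxiliary vertex -/
def R01P2 (b : Bool) {α : Type*} (t : α × α × α × α) : α := if b = true then t.1 else t.2.2.1

/-- adjacency of the star (`b = true`) or path -/
def R01Rl (b : Bool) {α : Type*} (t : α × α × α × α) (u v : α) : Prop :=
  (u = t.1 ∧ v = t.2.1) ∨ (v = t.1 ∧ u = t.2.1) ∨ (u = R01P1 b t ∧ v = t.2.2.1) ∨
    (v = R01P1 b t ∧ u = t.2.2.1) ∨ (u = R01P2 b t ∧ v = t.2.2.2) ∨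
    (v = R01P2 b t ∧ u = t.2.2.2)

instance R01RlDec (b : Bool) {α : Type*} [DecidableEq α] (t : α × α × α × α) (u v : α) :
    Decidable (R01Rl b t u v) := by
  unfold R01Rl; infer_instance

/-- map of tuples -/
def R01tm {α β : Type*} (f : α → β) (t : α × α × α × α) : β × β × β × β :=
  (f t.1, f t.2.1, f t.2.2.1, f t.2.2.2)

theorem R01Rl_map {α β : Type*} {f : α → β} (hf : Function.Injective f) (b : Bool)
    (t : α × α × α × α) (u v : α) : R01Rl b (R01tm f t) (f u) (f v) ↔ R01Rl b t u v := by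
  cases b <;> simp [R01Rl, R01P1, R01P2, R01tm, hf.eq_iff]

theorem R01Dst_map {α β : Type*} {f : α → β} (hf : Function.Injective f)
    (t : α × α × α × α) : R01Dst (R01tm f t) ↔ R01Dst t := by
  simp [R01Dst, R01tm, hf.eq_iff]

theorem R01Rl_ne {α : Type*} (b : Bool) {t : α × α × α × α} (ht : R01Dst t) {u v : α}
    (h : R01Rl b t u v) : u ≠ v := by
  obtain ⟨x, y, z, w⟩ := t
  obtain ⟨h1, h2, h3, h4, h5, h6⟩ := ht
  simp only at h1 h2 h3 h4 h5 h6
  cases b <;> simp only [R01Rl, R01P1, R01P2, if_true, Bool.false_eq_true, if_false] at h <;>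
    rcases h with ⟨rfl, rfl⟩ | ⟨rfl, rfl⟩ | ⟨rfl, rfl⟩ | ⟨rfl, rfl⟩ | ⟨rfl, rfl⟩ | ⟨rfl, rfl⟩ <;>
    first | assumption | (apply Ne.symm; assumption)

theorem R01Rl_symm {α : Type*} (b : Bool) {t : α × α × α × α} {u v : α}
    (h : R01Rl b t u v) : R01Rl b t v u := by
  unfold R01Rl at h ⊢
  tauto

/-- the graph -/
def R01G (b : Bool) {α : Type*} (t : α × α × α × α) : SimpleGraph α where
  Adj u v := u ≠ v ∧ R01Rl b t u v
  symm := ⟨fun _ _ h => ⟨h.1.symm, R01Rl_symm b h.2⟩⟩
  loopless := ⟨fun _ h => h.1 rfl⟩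

instance (b : Bool) {α : Type*} [DecidableEq α] (t : α × α × α × α) :
    DecidableRel (R01G b t).Adj := fun u v => by
  unfold R01G; infer_instance

theorem R01G_adj (b : Bool) {α : Type*} {t : α × α × α × α} (ht : R01Dst t) (u v : α) :
    (R01G b t).Adj u v ↔ R01Rl b t u v :=
  ⟨fun h => h.2, fun h => ⟨R01Rl_ne b ht h, h⟩⟩

/-- the condition of the definition of `zs` -/
def R01TC {n : ℕ} (T : SimpleGraph (Fin n)) : Prop :=
  ∃ U : Finset (Fin n), U.card = 3 + 1 ∧ (∀ u v, T.Adj u v → u ∈ U) ∧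
      (T.induce (U : Set (Fin n))).IsTree

theorem R01TC_iff {n : ℕ} (T : SimpleGraph (Fin n)) : R01TC T ↔
    ∃ f : Fin 4 → Fin n, Function.Injective f ∧ (∀ u v, T.Adj u v → u ∈ Set.range f) ∧
      (T.comap f).IsTree := by
  constructor
  · rintro ⟨U, hU, hs, hT⟩
    let e : U ≃ Fin 4 := U.equivFinOfCardEq hU
    refine ⟨fun i => (e.symm i : Fin n), ?_, ?_, ?_⟩
    · intro i j hij
      exact e.symm.injective (Subtype.ext hij)
    · intro u v huv
      refine ⟨e ⟨u, hs u v huv⟩, ?_⟩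
      simp
    · let φ : T.comap (fun i => (e.symm i : Fin n)) ≃g T.induce (U : Set (Fin n)) :=
        { toEquiv := e.symm, map_rel_iff' := by intro i j; rfl }
      exact φ.isTree_iff.mpr hT
  · rintro ⟨f, hf, hs, hT⟩
    refine ⟨(Set.range f).toFinset, ?_, ?_, ?_⟩
    · rw [Set.toFinset_range, Finset.card_image_of_injective _ hf]
      simp
    · intro u v huv
      rw [Set.mem_toFinset]
      exact hs u v huv
    · rw [Set.coe_toFinset]
      let φ : T.comap f ≃g T.induce (Set.range f) :=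
        { toEquiv := Equiv.ofInjective f hf, map_rel_iff' := by intro i j; rfl }
      exact φ.isTree_iff.mp hT

theorem R01tree (b : Bool) : (R01G b ((0, 1, 2, 3) : Fin 4 × Fin 4 × Fin 4 × Fin 4)).IsTree := by
  rw [SimpleGraph.isTree_iff_connected_and_card]
  constructor
  · cases b <;> decide +kernel
  · rw [Nat.card_eq_fintype_card, Nat.card_eq_fintype_card]
    cases b <;> decide +kernel

theorem R01TC_G (b : Bool) {n : ℕ} {t : Fin n × Fin n × Fin n × Fin n} (ht : R01Dst t) :
    R01TC (R01G b t) := by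
  rw [R01TC_iff]
  have ht0 : R01tm ![t.1, t.2.1, t.2.2.1, t.2.2.2] ((0, 1, 2, 3) : Fin 4 × Fin 4 × Fin 4 × Fin 4)
      = t := rfl
  have hf : Function.Injective ![t.1, t.2.1, t.2.2.1, t.2.2.2] := by
    obtain ⟨h1, h2, h3, h4, h5, h6⟩ := ht
    intro i j hij
    fin_cases i <;> fin_cases j <;> simp at hij <;> first | rfl | exact absurd hij (by assumption) | exact absurd hij.symm (by assumption)
  refine ⟨![t.1, t.2.1, t.2.2.1, t.2.2.2], hf, ?_, ?_⟩
  · intro u v huv
    have h := huv.2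
    have m0 : t.1 ∈ Set.range ![t.1, t.2.1, t.2.2.1, t.2.2.2] := ⟨0, rfl⟩
    have m1 : t.2.1 ∈ Set.range ![t.1, t.2.1, t.2.2.1, t.2.2.2] := ⟨1, rfl⟩
    have m2 : t.2.2.1 ∈ Set.range ![t.1, t.2.1, t.2.2.1, t.2.2.2] := ⟨2, rfl⟩
    have m3 : t.2.2.2 ∈ Set.range ![t.1, t.2.1, t.2.2.1, t.2.2.2] := ⟨3, rfl⟩
    cases b <;> simp only [R01Rl, R01P1, R01P2, if_true, Bool.false_eq_true, if_false] at h <;>
      rcases h with h | h | h | h | h | h <;> first | (rw [h.1]; assumption) | (rw [h.2]; assumption)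
  · have hE : (R01G b t).comap ![t.1, t.2.1, t.2.2.1, t.2.2.2] =
        R01G b ((0, 1, 2, 3) : Fin 4 × Fin 4 × Fin 4 × Fin 4) := by
      ext i j
      rw [SimpleGraph.comap_adj, R01G_adj b ht, R01G_adj b (by decide)]
      conv_lhs => rw [← ht0]
      exact R01Rl_map hf b _ i j
    rw [hE]
    exact R01tree b

theorem R01sum (b : Bool) {n : ℕ} (c : Sym2 (Fin n) → ZMod 3) {t : Fin n × Fin n × Fin n × Fin n}
    (ht : R01Dst t) : ∑ᶠ e ∈ (R01G b t).edgeSet, c e =
      c s(t.1, t.2.1) + c s(R01P1 b t, t.2.2.1) + c s(R01P2 b t, t.2.2.2) := by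
  classical
  have hE : (R01G b t).edgeSet = (({s(t.1, t.2.1), s(R01P1 b t, t.2.2.1), s(R01P2 b t, t.2.2.2)} :
      Finset (Sym2 (Fin n))) : Set (Sym2 (Fin n))) := by
    ext e
    induction e using Sym2.ind with
    | _ u v =>
      rw [SimpleGraph.mem_edgeSet, R01G_adj b ht]
      simp only [R01Rl, Finset.coe_insert, Finset.coe_singleton, Set.mem_insert_iff,
        Set.mem_singleton_iff, Sym2.eq_iff]
      tauto
  rw [hE, finsum_mem_coe_finset]
  obtain ⟨x, y, z, w⟩ := t
  obtain ⟨h1, h2, h3, h4, h5, h6⟩ := ht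
  simp only at h1 h2 h3 h4 h5 h6
  rw [Finset.sum_insert, Finset.sum_insert, Finset.sum_singleton, add_assoc]
  · cases b <;> simp [R01P1, R01P2, Sym2.eq_iff] <;> tauto
  · cases b <;> simp [R01P1, R01P2, Sym2.eq_iff] <;> tauto

/-- boolean adjacency -/
def R01B (b01 b02 b03 b12 b13 b23 : Bool) (i j : Fin 4) : Bool :=
  ![![false, b01, b02, b03], ![b01, false, b12, b13], ![b02, b12, false, b23],
    ![b03, b13, b23, false]] i j

theorem R01fin4 : ∀ b01 b02 b03 b12 b13 b23 : Bool,
    (∑ i, ∑ j, (R01B b01 b02 b03 b12 b13 b23 i j).toNat = 6) →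
    (∀ i, ∃ j, R01B b01 b02 b03 b12 b13 b23 i j = true) →
    (univ.filter fun t : Fin 4 × Fin 4 × Fin 4 × Fin 4 => R01Dst t ∧
        ∀ i j, (R01B b01 b02 b03 b12 b13 b23 i j = true ↔ R01Rl true t i j)).card +
      3 * (univ.filter fun t : Fin 4 × Fin 4 × Fin 4 × Fin 4 => R01Dst t ∧
        ∀ i j, (R01B b01 b02 b03 b12 b13 b23 i j = true ↔ R01Rl false t i j)).card = 6 := by
  decide +kernel

open Classical in
theorem R01tree4 (T : SimpleGraph (Fin 4)) (hT : T.IsTree) :
    (univ.filter fun t : Fin 4 × Fin 4 × Fin 4 × Fin 4 => R01Dst t ∧ R01G true t = T).card +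
      3 * (univ.filter fun t : Fin 4 × Fin 4 × Fin 4 × Fin 4 => R01Dst t ∧
        R01G false t = T).card = 6 := by
  have hB : ∀ i j, T.Adj i j ↔ R01B (decide (T.Adj 0 1)) (decide (T.Adj 0 2))
      (decide (T.Adj 0 3)) (decide (T.Adj 1 2)) (decide (T.Adj 1 3)) (decide (T.Adj 2 3)) i j =
      true := by
    intro i j
    fin_cases i <;> fin_cases j <;> simp [R01B] <;> exact T.adj_comm _ _
  have hset : ∀ b : Bool, (univ.filter fun t : Fin 4 × Fin 4 × Fin 4 × Fin 4 =>
      R01Dst t ∧ R01G b t = T) = (univ.filter fun t : Fin 4 × Fin 4 × Fin 4 × Fin 4 =>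
      R01Dst t ∧ ∀ i j, (R01B (decide (T.Adj 0 1)) (decide (T.Adj 0 2))
      (decide (T.Adj 0 3)) (decide (T.Adj 1 2)) (decide (T.Adj 1 3)) (decide (T.Adj 2 3)) i j =
      true ↔ R01Rl b t i j)) := by
    intro b
    apply Finset.filter_congr
    intro t _
    refine and_congr_right fun ht => ?_
    constructor
    · intro h i j
      rw [← hB, ← h, R01G_adj b ht]
    · intro h
      ext i j
      rw [R01G_adj b ht, hB, h]
  have hdeg : ∑ i, ∑ j, (R01B (decide (T.Adj 0 1)) (decide (T.Adj 0 2))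
      (decide (T.Adj 0 3)) (decide (T.Adj 1 2)) (decide (T.Adj 1 3)) (decide (T.Adj 2 3))
      i j).toNat = 6 := by
    have h1 := T.sum_degrees_eq_twice_card_edges
    have h2 := hT.card_edgeFinset
    have h3 : ∀ i, T.degree i = ∑ j, (R01B (decide (T.Adj 0 1)) (decide (T.Adj 0 2))
      (decide (T.Adj 0 3)) (decide (T.Adj 1 2)) (decide (T.Adj 1 3)) (decide (T.Adj 2 3))
      i j).toNat := by
      intro i
      rw [← SimpleGraph.card_neighborFinset_eq_degree, SimpleGraph.neighborFinset_eq_filter,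
        Finset.card_filter]
      apply Finset.sum_congr rfl
      intro j _
      by_cases h : T.Adj i j
      · rw [if_pos h, (hB i j).1 h]; rfl
      · rw [if_neg h]
        have : R01B (decide (T.Adj 0 1)) (decide (T.Adj 0 2))
          (decide (T.Adj 0 3)) (decide (T.Adj 1 2)) (decide (T.Adj 1 3)) (decide (T.Adj 2 3))
          i j = false := by
          rw [← Bool.not_eq_true, ← hB]; exact h
        rw [this]; rfl
    simp only [h3] at h1
    rw [h1]
    have h4 : Fintype.card (Fin 4) = 4 := by simp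
    omega
  have hiso : ∀ i, ∃ j, R01B (decide (T.Adj 0 1)) (decide (T.Adj 0 2))
      (decide (T.Adj 0 3)) (decide (T.Adj 1 2)) (decide (T.Adj 1 3)) (decide (T.Adj 2 3))
      i j = true := by
    intro i
    have h1 : 0 < T.degree i := hT.connected.preconnected.degree_pos_of_nontrivial i
    rw [SimpleGraph.degree_pos_iff_exists_adj] at h1
    obtain ⟨j, hj⟩ := h1
    exact ⟨j, (hB i j).1 hj⟩
  rw [hset, hset]
  convert R01fin4 _ _ _ _ _ _ hdeg hiso

open Classical in
theorem R01card {n : ℕ} (T : SimpleGraph (Fin n)) (hT : R01TC T) :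
    (univ.filter fun t : Fin n × Fin n × Fin n × Fin n => R01Dst t ∧ R01G true t = T).card +
      3 * (univ.filter fun t : Fin n × Fin n × Fin n × Fin n => R01Dst t ∧
        R01G false t = T).card = 6 := by
  obtain ⟨f, hf, hs, hT'⟩ := (R01TC_iff T).1 hT
  have hinj : Function.Injective (R01tm f) := by
    rintro ⟨x, y, z, w⟩ ⟨x', y', z', w'⟩ h
    simp only [R01tm, Prod.mk.injEq] at h
    obtain ⟨h1, h2, h3, h4⟩ := h
    rw [hf h1, hf h2, hf h3, hf h4]
  have key : ∀ b : Bool, (univ.filter fun t : Fin n × Fin n × Fin n × Fin n =>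
      R01Dst t ∧ R01G b t = T) = (univ.filter fun t : Fin 4 × Fin 4 × Fin 4 × Fin 4 =>
      R01Dst t ∧ R01G b t = T.comap f).image (R01tm f) := by
    intro b
    ext t
    rw [Finset.mem_filter, Finset.mem_image]
    constructor
    · rintro ⟨_, ht, hG⟩
      have hadj : ∀ u v, R01Rl b t u v → u ∈ Set.range f := by
        intro u v h
        apply hs u v
        rw [← hG, R01G_adj b ht]
        exact h
      have m0 : t.1 ∈ Set.range f := hadj _ t.2.1 (Or.inl ⟨rfl, rfl⟩)
      have m1 : t.2.1 ∈ Set.range f := hadj _ t.1 (Or.inr (Or.inl ⟨rfl, rfl⟩))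
      have m2 : t.2.2.1 ∈ Set.range f := hadj _ (R01P1 b t)
        (Or.inr (Or.inr (Or.inr (Or.inl ⟨rfl, rfl⟩))))
      have m3 : t.2.2.2 ∈ Set.range f := hadj _ (R01P2 b t)
        (Or.inr (Or.inr (Or.inr (Or.inr (Or.inr ⟨rfl, rfl⟩)))))
      obtain ⟨x, hx⟩ := m0
      obtain ⟨y, hy⟩ := m1
      obtain ⟨z, hz⟩ := m2
      obtain ⟨w, hw⟩ := m3
      have htt : R01tm f (x, y, z, w) = t := by
        simp only [R01tm, hx, hy, hz, hw]
      refine ⟨(x, y, z, w), ?_, htt⟩
      rw [Finset.mem_filter]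
      have hd : R01Dst (x, y, z, w) := by
        rw [← R01Dst_map hf, htt]; exact ht
      refine ⟨mem_univ _, hd, ?_⟩
      ext i j
      rw [R01G_adj b hd, SimpleGraph.comap_adj, ← hG, R01G_adj b ht, ← htt, R01Rl_map hf]
    · rintro ⟨t', ht', rfl⟩
      rw [Finset.mem_filter] at ht'
      obtain ⟨_, hd, hG⟩ := ht'
      have hd' : R01Dst (R01tm f t') := (R01Dst_map hf t').2 hd
      refine ⟨mem_univ _, hd', ?_⟩
      have hadj : ∀ i j, T.Adj (f i) (f j) ↔ R01Rl b t' i j := by
        intro i j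
        rw [← R01G_adj b hd, hG, SimpleGraph.comap_adj]
      have hrange : ∀ u v, R01Rl b (R01tm f t') u v → u ∈ Set.range f := by
        intro u v h
        cases b <;>
          simp only [R01Rl, R01P1, R01P2, R01tm, if_true, Bool.false_eq_true, if_false] at h <;>
          rcases h with h | h | h | h | h | h <;>
          first | exact ⟨_, h.1.symm⟩ | exact ⟨_, h.2.symm⟩
      ext u v
      rw [R01G_adj b hd']
      constructor
      · intro h
        obtain ⟨i, rfl⟩ := hrange u v h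
        obtain ⟨j, rfl⟩ := hrange v (f i) (R01Rl_symm b h)
        rw [hadj, ← R01Rl_map hf]
        exact h
      · intro h
        obtain ⟨i, rfl⟩ := hs u v h
        obtain ⟨j, rfl⟩ := hs v (f i) h.symm
        rw [R01Rl_map hf, ← hadj]
        exact h
  rw [key, key, Finset.card_image_of_injective _ hinj, Finset.card_image_of_injective _ hinj]
  exact R01tree4 _ hT'

open Classical in
theorem R01count (b : Bool) {n : ℕ} (c : Sym2 (Fin n) → ZMod 3) :
    (univ.filter fun t : Fin n × Fin n × Fin n × Fin n => R01Dst t ∧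
      c s(t.1, t.2.1) + c s(R01P1 b t, t.2.2.1) + c s(R01P2 b t, t.2.2.2) = 0).card =
    ∑ T ∈ univ.filter (fun T : SimpleGraph (Fin n) => R01TC T ∧ ∑ᶠ e ∈ T.edgeSet, c e = 0),
      (univ.filter fun t : Fin n × Fin n × Fin n × Fin n => R01Dst t ∧ R01G b t = T).card := by
  rw [Finset.card_eq_sum_card_fiberwise (f := fun t => R01G b t)
    (t := univ.filter (fun T : SimpleGraph (Fin n) => R01TC T ∧ ∑ᶠ e ∈ T.edgeSet, c e = 0))]
  · apply Finset.sum_congr rfl
    intro T hT
    rw [Finset.mem_filter] at hT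
    congr 1
    ext t
    simp only [Finset.mem_filter, Finset.mem_univ, true_and]
    constructor
    · rintro ⟨⟨h1, _⟩, h2⟩
      exact ⟨h1, h2⟩
    · rintro ⟨h1, h2⟩
      refine ⟨⟨h1, ?_⟩, h2⟩
      rw [← R01sum b c h1, h2]
      exact hT.2.2
  · intro t ht
    simp only [Finset.coe_filter, Finset.mem_univ, true_and, Set.mem_setOf_eq] at ht ⊢
    refine ⟨R01TC_G b ht.1, ?_⟩
    rw [R01sum b c ht.1]
    exact ht.2

theorem zs_tuples {n : ℕ} (c : Sym2 (Fin n) → ZMod 3) : 6 * zs c = nS c + 3 * nP c := by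
  classical
  have hS : nS c = (univ.filter fun t : Fin n × Fin n × Fin n × Fin n => R01Dst t ∧
      c s(t.1, t.2.1) + c s(R01P1 true t, t.2.2.1) + c s(R01P2 true t, t.2.2.2) = 0).card := by
    rw [Finset.card_filter, nS]
    simp only [Fintype.sum_prod_type]
    rfl
  have hP : nP c = (univ.filter fun t : Fin n × Fin n × Fin n × Fin n => R01Dst t ∧
      c s(t.1, t.2.1) + c s(R01P1 false t, t.2.2.1) + c s(R01P2 false t, t.2.2.2) = 0).card := by
    rw [Finset.card_filter, nP]
    simp only [Fintype.sum_prod_type]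
    rfl
  have hZ : zs c = (univ.filter (fun T : SimpleGraph (Fin n) => R01TC T ∧
      ∑ᶠ e ∈ T.edgeSet, c e = 0)).card := by
    rw [zs, Set.ncard_eq_toFinset_card']
    congr 1
    ext T
    simp only [Set.mem_toFinset, Set.mem_setOf_eq, Finset.mem_filter, Finset.mem_univ, true_and]
    rfl
  rw [hS, hP, hZ, R01count true c, R01count false c, Finset.mul_sum, ← Finset.sum_add_distrib,
    Finset.card_eq_sum_ones, Finset.mul_sum]
  apply Finset.sum_congr rfl
  intro T hT
  rw [Finset.mem_filter] at hT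
  rw [R01card T hT.2.1, mul_one]

end Pool.Agent.MP5f
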