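import Mathlib
import Pool.Agent.MP_5f2667_co.Defs

set_option autoImplicit false

open Finset

/-
Proof hint. For fixed centre x: number of ordered triples (y,z,w) of distinct vertices other than x with colour sum 0:
three numbers of ZMod 3 have sum 0 iff all equal or all distinct. All equal to k: d(d-1)(d-2) with d = dg c x k;
all distinct: 6 * d0*d1*d2.
-/

namespace Pool.Agent.MP5f

/-- grouping by colours -/
theorem R03_fiber {α : Type} (S : Finset α) (f : α → ZMod 3) (g : ZMod 3 → ℤ) :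
    ∑ y ∈ S, g (f y) = ((S.filter (fun y => f y = 0)).card : ℤ) * g 0 +
      ((S.filter (fun y => f y = 1)).card : ℤ) * g 1 +
      ((S.filter (fun y => f y = 2)).card : ℤ) * g 2 := by
  have h1 : ∀ a : ZMod 3, g a = (if a = 0 then g 0 else 0) + (if a = 1 then g 1 else 0) +
      (if a = 2 then g 2 else 0) := by
    intro a
    have h2 : a = 0 ∨ a = 1 ∨ a = 2 := by
      revert a
      decide
    have h01 : (0 : ZMod 3) ≠ 1 := by decide
    have h02 : (0 : ZMod 3) ≠ 2 := by decide
    have h12 : (1 : ZMod 3) ≠ 2 := by decide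
    rcases h2 with rfl | rfl | rfl
    · rw [if_pos rfl, if_neg h01, if_neg h02]
      ring
    · rw [if_neg h01.symm, if_pos rfl, if_neg h12]
      ring
    · rw [if_neg h02.symm, if_neg h12.symm, if_pos rfl]
      ring
  have h3 : ∀ k : ZMod 3, ∑ y ∈ S, (if f y = k then g k else 0) =
      ((S.filter (fun y => f y = k)).card : ℤ) * g k := by
    intro k
    rw [← sum_filter, sum_const, nsmul_eq_mul]
  rw [← h3, ← h3, ← h3, ← sum_add_distrib, ← sum_add_distrib]
  exact sum_congr rfl fun y _ => h1 (f y)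

/-- the number of ordered zero-sum triples of distinct elements -/
theorem R03_count {α : Type} [DecidableEq α] (S : Finset α) (f : α → ZMod 3) (d0 d1 d2 : ℤ)
    (h0 : d0 = (S.filter (fun y => f y = 0)).card) (h1 : d1 = (S.filter (fun y => f y = 1)).card)
    (h2 : d2 = (S.filter (fun y => f y = 2)).card) :
    ∑ y ∈ S, ∑ z ∈ S, ∑ w ∈ S,
      (if (y ≠ z ∧ y ≠ w ∧ z ≠ w) ∧ f y + f z + f w = 0 then (1 : ℤ) else 0) =
      d0 * (d0 - 1) * (d0 - 2) + d1 * (d1 - 1) * (d1 - 2) + d2 * (d2 - 1) * (d2 - 2)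
        + 6 * d0 * d1 * d2 := by
  -- the number of elements of colour `k`
  set D : ZMod 3 → ℤ := fun k => ((S.filter (fun y => f y = k)).card : ℤ) with hD
  have hw : ∀ y ∈ S, ∀ z ∈ S, y ≠ z → ∑ w ∈ S,
      (if (y ≠ z ∧ y ≠ w ∧ z ≠ w) ∧ f y + f z + f w = 0 then (1 : ℤ) else 0) =
      D (-(f y + f z)) - (if f z = f y then 2 else 0) := by
    intro y hy z hz hyz
    have h3 : ∀ w ∈ S, (if (y ≠ z ∧ y ≠ w ∧ z ≠ w) ∧ f y + f z + f w = 0 then (1 : ℤ) else 0) =
        (if f w = -(f y + f z) then (1 : ℤ) else 0) -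
          (if w = y then (if f y = -(f y + f z) then (1 : ℤ) else 0) else 0) -
          (if w = z then (if f z = -(f y + f z) then (1 : ℤ) else 0) else 0) := by
      intro w _
      have h4 : f y + f z + f w = 0 ↔ f w = -(f y + f z) := by
        constructor
        · intro h
          linear_combination h
        · intro h
          rw [h]
          ring
      by_cases hwy : w = y
      · subst hwy
        rw [if_neg (fun h => h.1.2.1 rfl), if_pos rfl, if_neg hyz]
        ring
      · by_cases hwz : w = z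
        · subst hwz
          rw [if_neg (fun h => h.1.2.2 rfl), if_neg hwy, if_pos rfl]
          ring
        · rw [if_neg hwy, if_neg hwz, sub_zero, sub_zero]
          apply if_congr _ rfl rfl
          rw [← h4]
          exact ⟨fun h => h.2, fun h => ⟨⟨hyz, Ne.symm hwy, Ne.symm hwz⟩, h⟩⟩
    rw [sum_congr rfl h3, sum_sub_distrib, sum_sub_distrib, sum_ite_eq', sum_ite_eq', if_pos hy,
      if_pos hz, ← sum_filter, sum_const, nsmul_eq_mul, mul_one]
    have h5 : (f y = -(f y + f z)) ↔ f z = f y := by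
      generalize f y = a
      generalize f z = b
      revert a b
      decide
    have h6 : (f z = -(f y + f z)) ↔ f z = f y := by
      generalize f y = a
      generalize f z = b
      revert a b
      decide
    rw [if_congr h5 rfl rfl, if_congr h6 rfl rfl]
    split_ifs
    · ring
    · ring
  have hz : ∀ y ∈ S, ∑ z ∈ S, ∑ w ∈ S,
      (if (y ≠ z ∧ y ≠ w ∧ z ≠ w) ∧ f y + f z + f w = 0 then (1 : ℤ) else 0) =
      D 0 * D (-(f y + 0)) + D 1 * D (-(f y + 1)) + D 2 * D (-(f y + 2)) - 2 * D (f y)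
        - D (-(f y + f y)) + 2 := by
    intro y hy
    have h3 : ∀ z ∈ S, ∑ w ∈ S,
        (if (y ≠ z ∧ y ≠ w ∧ z ≠ w) ∧ f y + f z + f w = 0 then (1 : ℤ) else 0) =
        (D (-(f y + f z)) - (if f z = f y then 2 else 0)) -
          (if z = y then D (-(f y + f y)) - 2 else 0) := by
      intro z hz
      by_cases hzy : z = y
      · subst hzy
        rw [if_pos rfl, if_pos rfl]
        rw [sum_eq_zero (fun w _ => if_neg (fun h => h.1.1 rfl))]
        ring
      · rw [if_neg hzy, sub_zero]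
        exact hw y hy z hz (Ne.symm hzy)
    rw [sum_congr rfl h3, sum_sub_distrib, sum_sub_distrib, sum_ite_eq', if_pos hy,
      R03_fiber S f (fun k => D (-(f y + k))), ← sum_filter, sum_const, nsmul_eq_mul]
    change D 0 * D (-(f y + 0)) + D 1 * D (-(f y + 1)) + D 2 * D (-(f y + 2)) - D (f y) * 2 -
      (D (-(f y + f y)) - 2) = _
    ring
  rw [sum_congr rfl hz, R03_fiber S f (fun k => D 0 * D (-(k + 0)) + D 1 * D (-(k + 1)) +
    D 2 * D (-(k + 2)) - 2 * D k - D (-(k + k)) + 2)]
  have e0 : D 0 = d0 := h0.symm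
  have e1 : D 1 = d1 := h1.symm
  have e2 : D 2 = d2 := h2.symm
  have a1 : (-(0 + 0) : ZMod 3) = 0 := by decide
  have a2 : (-(0 + 1) : ZMod 3) = 2 := by decide
  have a3 : (-(0 + 2) : ZMod 3) = 1 := by decide
  have a4 : (-(1 + 0) : ZMod 3) = 2 := by decide
  have a5 : (-(1 + 1) : ZMod 3) = 1 := by decide
  have a6 : (-(1 + 2) : ZMod 3) = 0 := by decide
  have a7 : (-(2 + 0) : ZMod 3) = 1 := by decide
  have a8 : (-(2 + 1) : ZMod 3) = 0 := by decide
  have a9 : (-(2 + 2) : ZMod 3) = 2 := by decide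
  rw [a1, a2, a3, a4, a5, a6, a7, a8, a9, ← h0, ← h1, ← h2, e0, e1, e2]
  ring

theorem nS_eq {n : ℕ} (c : Sym2 (Fin n) → ZMod 3) :
    (nS c : ℤ) = ∑ x : Fin n,
      ((dg c x 0 : ℤ) * (dg c x 0 - 1) * (dg c x 0 - 2) + (dg c x 1 : ℤ) * (dg c x 1 - 1) * (dg c x 1 - 2)
        + (dg c x 2 : ℤ) * (dg c x 2 - 1) * (dg c x 2 - 2) + 6 * dg c x 0 * dg c x 1 * dg c x 2) := by
  rw [nS]
  push_cast
  apply sum_congr rfl
  intro x _
  have hd : ∀ k : ZMod 3, (dg c x k : ℤ) =
      (((univ.filter (fun y : Fin n => y ≠ x)).filter (fun y => c s(x, y) = k)).card : ℤ) := by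
    intro k
    rw [dg, filter_filter]
  have h := R03_count (univ.filter (fun y : Fin n => y ≠ x)) (fun y => c s(x, y))
    (dg c x 0) (dg c x 1) (dg c x 2) (hd 0) (hd 1) (hd 2)
  rw [← h, sum_filter]
  apply sum_congr rfl
  intro y _
  by_cases hy : y = x
  · subst hy
    rw [if_neg (fun h => h rfl)]
    exact sum_eq_zero fun z _ => sum_eq_zero fun w _ => if_neg fun h => h.1.1 rfl
  · rw [if_pos hy, sum_filter]
    apply sum_congr rfl
    intro z _
    by_cases hz : z = x
    · subst hz
      rw [if_neg (fun h => h rfl)]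
      exact sum_eq_zero fun w _ => if_neg fun h => h.1.2.1 rfl
    · rw [if_pos hz, sum_filter]
      apply sum_congr rfl
      intro w _
      by_cases hw : w = x
      · subst hw
        rw [if_neg (fun h => h.1.2.2.1 rfl), if_neg (fun h => h rfl)]
      · rw [if_pos hw]
        apply if_congr _ rfl rfl
        exact ⟨fun h => ⟨h.1.2.2.2, h.2⟩,
          fun h => ⟨⟨Ne.symm hy, Ne.symm hz, Ne.symm hw, h.1⟩, h.2⟩⟩

end Pool.Agent.MP5f
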