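import Mathlib
import Pool.Agent.MP_5f2667_co.Defs

set_option autoImplicit false

open Finset

/-
Proof hint. Middle edge (y,z) of the path w1 y z w2 (in nP the tuple is (x,y,z,w), middle y z). For fixed y,z with
k = c s(y,z): choose x in neighbours of y (x not z) of colour k+s, w neighbour of z (w not y) of colour k-s (s : ZMod 3, because
(k+s)+k+(k-s)=3k=0 and conversely the sum is 0 iff colours are k+s,k-s for some s); if x = w were allowed the number is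
(dg y k - 1)(dg z k - 1) + dg y (k+1) * dg z (k+2) + dg y (k+2) * dg z (k+1); the forbidden x = w are exactly the zero-sum
triangles, total tri0 over ordered pairs (y,z). Tested numerically.
-/

namespace Pool.Agent.MP5f

private theorem R04_inner {n : ℕ} (x y z : Fin n) (hyz : y ≠ z) (E : Fin n → Prop)
    [DecidablePred E] :
    (∑ w : Fin n, if (x ≠ y ∧ x ≠ z ∧ x ≠ w ∧ y ≠ z ∧ y ≠ w ∧ z ≠ w) ∧ E w then (1 : ℤ) else 0) +
      (if (y ≠ z ∧ y ≠ x ∧ z ≠ x) ∧ E x then (1 : ℤ) else 0) =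
    ∑ w : Fin n, if (x ≠ y ∧ x ≠ z) ∧ (w ≠ y ∧ w ≠ z) ∧ E w then (1 : ℤ) else 0 := by
  have h3 := Finset.sum_erase_add (univ : Finset (Fin n))
    (fun w => if (x ≠ y ∧ x ≠ z ∧ x ≠ w ∧ y ≠ z ∧ y ≠ w ∧ z ≠ w) ∧ E w then (1 : ℤ) else 0)
    (mem_univ x)
  have h4 := Finset.sum_erase_add (univ : Finset (Fin n))
    (fun w => if (x ≠ y ∧ x ≠ z) ∧ (w ≠ y ∧ w ≠ z) ∧ E w then (1 : ℤ) else 0) (mem_univ x)
  rw [← h3, ← h4, if_neg (by simp), add_zero]
  congr 1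
  · refine Finset.sum_congr rfl fun w hw => if_congr ?_ rfl rfl
    have hwx : x ≠ w := (Finset.ne_of_mem_erase hw).symm
    constructor
    · rintro ⟨⟨h1, h2, _, _, h5, h6⟩, h7⟩
      exact ⟨⟨h1, h2⟩, ⟨h5.symm, h6.symm⟩, h7⟩
    · rintro ⟨⟨h1, h2⟩, ⟨h5, h6⟩, h7⟩
      exact ⟨⟨h1, h2, hwx, hyz, h5.symm, h6.symm⟩, h7⟩
  · refine if_congr ?_ rfl rfl
    constructor
    · rintro ⟨⟨_, h1, h2⟩, h7⟩
      exact ⟨⟨h1.symm, h2.symm⟩, ⟨h1.symm, h2.symm⟩, h7⟩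
    · rintro ⟨⟨h1, h2⟩, _, h7⟩
      exact ⟨⟨hyz, h1.symm, h2.symm⟩, h7⟩

/-- number of `x ≠ y, z` with `c yx = j` -/
private def R04_A {n : ℕ} (c : Sym2 (Fin n) → ZMod 3) (y z : Fin n) (j : ZMod 3) : ℤ :=
  ∑ x : Fin n, if (x ≠ y ∧ x ≠ z) ∧ c s(y, x) = j then (1 : ℤ) else 0

private theorem R04_dg {n : ℕ} (c : Sym2 (Fin n) → ZMod 3) (y z : Fin n) (hyz : y ≠ z) (j : ZMod 3) :
    (dg c y j : ℤ) = R04_A c y z j + if c s(y, z) = j then 1 else 0 := by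
  rw [dg, Finset.card_filter, R04_A]
  push_cast
  have h3 := Finset.sum_erase_add (univ : Finset (Fin n))
    (fun x => if (x ≠ y ∧ c s(y, x) = j) then (1 : ℤ) else 0) (mem_univ z)
  have h4 := Finset.sum_erase_add (univ : Finset (Fin n))
    (fun x => if (x ≠ y ∧ x ≠ z) ∧ c s(y, x) = j then (1 : ℤ) else 0) (mem_univ z)
  rw [← h3, ← h4, if_neg (show ¬ ((z ≠ y ∧ z ≠ z) ∧ c s(y, z) = j) by simp), add_zero]
  congr 1
  · refine Finset.sum_congr rfl fun w hw => if_congr ?_ rfl rfl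
    have hwz : w ≠ z := (Finset.ne_of_mem_erase hw)
    tauto
  · refine if_congr ?_ rfl rfl
    have := hyz.symm
    tauto

private theorem R04_mid {n : ℕ} (c : Sym2 (Fin n) → ZMod 3) (y z : Fin n) (k : ZMod 3) :
    (∑ x : Fin n, ∑ w : Fin n, if (x ≠ y ∧ x ≠ z) ∧ (w ≠ y ∧ w ≠ z) ∧
      c s(x, y) + k + c s(z, w) = 0 then (1 : ℤ) else 0) =
    R04_A c y z k * R04_A c z y k + R04_A c y z (k + 1) * R04_A c z y (k + 2) +
      R04_A c y z (k + 2) * R04_A c z y (k + 1) := by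
  have h1 : ∀ x : Fin n, (∑ w : Fin n, if (x ≠ y ∧ x ≠ z) ∧ (w ≠ y ∧ w ≠ z) ∧
      c s(x, y) + k + c s(z, w) = 0 then (1 : ℤ) else 0) =
      ∑ j : ZMod 3, (if (x ≠ y ∧ x ≠ z) ∧ c s(y, x) = j then (1 : ℤ) else 0) *
        R04_A c z y (-k - j) := by
    intro x
    rw [Finset.sum_eq_single (c s(y, x))]
    · rw [R04_A, Finset.mul_sum]
      refine Finset.sum_congr rfl fun w _ => ?_
      have h5 : c s(x, y) + k + c s(z, w) = 0 ↔ c s(z, w) = -k - c s(y, x) := by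
        rw [Sym2.eq_swap (a := x) (b := y)]
        constructor
        · intro h
          linear_combination h
        · intro h
          rw [h]
          ring
      by_cases hx : x ≠ y ∧ x ≠ z
      · rw [if_pos (show (x ≠ y ∧ x ≠ z) ∧ c s(y, x) = c s(y, x) from ⟨hx, rfl⟩), one_mul]
        refine if_congr ?_ rfl rfl
        rw [h5]
        tauto
      · rw [if_neg (fun h => hx h.1), if_neg (fun h => hx h.1), zero_mul]
    · intro j _ hj
      rw [if_neg (fun h => hj h.2.symm), zero_mul]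
    · intro h
      exact absurd (mem_univ _) h
  simp only [h1]
  rw [Finset.sum_comm]
  have h2 : ∀ j : ZMod 3, (∑ x : Fin n, (if (x ≠ y ∧ x ≠ z) ∧ c s(y, x) = j then (1 : ℤ) else 0) *
        R04_A c z y (-k - j)) = R04_A c y z j * R04_A c z y (-k - j) := by
    intro j
    generalize R04_A c z y (-k - j) = B
    rw [R04_A, Finset.sum_mul]
  simp only [h2]
  rw [← Equiv.sum_comp (Equiv.addLeft k)]
  have h6 : ∀ g : ZMod 3 → ℤ, ∑ i : ZMod 3, g i = g 0 + g 1 + g 2 := by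
    intro g
    exact Fin.sum_univ_three g
  rw [h6]
  simp only [Equiv.coe_addLeft]
  have e0 : -k - (k + 0) = k := by clear h1 h2; revert k; decide
  have e1 : -k - (k + 1) = k + 2 := by clear h1 h2 e0; revert k; decide
  have e2 : -k - (k + 2) = k + 1 := by clear h1 h2 e0 e1; revert k; decide
  rw [e0, e1, e2, add_zero]

theorem nP_eq {n : ℕ} (c : Sym2 (Fin n) → ZMod 3) :
    (nP c : ℤ) + tri0 c = ∑ x : Fin n, ∑ y ∈ univ.erase x,
      (((dg c x (c s(x, y)) : ℤ) - 1) * (dg c y (c s(x, y)) - 1)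
        + (dg c x (c s(x, y) + 1) : ℤ) * dg c y (c s(x, y) + 2)
        + (dg c x (c s(x, y) + 2) : ℤ) * dg c y (c s(x, y) + 1)) := by
  have h1 : (nP c : ℤ) = ∑ y : Fin n, ∑ z : Fin n, ∑ x : Fin n, ∑ w : Fin n,
      if (x ≠ y ∧ x ≠ z ∧ x ≠ w ∧ y ≠ z ∧ y ≠ w ∧ z ≠ w) ∧
      c s(x, y) + c s(y, z) + c s(z, w) = 0 then (1 : ℤ) else 0 := by
    rw [nP]
    push_cast
    rw [Finset.sum_comm]
    exact Finset.sum_congr rfl fun y _ => Finset.sum_comm
  have h2 : (tri0 c : ℤ) = ∑ y : Fin n, ∑ z : Fin n, ∑ x : Fin n,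
      if (y ≠ z ∧ y ≠ x ∧ z ≠ x) ∧ c s(x, y) + c s(y, z) + c s(z, x) = 0 then (1 : ℤ) else 0 := by
    rw [tri0]
    push_cast
    refine Finset.sum_congr rfl fun y _ => Finset.sum_congr rfl fun z _ =>
      Finset.sum_congr rfl fun x _ => if_congr ?_ rfl rfl
    rw [Sym2.eq_swap (a := y) (b := x)]
    have : c s(y, z) + c s(x, y) + c s(z, x) = c s(x, y) + c s(y, z) + c s(z, x) := by ring
    rw [this]
  rw [h1, h2]
  simp only [← Finset.sum_add_distrib]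
  refine Finset.sum_congr rfl fun y _ => ?_
  rw [← Finset.sum_erase_add (univ : Finset (Fin n)) _ (mem_univ y)]
  have h0 : (∑ x : Fin n, ((∑ w : Fin n,
      if (x ≠ y ∧ x ≠ y ∧ x ≠ w ∧ y ≠ y ∧ y ≠ w ∧ y ≠ w) ∧
      c s(x, y) + c s(y, y) + c s(y, w) = 0 then (1 : ℤ) else 0) +
      if (y ≠ y ∧ y ≠ x ∧ y ≠ x) ∧ c s(x, y) + c s(y, y) + c s(y, x) = 0 then (1 : ℤ) else 0)) = 0 := by
    refine Finset.sum_eq_zero fun x _ => ?_
    rw [if_neg (by simp), add_zero]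
    exact Finset.sum_eq_zero fun w _ => if_neg (by simp)
  rw [h0, add_zero]
  refine Finset.sum_congr rfl fun z hz => ?_
  have hyz : y ≠ z := (Finset.ne_of_mem_erase hz).symm
  have h3 : ∀ x : Fin n, ((∑ w : Fin n,
      if (x ≠ y ∧ x ≠ z ∧ x ≠ w ∧ y ≠ z ∧ y ≠ w ∧ z ≠ w) ∧
      c s(x, y) + c s(y, z) + c s(z, w) = 0 then (1 : ℤ) else 0) +
      if (y ≠ z ∧ y ≠ x ∧ z ≠ x) ∧ c s(x, y) + c s(y, z) + c s(z, x) = 0 then (1 : ℤ) else 0) =
      ∑ w : Fin n, if (x ≠ y ∧ x ≠ z) ∧ (w ≠ y ∧ w ≠ z) ∧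
        c s(x, y) + c s(y, z) + c s(z, w) = 0 then (1 : ℤ) else 0 :=
    fun x => R04_inner x y z hyz (fun w => c s(x, y) + c s(y, z) + c s(z, w) = 0)
  simp only [h3]
  rw [R04_mid]
  have hzy : c s(z, y) = c s(y, z) := by rw [Sym2.eq_swap]
  rw [R04_dg c y z hyz, R04_dg c z y hyz.symm, R04_dg c y z hyz, R04_dg c z y hyz.symm,
    R04_dg c y z hyz, R04_dg c z y hyz.symm, hzy]
  have e1 : ¬ (c s(y, z) = c s(y, z) + 1) := by
    generalize c s(y, z) = k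
    revert k
    decide
  have e2 : ¬ (c s(y, z) = c s(y, z) + 2) := by
    generalize c s(y, z) = k
    revert k
    decide
  rw [if_pos rfl, if_neg e1, if_neg e2]
  ring

end Pool.Agent.MP5f
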