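import Mathlib
import Pool.Agent.MP_5f2667_co.Defs

set_option autoImplicit false

open Finset

/-
Proof hint. Let M, W, R be the numbers of ordered triples (x,y,z) of distinct vertices whose triangle is monochromatic, has exactly two
colours, is rainbow. M+W+R = n(n-1)(n-2). tri0 = M+R. rb3 = R. Sum over x,k of d(d-1) counts ordered (x,y,z) with
c xy = c xz: this is M + W/3 (use the symmetry of the sums over the three positions: sum of indicators
[xy=xz]+[xy=yz]+[xz=yz] is 3 on mono, 1 on two-coloured, 0 on rainbow triangles). So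
3*sum = 3M + W = 3M + n(n-1)(n-2) - M - R, i.e. 2(M+R) = 3*sum - n(n-1)(n-2) + 3R.
-/

namespace Pool.Agent.MP5f

private theorem R05_point (a b e : ZMod 3) : (2 * (if a + b + e = 0 then 1 else 0) : ℤ) =
    (if a = b then 1 else 0) + (if a = e then 1 else 0) + (if b = e then 1 else 0) - 1 +
      3 * (if (a ≠ b ∧ a ≠ e ∧ b ≠ e) then 1 else 0) := by
  revert a b e
  decide

private theorem R05_and (p q : Prop) [Decidable p] [Decidable q] :
    (if p ∧ q then (1 : ℤ) else 0) = (if p then 1 else 0) * (if q then 1 else 0) := by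
  by_cases hp : p <;> by_cases hq : q <;> simp [hp, hq]

/-- number of ordered triples with `c xy = c xz` -/
private def R05_P {n : ℕ} (c : Sym2 (Fin n) → ZMod 3) : ℤ :=
  ∑ x : Fin n, ∑ y : Fin n, ∑ z : Fin n,
    if (x ≠ y ∧ x ≠ z ∧ y ≠ z) ∧ c s(x, y) = c s(x, z) then 1 else 0

private theorem R05_P2 {n : ℕ} (c : Sym2 (Fin n) → ZMod 3) :
    (∑ x : Fin n, ∑ y : Fin n, ∑ z : Fin n,
      if (x ≠ y ∧ x ≠ z ∧ y ≠ z) ∧ c s(x, y) = c s(y, z) then (1 : ℤ) else 0) = R05_P c := by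
  rw [R05_P, Finset.sum_comm]
  refine Finset.sum_congr rfl fun y _ => Finset.sum_congr rfl fun x _ =>
    Finset.sum_congr rfl fun z _ => ?_
  refine if_congr ?_ rfl rfl
  rw [Sym2.eq_swap (a := x) (b := y)]
  constructor
  · rintro ⟨⟨h1, h2, h3⟩, h4⟩
    exact ⟨⟨h1.symm, h3, h2⟩, h4⟩
  · rintro ⟨⟨h1, h2, h3⟩, h4⟩
    exact ⟨⟨h1.symm, h3, h2⟩, h4⟩

private theorem R05_P3 {n : ℕ} (c : Sym2 (Fin n) → ZMod 3) :
    (∑ x : Fin n, ∑ y : Fin n, ∑ z : Fin n,
      if (x ≠ y ∧ x ≠ z ∧ y ≠ z) ∧ c s(x, z) = c s(y, z) then (1 : ℤ) else 0) = R05_P c := by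
  have h1 : ∀ g : Fin n → Fin n → Fin n → ℤ,
      ∑ x : Fin n, ∑ y : Fin n, ∑ z : Fin n, g x y z =
        ∑ z : Fin n, ∑ x : Fin n, ∑ y : Fin n, g x y z := by
    intro g
    have : ∀ x : Fin n, ∑ y : Fin n, ∑ z : Fin n, g x y z = ∑ z : Fin n, ∑ y : Fin n, g x y z :=
      fun x => Finset.sum_comm
    rw [Finset.sum_congr rfl fun x _ => this x]
    exact Finset.sum_comm
  rw [R05_P, h1]
  refine Finset.sum_congr rfl fun z _ => Finset.sum_congr rfl fun x _ =>
    Finset.sum_congr rfl fun y _ => ?_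
  refine if_congr ?_ rfl rfl
  rw [Sym2.eq_swap (a := x) (b := z), Sym2.eq_swap (a := y) (b := z)]
  constructor
  · rintro ⟨⟨h1, h2, h3⟩, h4⟩
    exact ⟨⟨h2.symm, h3.symm, h1⟩, h4⟩
  · rintro ⟨⟨h1, h2, h3⟩, h4⟩
    exact ⟨⟨h3, h1.symm, h2.symm⟩, h4⟩

private theorem R05_deg {n : ℕ} (c : Sym2 (Fin n) → ZMod 3) (x : Fin n) :
    ∑ k : ZMod 3, (dg c x k : ℤ) * (dg c x k - 1) = ∑ y : Fin n, ∑ z : Fin n,
      if (x ≠ y ∧ x ≠ z ∧ y ≠ z) ∧ c s(x, y) = c s(x, z) then 1 else 0 := by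
  have h1 : ∀ k : ZMod 3, (dg c x k : ℤ) = ∑ y : Fin n, if (y ≠ x ∧ c s(x, y) = k) then 1 else 0 := by
    intro k
    rw [dg, Finset.card_filter]
    push_cast
    rfl
  have h2 : ∀ k : ZMod 3, (dg c x k : ℤ) * (dg c x k - 1) = ∑ y : Fin n, ∑ z : Fin n,
      if (y ≠ x ∧ c s(x, y) = k) ∧ (z ≠ x ∧ c s(x, z) = k) ∧ y ≠ z then 1 else 0 := by
    intro k
    rw [mul_sub, mul_one]
    nth_rw 1 [h1 k]
    rw [h1 k, Finset.sum_mul, ← Finset.sum_sub_distrib]
    refine Finset.sum_congr rfl fun y _ => ?_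
    by_cases hy : y ≠ x ∧ c s(x, y) = k
    · rw [if_pos hy, one_mul]
      have h3 := Finset.sum_erase_add (univ : Finset (Fin n))
        (fun z => if (z ≠ x ∧ c s(x, z) = k) then (1 : ℤ) else 0) (mem_univ y)
      have h4 := Finset.sum_erase_add (univ : Finset (Fin n))
        (fun z => if (y ≠ x ∧ c s(x, y) = k) ∧ (z ≠ x ∧ c s(x, z) = k) ∧ y ≠ z then (1 : ℤ) else 0)
        (mem_univ y)
      rw [← h3, ← h4, if_pos hy, if_neg (by simp), add_zero, add_sub_cancel_right]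
      refine Finset.sum_congr rfl fun z hz => if_congr ?_ rfl rfl
      have hzy : y ≠ z := (Finset.ne_of_mem_erase hz).symm
      exact ⟨fun h => ⟨hy, h, hzy⟩, fun h => h.2.1⟩
    · rw [if_neg hy, zero_mul, sub_zero]
      symm
      exact Finset.sum_eq_zero fun z _ => if_neg fun h => hy h.1
  simp only [h2]
  rw [Finset.sum_comm]
  refine Finset.sum_congr rfl fun y _ => ?_
  rw [Finset.sum_comm]
  refine Finset.sum_congr rfl fun z _ => ?_
  by_cases hD : (x ≠ y ∧ x ≠ z ∧ y ≠ z) ∧ c s(x, y) = c s(x, z)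
  · rw [if_pos hD, Finset.sum_eq_single (c s(x, y))]
    · rw [if_pos ⟨⟨hD.1.1.symm, rfl⟩, ⟨hD.1.2.1.symm, hD.2.symm⟩, hD.1.2.2⟩]
    · intro k _ hk
      exact if_neg fun h => hk h.1.2.symm
    · intro h
      exact absurd (mem_univ _) h
  · rw [if_neg hD]
    refine Finset.sum_eq_zero fun k _ => if_neg fun h => hD ?_
    exact ⟨⟨h.1.1.symm, h.2.1.1.symm, h.2.2⟩, h.1.2.trans h.2.1.2.symm⟩

private theorem R05_D (n : ℕ) : (∑ x : Fin n, ∑ y : Fin n, ∑ z : Fin n,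
    if (x ≠ y ∧ x ≠ z ∧ y ≠ z) then (1 : ℤ) else 0) = (n : ℤ) * (n - 1) * (n - 2) := by
  have h1 : ∀ x y : Fin n, (∑ z : Fin n, if (x ≠ y ∧ x ≠ z ∧ y ≠ z) then (1 : ℤ) else 0) =
      if x ≠ y then (n : ℤ) - 2 else 0 := by
    intro x y
    by_cases hxy : x ≠ y
    · rw [if_pos hxy]
      have h3 := Finset.sum_erase_add (univ : Finset (Fin n))
        (fun z => if (x ≠ y ∧ x ≠ z ∧ y ≠ z) then (1 : ℤ) else 0) (mem_univ x)
      have h4 := Finset.sum_erase_add (univ.erase x : Finset (Fin n))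
        (fun z => if (x ≠ y ∧ x ≠ z ∧ y ≠ z) then (1 : ℤ) else 0)
        (mem_erase.2 ⟨hxy.symm, mem_univ y⟩)
      rw [← h3, ← h4, if_neg (by simp), if_neg (by simp), add_zero, add_zero]
      rw [Finset.sum_congr rfl (g := fun _ => (1 : ℤ))]
      · rw [Finset.sum_const, nsmul_eq_mul, mul_one, Finset.card_erase_of_mem
          (mem_erase.2 ⟨hxy.symm, mem_univ y⟩), Finset.card_erase_of_mem (mem_univ _),
          Finset.card_univ, Fintype.card_fin]
        have hn : 2 ≤ n := by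
          have hx := x.2
          have hy := y.2
          have : (x : ℕ) ≠ y := fun h => hxy (Fin.ext h)
          omega
        omega
      · intro z hz
        have h5 := Finset.mem_erase.1 hz
        have h6 := Finset.mem_erase.1 h5.2
        exact if_pos ⟨hxy, h6.1.symm, h5.1.symm⟩
    · rw [if_neg hxy]
      exact Finset.sum_eq_zero fun z _ => if_neg fun h => hxy h.1
  simp only [h1]
  have h2 : ∀ x : Fin n, (∑ y : Fin n, if x ≠ y then (n : ℤ) - 2 else 0) = (n - 1) * (n - 2) := by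
    intro x
    have h3 := Finset.sum_erase_add (univ : Finset (Fin n))
        (fun y => if x ≠ y then (n : ℤ) - 2 else 0) (mem_univ x)
    rw [← h3, if_neg (by simp), add_zero, Finset.sum_congr rfl (g := fun _ => (n : ℤ) - 2)]
    · rw [Finset.sum_const, nsmul_eq_mul, Finset.card_erase_of_mem (mem_univ _),
          Finset.card_univ, Fintype.card_fin]
      have hn : 1 ≤ n := by have := x.2; omega
      push_cast [hn]
      ring
    · intro y hy
      exact if_pos (Finset.ne_of_mem_erase hy).symm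
  simp only [h2]
  rw [Finset.sum_const, nsmul_eq_mul, Finset.card_univ, Fintype.card_fin]
  ring

theorem tri_eq {n : ℕ} (c : Sym2 (Fin n) → ZMod 3) :
    (2 * tri0 c : ℤ) = 3 * ∑ x : Fin n, ∑ k : ZMod 3, (dg c x k : ℤ) * (dg c x k - 1)
      - (n : ℤ) * (n - 1) * (n - 2) + 3 * rb3 c := by
  have h1 : ∑ x : Fin n, ∑ k : ZMod 3, (dg c x k : ℤ) * (dg c x k - 1) = R05_P c := by
    rw [R05_P]
    exact Finset.sum_congr rfl fun x _ => R05_deg c x
  have h2 : (3 : ℤ) * R05_P c = R05_P c + (∑ x : Fin n, ∑ y : Fin n, ∑ z : Fin n,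
      if (x ≠ y ∧ x ≠ z ∧ y ≠ z) ∧ c s(x, y) = c s(y, z) then (1 : ℤ) else 0) +
      (∑ x : Fin n, ∑ y : Fin n, ∑ z : Fin n,
      if (x ≠ y ∧ x ≠ z ∧ y ≠ z) ∧ c s(x, z) = c s(y, z) then (1 : ℤ) else 0) := by
    rw [R05_P2, R05_P3]
    ring
  rw [h1, h2, ← R05_D n, R05_P, tri0, rb3]
  push_cast
  simp only [Finset.mul_sum, ← Finset.sum_add_distrib, ← Finset.sum_sub_distrib]
  refine Finset.sum_congr rfl fun x _ => Finset.sum_congr rfl fun y _ =>
    Finset.sum_congr rfl fun z _ => ?_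
  have h3 := R05_point (c s(x, y)) (c s(x, z)) (c s(y, z))
  simp only [R05_and (x ≠ y ∧ x ≠ z ∧ y ≠ z)]
  generalize (if x ≠ y ∧ x ≠ z ∧ y ≠ z then (1 : ℤ) else 0) = D
  linear_combination D * h3

end Pool.Agent.MP5f
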