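import Mathlib
import Pool.Agent.MP_5f2667_co.R01
import Pool.Agent.MP_5f2667_co.R03
import Pool.Agent.MP_5f2667_co.R04
import Pool.Agent.MP_5f2667_co.R05
import Pool.Agent.MP_5f2667_co.R06

set_option autoImplicit false

open Finset

/-
Proof. N = n-1, d_k = dg c x k, e2 = d0d1+d0d2+d1d2, e3=d0d1d2, sum of d_k = N.
(1) 6 zs = nS + 3 nP (R01). (2) nS = sum_x [N^3-3N^2+2N-(3N-6)e2+9e3] (R03 and Newton).
(3) R04 and the algebra: for x,y with k the colour of xy, u1 = d_x(k+1)+d_y(k+2), u2 = d_x(k+2)+d_y(k+1), u0 = d_x(k)+d_y(k),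
u0+u1+u2 = 2N, 2*(d_x(k)d_y(k)+d_x(k+1)d_y(k+2)+d_x(k+2)d_y(k+1)) = u0^2+u1^2+u2^2-|d_x|^2-|d_y|^2 and
u0^2+u1^2+u2^2 = N^2/2 + N u0 + 2 Qe where |d|^2 = sum of squares. Summing over ordered pairs, sum u0 = 2 sum_x |d_x|^2 (sum_by_colour), so
sum over ordered pairs of (products) = n N N^2/4 + sum QeC, and sum of (-d_x(k)-d_y(k)+1) = -2 sum|d|^2 + nN.
(4) tri0 from R05: 2 tri0 = 3 sum(|d|^2 - N) - nN(N-1) + 3 rb3. Then everything is linear: |d|^2 = N^2-2 e2;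
6 zs = sum_x[N^3-(27/2)N^2+(13/2)N - 3(N-9) e2 + 9 e3] + 3nN(N^2/4+1) + (3/2) nN(N-1) + 3 sum QeC - (9/2) rb3,
and 6 Fv = 3(N-9)(N^2/4-e2) + 9 e3, 6 Cn = nN(N^2 - 21N/4 + 8). Symmetry QeC c y x: not needed. Tested numerically.
-/

namespace Pool.Agent.MP5f

theorem R07_pair (N p q r p' q' r' : ℝ) (h : p + q + r = N) (h' : p' + q' + r' = N) :
    (p - 1) * (p' - 1) + q * q' + r * r' = N ^ 2 / 4 + Qe N q r q' r' + (N / 2 - 1) * (p + p')
      - ((p ^ 2 + q ^ 2 + r ^ 2) + (p' ^ 2 + q' ^ 2 + r' ^ 2)) / 2 + 1 := by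
  have hp : p = N - q - r := by linarith
  have hp' : p' = N - q' - r' := by linarith
  subst hp
  subst hp'
  unfold Qe
  ring

theorem R07_three (f : ZMod 3 → ℝ) : ∑ k : ZMod 3, f k = f 0 + f 1 + f 2 :=
  Fin.sum_univ_three (M := ℝ) f

theorem R07_rot (f : ZMod 3 → ℝ) (k : ZMod 3) : f k + f (k + 1) + f (k + 2) = f 0 + f 1 + f 2 := by
  have h : k = 0 ∨ k = 1 ∨ k = 2 := by
    revert k
    decide
  rcases h with rfl | rfl | rfl
  · rw [zero_add, zero_add]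
  · rw [show (1 : ZMod 3) + 1 = 2 from by decide, show (1 : ZMod 3) + 2 = 0 from by decide]
    ring
  · rw [show (2 : ZMod 3) + 1 = 0 from by decide, show (2 : ZMod 3) + 2 = 1 from by decide]
    ring

theorem R07_swap {n : ℕ} (F : Fin n → Fin n → ℝ) :
    ∑ x : Fin n, ∑ y ∈ univ.erase x, F x y = ∑ x : Fin n, ∑ y ∈ univ.erase x, F y x := by
  rw [Finset.sum_comm' (t' := univ) (s' := fun y => univ.erase y)]
  intro x y
  simp only [Finset.mem_univ, Finset.mem_erase, and_true, true_and]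
  exact ne_comm

/-- the sum of the squares -/
noncomputable def R07_D {n : ℕ} (c : Sym2 (Fin n) → ZMod 3) (x : Fin n) : ℝ :=
  (dg c x 0 : ℝ) ^ 2 + (dg c x 1 : ℝ) ^ 2 + (dg c x 2 : ℝ) ^ 2

theorem R07_D_sum {n : ℕ} (c : Sym2 (Fin n) → ZMod 3) (x : Fin n) :
    ∑ y ∈ univ.erase x, (dg c x (c s(x, y)) : ℝ) = R07_D c x := by
  rw [sum_by_colour c x (fun k => (dg c x k : ℝ)), R07_three, R07_D]
  ring

theorem R07_D_rot {n : ℕ} (c : Sym2 (Fin n) → ZMod 3) (x : Fin n) (k : ZMod 3) :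
    (dg c x k : ℝ) ^ 2 + (dg c x (k + 1) : ℝ) ^ 2 + (dg c x (k + 2) : ℝ) ^ 2 = R07_D c x :=
  R07_rot (fun k => (dg c x k : ℝ) ^ 2) k

theorem R07_card {n : ℕ} (x : Fin n) (a : ℝ) : ∑ _y ∈ univ.erase x, a = ((n : ℝ) - 1) * a := by
  rw [Finset.sum_const, Finset.card_erase_of_mem (Finset.mem_univ x), Finset.card_univ,
    Fintype.card_fin, nsmul_eq_mul, Nat.cast_sub (by have := x.2; omega), Nat.cast_one]

theorem R07_P {n : ℕ} (c : Sym2 (Fin n) → ZMod 3) :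
    ∑ x : Fin n, ∑ y ∈ univ.erase x,
      (((dg c x (c s(x, y)) : ℝ) - 1) * (dg c y (c s(x, y)) - 1)
        + (dg c x (c s(x, y) + 1) : ℝ) * dg c y (c s(x, y) + 2)
        + (dg c x (c s(x, y) + 2) : ℝ) * dg c y (c s(x, y) + 1)) =
    ∑ x : Fin n, (((n : ℝ) - 1) ^ 3 / 4 + ((n : ℝ) - 1) - 2 * R07_D c x)
      + ∑ x : Fin n, ∑ y ∈ univ.erase x, QeC c x y := by
  have h1 : ∀ x y : Fin n,
      (((dg c x (c s(x, y)) : ℝ) - 1) * (dg c y (c s(x, y)) - 1)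
        + (dg c x (c s(x, y) + 1) : ℝ) * dg c y (c s(x, y) + 2)
        + (dg c x (c s(x, y) + 2) : ℝ) * dg c y (c s(x, y) + 1)) =
      (((n : ℝ) - 1) ^ 2 / 4 + 1) + QeC c x y
        + (((n : ℝ) - 1) / 2 - 1) * (dg c x (c s(x, y)) : ℝ)
        + (((n : ℝ) - 1) / 2 - 1) * (dg c y (c s(x, y)) : ℝ)
        - R07_D c x / 2 - R07_D c y / 2 := by
    intro x y
    have e1 : (dg c x (c s(x, y)) : ℝ) + dg c x (c s(x, y) + 1) + dg c x (c s(x, y) + 2)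
        = (n : ℝ) - 1 := by
      have := dg_sum' c x (c s(x, y))
      have h2 : ((dg c x (c s(x, y)) + dg c x (c s(x, y) + 1) + dg c x (c s(x, y) + 2) + 1 : ℕ) : ℝ)
          = n := by rw [this]
      push_cast at h2
      linarith
    have e2 : (dg c y (c s(x, y)) : ℝ) + dg c y (c s(x, y) + 2) + dg c y (c s(x, y) + 1)
        = (n : ℝ) - 1 := by
      have := dg_sum' c y (c s(x, y))
      have h2 : ((dg c y (c s(x, y)) + dg c y (c s(x, y) + 1) + dg c y (c s(x, y) + 2) + 1 : ℕ) : ℝ)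
          = n := by rw [this]
      push_cast at h2
      linarith
    have h3 := R07_pair ((n : ℝ) - 1) _ _ _ _ _ _ e1 e2
    have h4 := R07_D_rot c x (c s(x, y))
    have h5 := R07_D_rot c y (c s(x, y))
    rw [h3]
    unfold QeC
    linear_combination (-1 / 2) * h4 - (1 / 2) * h5
  have h2 : ∑ x : Fin n, ∑ y ∈ univ.erase x, (dg c y (c s(x, y)) : ℝ) = ∑ x : Fin n, R07_D c x := by
    rw [R07_swap (fun x y => (dg c y (c s(x, y)) : ℝ))]
    refine Finset.sum_congr rfl fun x _ => ?_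
    rw [← R07_D_sum c x]
    refine Finset.sum_congr rfl fun y _ => ?_
    rw [Sym2.eq_swap]
  have h3 : ∑ x : Fin n, ∑ y ∈ univ.erase x, R07_D c y
      = ∑ x : Fin n, ((n : ℝ) - 1) * R07_D c x := by
    rw [R07_swap (fun x y => R07_D c y)]
    refine Finset.sum_congr rfl fun x _ => ?_
    exact R07_card x _
  simp only [h1]
  simp only [Finset.sum_add_distrib, Finset.sum_sub_distrib, ← Finset.mul_sum, ← Finset.sum_div,
    R07_D_sum, h2, h3, R07_card]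
  simp only [Finset.mul_sum]
  simp only [Finset.sum_const, Finset.card_univ, Fintype.card_fin, nsmul_eq_mul,
    ← Finset.mul_sum]
  ring

theorem R07_vertex (N a b d : ℝ) (hs : a + b + d = N) :
    (a * (a - 1) * (a - 2) + b * (b - 1) * (b - 2) + d * (d - 1) * (d - 2) + 6 * a * b * d)
      + 3 * (N ^ 3 / 4 + N - 2 * (a ^ 2 + b ^ 2 + d ^ 2))
      - 3 / 2 * (3 * (a * (a - 1) + b * (b - 1) + d * (d - 1)) - N * (N - 1))
    = N * (4 * N ^ 2 - 21 * N + 32) / 4 + 6 * Fv N a b d := by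
  subst hs
  unfold Fv
  ring

theorem main_identity {n : ℕ} (hn : 1 ≤ n) (c : Sym2 (Fin n) → ZMod 3) :
    (zs c : ℝ) = Cn n + ∑ x : Fin n, Fv ((n : ℝ) - 1) (dg c x 0) (dg c x 1) (dg c x 2)
      + 1 / 2 * ∑ x : Fin n, ∑ y ∈ univ.erase x, QeC c x y - 3 / 4 * rb3 c := by
  have hz : (6 : ℝ) * zs c = nS c + 3 * nP c := by exact_mod_cast zs_tuples c
  have h3 : (nS c : ℝ) = ∑ x : Fin n,
      ((dg c x 0 : ℝ) * (dg c x 0 - 1) * (dg c x 0 - 2)
        + (dg c x 1 : ℝ) * (dg c x 1 - 1) * (dg c x 1 - 2)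
        + (dg c x 2 : ℝ) * (dg c x 2 - 1) * (dg c x 2 - 2)
        + 6 * dg c x 0 * dg c x 1 * dg c x 2) := by
    have := congrArg (Int.cast : ℤ → ℝ) (nS_eq c)
    push_cast at this
    exact this
  have h4 : (nP c : ℝ) + tri0 c = ∑ x : Fin n, ∑ y ∈ univ.erase x,
      (((dg c x (c s(x, y)) : ℝ) - 1) * (dg c y (c s(x, y)) - 1)
        + (dg c x (c s(x, y) + 1) : ℝ) * dg c y (c s(x, y) + 2)
        + (dg c x (c s(x, y) + 2) : ℝ) * dg c y (c s(x, y) + 1)) := by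
    have := congrArg (Int.cast : ℤ → ℝ) (nP_eq c)
    push_cast at this
    exact this
  rw [R07_P] at h4
  have h5 : (2 * tri0 c : ℝ) = 3 * ∑ x : Fin n, ((dg c x 0 : ℝ) * (dg c x 0 - 1)
        + (dg c x 1 : ℝ) * (dg c x 1 - 1) + (dg c x 2 : ℝ) * (dg c x 2 - 1))
      - (n : ℝ) * (n - 1) * (n - 2) + 3 * rb3 c := by
    have := congrArg (Int.cast : ℤ → ℝ) (tri_eq c)
    push_cast at this
    rw [this]
    congr 3
    refine Finset.sum_congr rfl fun x _ => ?_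
    exact R07_three (fun k => (dg c x k : ℝ) * (dg c x k - 1))
  have h6 : ∀ x : Fin n,
      ((dg c x 0 : ℝ) * (dg c x 0 - 1) * (dg c x 0 - 2)
        + (dg c x 1 : ℝ) * (dg c x 1 - 1) * (dg c x 1 - 2)
        + (dg c x 2 : ℝ) * (dg c x 2 - 1) * (dg c x 2 - 2)
        + 6 * dg c x 0 * dg c x 1 * dg c x 2) =
      (((n : ℝ) - 1) * (4 * ((n : ℝ) - 1) ^ 2 - 21 * ((n : ℝ) - 1) + 32) / 4
        - 3 / 2 * (((n : ℝ) - 1) * (((n : ℝ) - 1) - 1)))
        + 6 * Fv ((n : ℝ) - 1) (dg c x 0) (dg c x 1) (dg c x 2)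
        - 3 * (((n : ℝ) - 1) ^ 3 / 4 + ((n : ℝ) - 1) - 2 * R07_D c x)
        + 9 / 2 * ((dg c x 0 : ℝ) * (dg c x 0 - 1)
        + (dg c x 1 : ℝ) * (dg c x 1 - 1) + (dg c x 2 : ℝ) * (dg c x 2 - 1)) := by
    intro x
    have e1 : (dg c x 0 : ℝ) + dg c x 1 + dg c x 2 = (n : ℝ) - 1 := by
      have := dg_sum c x
      have h2 : ((dg c x 0 + dg c x 1 + dg c x 2 + 1 : ℕ) : ℝ) = n := by rw [this]
      push_cast at h2
      linarith
    have h7 := R07_vertex ((n : ℝ) - 1) _ _ _ e1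
    unfold R07_D
    linear_combination h7
  have h7 : (nS c : ℝ) = (n : ℝ) * (((n : ℝ) - 1) * (4 * ((n : ℝ) - 1) ^ 2
        - 21 * ((n : ℝ) - 1) + 32) / 4 - 3 / 2 * (((n : ℝ) - 1) * (((n : ℝ) - 1) - 1)))
      + 6 * ∑ x : Fin n, Fv ((n : ℝ) - 1) (dg c x 0) (dg c x 1) (dg c x 2)
      - 3 * ∑ x : Fin n, (((n : ℝ) - 1) ^ 3 / 4 + ((n : ℝ) - 1) - 2 * R07_D c x)
      + 9 / 2 * ∑ x : Fin n, ((dg c x 0 : ℝ) * (dg c x 0 - 1)
        + (dg c x 1 : ℝ) * (dg c x 1 - 1) + (dg c x 2 : ℝ) * (dg c x 2 - 1)) := by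
    rw [h3, Finset.mul_sum, Finset.mul_sum, Finset.mul_sum]
    rw [Finset.sum_congr rfl fun x _ => h6 x]
    rw [Finset.sum_add_distrib, Finset.sum_sub_distrib, Finset.sum_add_distrib,
      Finset.sum_const, Finset.card_univ, Fintype.card_fin, nsmul_eq_mul]
  unfold Cn
  linear_combination (1 / 6) * hz + (1 / 6) * h7 + (1 / 2) * h4 - (1 / 4) * h5

end Pool.Agent.MP5f
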