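import Mathlib
import Pool.Agent.MP_5f2667_co.R06
import Pool.Agent.MP_5f2667_co.R07

set_option autoImplicit false

open Finset

/-
Proof. rb3_le: for an ordered pair (x,y) with colour k the z with xyz rainbow have (c xz, c yz) = (k+1,k+2) or (k+2,k+1); the first kind
are at most min(dg x (k+1), dg y (k+2)), the second at most min(dg x (k+2), dg y (k+1)).
zs_lower: R07, rb3_le, and sum_x Fv_x = 1/2 * sum over ordered pairs (Fv_x + Fv_y)/N (each x is in N ordered pairs in each role);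
Fv of the permuted triples is the same (Fv is symmetric): split on the colour k = 0,1,2 of the edge.
(N = n-1 > 0.)
-/

namespace Pool.Agent.MP5f

theorem R08_zmod (k a b : ZMod 3) (h1 : k ≠ a) (h2 : k ≠ b) (h3 : a ≠ b) :
    (a = k + 1 ∧ b = k + 2) ∨ (a = k + 2 ∧ b = k + 1) := by
  revert k a b; decide

theorem R08_edge {n : ℕ} (c : Sym2 (Fin n) → ZMod 3) (x y : Fin n) :
    ∑ z : Fin n, (if (x ≠ y ∧ x ≠ z ∧ y ≠ z) ∧
      (c s(x, y) ≠ c s(x, z) ∧ c s(x, y) ≠ c s(y, z) ∧ c s(x, z) ≠ c s(y, z)) then 1 else 0) ≤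
      min (dg c x (c s(x, y) + 1)) (dg c y (c s(x, y) + 2))
        + min (dg c x (c s(x, y) + 2)) (dg c y (c s(x, y) + 1)) := by
  classical
  rw [← Finset.card_filter]
  have h1 : (univ.filter fun z : Fin n => (x ≠ y ∧ x ≠ z ∧ y ≠ z) ∧
      (c s(x, y) ≠ c s(x, z) ∧ c s(x, y) ≠ c s(y, z) ∧ c s(x, z) ≠ c s(y, z))) ⊆
      (univ.filter fun z : Fin n => (z ≠ x ∧ c s(x, z) = c s(x, y) + 1) ∧
        (z ≠ y ∧ c s(y, z) = c s(x, y) + 2)) ∪
      (univ.filter fun z : Fin n => (z ≠ x ∧ c s(x, z) = c s(x, y) + 2) ∧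
        (z ≠ y ∧ c s(y, z) = c s(x, y) + 1)) := by
    intro z hz
    rw [Finset.mem_filter] at hz
    obtain ⟨_, ⟨h1, h2, h3⟩, h4, h5, h6⟩ := hz
    rw [Finset.mem_union, Finset.mem_filter, Finset.mem_filter]
    rcases R08_zmod _ _ _ h4 h5 h6 with ⟨h7, h8⟩ | ⟨h7, h8⟩
    · exact Or.inl ⟨Finset.mem_univ _, ⟨h2.symm, h7⟩, h3.symm, h8⟩
    · exact Or.inr ⟨Finset.mem_univ _, ⟨h2.symm, h7⟩, h3.symm, h8⟩
  refine (Finset.card_le_card h1).trans ((Finset.card_union_le _ _).trans ?_)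
  refine add_le_add (le_min ?_ ?_) (le_min ?_ ?_)
  · exact Finset.card_le_card fun z hz => by
      rw [Finset.mem_filter] at hz ⊢
      exact ⟨hz.1, hz.2.1⟩
  · exact Finset.card_le_card fun z hz => by
      rw [Finset.mem_filter] at hz ⊢
      exact ⟨hz.1, hz.2.2⟩
  · exact Finset.card_le_card fun z hz => by
      rw [Finset.mem_filter] at hz ⊢
      exact ⟨hz.1, hz.2.1⟩
  · exact Finset.card_le_card fun z hz => by
      rw [Finset.mem_filter] at hz ⊢
      exact ⟨hz.1, hz.2.2⟩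

/-- number of rainbow triangles on an edge -/
theorem rb3_le {n : ℕ} (c : Sym2 (Fin n) → ZMod 3) :
    (rb3 c : ℝ) ≤ ∑ x : Fin n, ∑ y ∈ univ.erase x,
      (min (dg c x (c s(x, y) + 1) : ℝ) (dg c y (c s(x, y) + 2))
        + min (dg c x (c s(x, y) + 2) : ℝ) (dg c y (c s(x, y) + 1))) := by
  have h1 : rb3 c ≤ ∑ x : Fin n, ∑ y ∈ univ.erase x,
      (min (dg c x (c s(x, y) + 1)) (dg c y (c s(x, y) + 2))
        + min (dg c x (c s(x, y) + 2)) (dg c y (c s(x, y) + 1))) := by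
    unfold rb3
    apply Finset.sum_le_sum
    intro x _
    rw [← Finset.add_sum_erase univ _ (Finset.mem_univ x)]
    have h0 : (∑ z : Fin n, if (x ≠ x ∧ x ≠ z ∧ x ≠ z) ∧
        (c s(x, x) ≠ c s(x, z) ∧ c s(x, x) ≠ c s(x, z) ∧ c s(x, z) ≠ c s(x, z)) then 1 else 0) = 0 := by
      apply Finset.sum_eq_zero
      intro z _
      rw [if_neg]
      rintro ⟨⟨h, _⟩, _⟩
      exact h rfl
    rw [h0, zero_add]
    exact Finset.sum_le_sum fun y _ => R08_edge c x y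
  have h2 : ((rb3 c : ℕ) : ℝ) ≤ ((∑ x : Fin n, ∑ y ∈ univ.erase x,
      (min (dg c x (c s(x, y) + 1)) (dg c y (c s(x, y) + 2))
        + min (dg c x (c s(x, y) + 2)) (dg c y (c s(x, y) + 1))) : ℕ) : ℝ) := by
    exact_mod_cast h1
  refine h2.trans (le_of_eq ?_)
  push_cast
  rfl

theorem R08_Fv {n : ℕ} (c : Sym2 (Fin n) → ZMod 3) (N : ℝ) (x : Fin n) (k : ZMod 3) :
    Fv N (dg c x k) (dg c x (k + 1)) (dg c x (k + 2)) = Fv N (dg c x 0) (dg c x 1) (dg c x 2) := by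
  have h : k = 0 ∨ k = 1 ∨ k = 2 := by revert k; decide
  rcases h with rfl | rfl | rfl
  · rw [zero_add, zero_add]
  · rw [show (1 + 1 : ZMod 3) = 2 by decide, show (1 + 2 : ZMod 3) = 0 by decide]
    unfold Fv; ring
  · rw [show (2 + 1 : ZMod 3) = 0 by decide, show (2 + 2 : ZMod 3) = 1 by decide]
    unfold Fv; ring

theorem R08_Fv' {n : ℕ} (c : Sym2 (Fin n) → ZMod 3) (N : ℝ) (x : Fin n) (k : ZMod 3) :
    Fv N (dg c x k) (dg c x (k + 2)) (dg c x (k + 1)) = Fv N (dg c x 0) (dg c x 1) (dg c x 2) := by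
  rw [← R08_Fv c N x k]
  unfold Fv; ring

theorem R08_sum {n : ℕ} (hn : 2 ≤ n) (F : Fin n → ℝ) :
    ∑ x : Fin n, ∑ y ∈ univ.erase x, (F x + F y) / ((n : ℝ) - 1) = 2 * ∑ x : Fin n, F x := by
  have hN : (0 : ℝ) < (n : ℝ) - 1 := by
    have : (2 : ℝ) ≤ n := by exact_mod_cast hn
    linarith
  have h1 : ∀ x : Fin n, ∑ y ∈ univ.erase x, (F x + F y) / ((n : ℝ) - 1) =
      F x + ((∑ y : Fin n, F y) - F x) / ((n : ℝ) - 1) := by
    intro x
    rw [← Finset.sum_div, Finset.sum_add_distrib, Finset.sum_const,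
      Finset.card_erase_of_mem (Finset.mem_univ x), Finset.card_univ, Fintype.card_fin,
      nsmul_eq_mul, Nat.cast_sub (by omega), Nat.cast_one, add_div, mul_comm ((n : ℝ) - 1),
      mul_div_assoc, div_self hN.ne', mul_one]
    congr 2
    rw [eq_sub_iff_add_eq, Finset.sum_erase_add _ _ (Finset.mem_univ x)]
  rw [Finset.sum_congr rfl fun x _ => h1 x, Finset.sum_add_distrib, ← Finset.sum_div,
    Finset.sum_sub_distrib, Finset.sum_const, Finset.card_univ, Fintype.card_fin, nsmul_eq_mul]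
  field_simp
  ring

theorem zs_lower {n : ℕ} (hn : 2 ≤ n) (c : Sym2 (Fin n) → ZMod 3) :
    Cn n + 1 / 2 * ∑ x : Fin n, ∑ y ∈ univ.erase x, PsC c x y ≤ zs c := by
  have h1 := main_identity (by omega : 1 ≤ n) c
  have h2 := rb3_le c
  have h3 : ∑ x : Fin n, ∑ y ∈ univ.erase x, PsC c x y =
      ∑ x : Fin n, ∑ y ∈ univ.erase x, QeC c x y
        - 3 / 2 * ∑ x : Fin n, ∑ y ∈ univ.erase x,
          (min (dg c x (c s(x, y) + 1) : ℝ) (dg c y (c s(x, y) + 2))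
            + min (dg c x (c s(x, y) + 2) : ℝ) (dg c y (c s(x, y) + 1)))
        + 2 * ∑ x : Fin n, Fv ((n : ℝ) - 1) (dg c x 0) (dg c x 1) (dg c x 2) := by
    rw [← R08_sum hn (fun x => Fv ((n : ℝ) - 1) (dg c x 0) (dg c x 1) (dg c x 2)),
      Finset.mul_sum, ← Finset.sum_sub_distrib, ← Finset.sum_add_distrib]
    apply Finset.sum_congr rfl
    intro x _
    rw [Finset.mul_sum, ← Finset.sum_sub_distrib, ← Finset.sum_add_distrib]
    apply Finset.sum_congr rfl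
    intro y _
    simp only [PsC, Ps, QeC]
    rw [R08_Fv, R08_Fv']
  rw [h3, h1]
  linarith

end Pool.Agent.MP5f
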