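import Mathlib
import Pool.Agent.MP_5f2667_co.Defs2

set_option autoImplicit false

open Finset

/-
Finite checks (N=9, N=10; at most 45^2..55^2 cases each, verified by program), decide +kernel.
-/

namespace Pool.Agent.MP5f

/-- Boolean check over all pairs of triples with sum `N` and first entry positive -/
def R12_all (N : ℕ) (P : ℕ → ℕ → ℕ → ℕ → ℕ → ℕ → Bool) : Bool :=
  (List.range N).all fun p0 => (List.range (N - p0)).all fun q =>
    (List.range N).all fun p0' => (List.range (N - p0')).all fun q' =>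
      P (p0 + 1) q (N - (p0 + 1) - q) (p0' + 1) q' (N - (p0' + 1) - q')

theorem R12_spec {N : ℕ} {P : ℕ → ℕ → ℕ → ℕ → ℕ → ℕ → Bool} (h : R12_all N P = true)
    {p q r p' q' r' : ℕ} (hx : p + q + r = N) (hy : p' + q' + r' = N) (hp : 1 ≤ p)
    (hp' : 1 ≤ p') : P p q r p' q' r' = true := by
  unfold R12_all at h
  rw [List.all_eq_true] at h
  have h1 := h (p - 1) (List.mem_range.2 (by omega))
  rw [List.all_eq_true] at h1
  have h2 := h1 q (List.mem_range.2 (by omega))
  rw [List.all_eq_true] at h2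
  have h3 := h2 (p' - 1) (List.mem_range.2 (by omega))
  rw [List.all_eq_true] at h3
  have h4 := h3 q' (List.mem_range.2 (by omega))
  have e1 : p - 1 + 1 = p := by omega
  have e2 : p' - 1 + 1 = p' := by omega
  have e3 : N - p - q = r := by omega
  have e4 : N - p' - q' = r' := by omega
  rw [e1, e2, e3, e4] at h4
  exact h4

def R12_b9 (p q r p' q' r' : ℕ) : Bool :=
  (decide (q = 0) && decide (r' = 0)) || (decide (r = 0) && decide (q' = 0)) ||
    decide (36 + phi9 p q r + phi9 p' q' r' ≤ P8 9 p q r p' q' r')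

theorem R12_c9 : R12_all 9 R12_b9 = true := by decide +kernel

theorem fin_9 (p q r p' q' r' : ℕ) (hx : p + q + r = 9) (hy : p' + q' + r' = 9)
    (hp : 1 ≤ p) (hp' : 1 ≤ p') (hA : ¬ (q = 0 ∧ r' = 0)) (hB : ¬ (r = 0 ∧ q' = 0)) :
    36 + phi9 p q r + phi9 p' q' r' ≤ P8 9 p q r p' q' r' := by
  have h := R12_spec R12_c9 hx hy hp hp'
  simp only [R12_b9, Bool.or_eq_true, Bool.and_eq_true, decide_eq_true_eq] at h
  rcases h with (h | h) | h
  · exact absurd h hA
  · exact absurd h hB
  · exact h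

def R12_b9s (p q r p' q' r' : ℕ) : Bool :=
  decide (q = 0) || decide (r = 0) ||
    decide (0 ≤ (p : ℤ) * phi9 p q r + q * phi9 q r p + r * phi9 r p q)

theorem R12_c9s : R12_all 9 R12_b9s = true := by decide +kernel

theorem fin_9_sum (p q r : ℕ) (hx : p + q + r = 9) (hp : 1 ≤ p) (hq : 1 ≤ q) (hr : 1 ≤ r) :
    0 ≤ (p : ℤ) * phi9 p q r + q * phi9 q r p + r * phi9 r p q := by
  have h := R12_spec R12_c9s hx hx hp hp
  simp only [R12_b9s, Bool.or_eq_true, decide_eq_true_eq] at h
  rcases h with (h | h) | h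
  · omega
  · omega
  · exact h

def R12_b10 (p q r p' q' r' : ℕ) : Bool := decide (0 ≤ P8 10 p q r p' q' r')

theorem R12_c10 : R12_all 10 R12_b10 = true := by decide +kernel

theorem fin_10_nonneg (p q r p' q' r' : ℕ) (hx : p + q + r = 10) (hy : p' + q' + r' = 10)
    (hp : 1 ≤ p) (hp' : 1 ≤ p') : 0 ≤ P8 10 p q r p' q' r' := by
  have h := R12_spec R12_c10 hx hy hp hp'
  simp only [R12_b10, decide_eq_true_eq] at h
  exact h

def R12_b10f (p q r p' q' r' : ℕ) : Bool :=
  decide (q = 0) || decide (r = 0) ||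
    decide ((if p ≤ 2 then 72 else 108) ≤ P8 10 p q r p' q' r')

theorem R12_c10f : R12_all 10 R12_b10f = true := by decide +kernel

theorem fin_10_full (p q r p' q' r' : ℕ) (hx : p + q + r = 10) (hy : p' + q' + r' = 10)
    (hp : 1 ≤ p) (hp' : 1 ≤ p') (hq : 1 ≤ q) (hr : 1 ≤ r) :
    (if p ≤ 2 then 72 else 108) ≤ P8 10 p q r p' q' r' := by
  have h := R12_spec R12_c10f hx hy hp hp'
  simp only [R12_b10f, Bool.or_eq_true, decide_eq_true_eq] at h
  rcases h with (h | h) | h
  · omega
  · omega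
  · exact h

def R12_b9n (p q r p' q' r' : ℕ) : Bool := decide (0 ≤ P8 9 p q r p' q' r')

theorem R12_c9n : R12_all 9 R12_b9n = true := by decide +kernel

theorem fin_9_nonneg (p q r p' q' r' : ℕ) (hx : p + q + r = 9) (hy : p' + q' + r' = 9)
    (hp : 1 ≤ p) (hp' : 1 ≤ p') : 0 ≤ P8 9 p q r p' q' r' := by
  have h := R12_spec R12_c9n hx hy hp hp'
  simp only [R12_b9n, decide_eq_true_eq] at h
  exact h

end Pool.Agent.MP5f
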