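import Mathlib
import Pool.Agent.MP_5f2667_co.Defs2

set_option autoImplicit false

open Finset

/-
Pure algebra (push_cast, field_simp, ring; min of casts: Nat.cast_min or max/min lemmas, note min(2a,2b) is not needed).
-/

namespace Pool.Agent.MP5f

theorem Ps_eq_P8 (N p q r p' q' r' : ℕ) (hN : N ≠ 0) :
    Ps N p q r p' q' r' = (P8 N p q r p' q' r' : ℝ) / (8 * N) := by
  have hN' : (N : ℝ) ≠ 0 := Nat.cast_ne_zero.2 hN
  unfold Ps P8 F8 Qe Fv
  push_cast
  field_simp
  ring

end Pool.Agent.MP5f
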