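import Mathlib
import Pool.Agent.MP_5f2667_co.Defs2

set_option autoImplicit false

open Finset

/-
Finite check (about 10^5 cases), decided by the kernel with a Boolean function on natural numbers, one lemma for each N.
-/

namespace Pool.Agent.MP5f

/-- bounded conjunction -/
def R11_all : ℕ → (ℕ → Bool) → Bool
  | 0, _ => true
  | n + 1, f => f n && R11_all n f

theorem R11_all_spec (n : ℕ) (f : ℕ → Bool) (h : R11_all n f = true) : ∀ i, i < n → f i = true := by
  induction n with
  | zero => intro i hi; omega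
  | succ n ih =>
    intro i hi
    rw [R11_all, Bool.and_eq_true] at h
    rcases Nat.lt_succ_iff_lt_or_eq.1 hi with h1 | h1
    · exact ih h.2 i h1
    · rw [h1]; exact h.1

def R11_min (a b : ℕ) : ℕ := cond (Nat.ble a b) a b

theorem R11_min_eq (a b : ℕ) : R11_min a b = min a b := by
  unfold R11_min
  cases h : Nat.ble a b with
  | true =>
    have h1 := Nat.le_of_ble_eq_true h
    simp [h1]
  | false =>
    have h1 : ¬ a ≤ b := fun h2 => by
      rw [Nat.ble_eq_true_of_le h2] at h
      exact Bool.noConfusion h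
    simp only [cond_false]
    omega

def R11_f (N q r q' r' p p' : ℕ) : Bool :=
  Nat.ble (12 * (N - 3) + 12 * N * N * (q + q' + (r + r')) + 12 * N * (R11_min q q' + R11_min r r')
    + 4 * (N - 9) * ((p * q + p * r + q * r) + (p' * q' + p' * r' + q' * r')))
   (2 * N * (4 * ((q + q') * (q + q') + (q + q') * (r + r') + (r + r') * (r + r')) + 3 * N * N) +
    2 * (N - 9) * N * N + 12 * (p * q * r + p' * q' * r')) ||
  (Nat.beq (q + r') 0 || Nat.beq (r + q') 0)

def R11_chk (N : ℕ) : Bool :=
  R11_all N fun q => R11_all (N - q) fun r => R11_all N fun q' => R11_all (N - q') fun r' =>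
    R11_f N q r q' r' (N - q - r) (N - q' - r')

theorem R11_sound (N p q r p' q' r' : ℕ) (h : R11_chk N = true) (h9 : 9 ≤ N) (hx : p + q + r = N)
    (hy : p' + q' + r' = N) (hp : 1 ≤ p) (hp' : 1 ≤ p') (hA : ¬ (q = 0 ∧ r' = 0))
    (hB : ¬ (r = 0 ∧ q' = 0)) : 12 * ((N : ℤ) - 3) ≤ P8 N p q r p' q' r' := by
  have h1 := R11_all_spec _ _ h q (by omega)
  have h2 := R11_all_spec _ _ h1 r (by omega)
  have h3 := R11_all_spec _ _ h2 q' (by omega)
  have h4 := R11_all_spec _ _ h3 r' (by omega)
  have e1 : N - q - r = p := by omega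
  have e2 : N - q' - r' = p' := by omega
  simp only [e1, e2] at h4
  unfold R11_f at h4
  rw [Bool.or_eq_true, Bool.or_eq_true] at h4
  rcases h4 with h4 | h4 | h4
  · have h5 := Nat.le_of_ble_eq_true h4
    rw [R11_min_eq, R11_min_eq] at h5
    obtain ⟨M, rfl⟩ : ∃ M, N = M + 9 := ⟨N - 9, by omega⟩
    have e3 : M + 9 - 3 = M + 6 := by omega
    have e4 : M + 9 - 9 = M := by omega
    rw [e3, e4] at h5
    have h6 : ((12 * (M + 6) + 12 * (M + 9) * (M + 9) * (q + q' + (r + r')) +
        12 * (M + 9) * (min q q' + min r r') +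
        4 * M * ((p * q + p * r + q * r) + (p' * q' + p' * r' + q' * r')) : ℕ) : ℤ) ≤
        ((2 * (M + 9) * (4 * ((q + q') * (q + q') + (q + q') * (r + r') + (r + r') * (r + r')) +
          3 * (M + 9) * (M + 9)) +
          2 * M * (M + 9) * (M + 9) + 12 * (p * q * r + p' * q' * r') : ℕ) : ℤ) := by
      exact_mod_cast h5
    push_cast at h6 ⊢
    have h7 : P8 ((M : ℤ) + 9) p q r p' q' r' =
        (2 * ((M : ℤ) + 9) * (4 * (((q : ℤ) + q') * (q + q') + (q + q') * (r + r') +
          (r + r') * (r + r')) + 3 * (M + 9) * (M + 9)) +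
          2 * M * (M + 9) * (M + 9) + 12 * (p * q * r + p' * q' * r')) -
        (12 * (M + 9) * (M + 9) * (q + q' + (r + r')) +
        12 * (M + 9) * (min (q : ℤ) q' + min (r : ℤ) r') +
        4 * M * ((p * q + p * r + q * r) + (p' * q' + p' * r' + q' * r'))) := by
      unfold P8 F8
      ring
    rw [h7]
    linarith
  · have h5 := Nat.eq_of_beq_eq_true h4
    exact absurd ⟨by omega, by omega⟩ hA
  · have h5 := Nat.eq_of_beq_eq_true h4
    exact absurd ⟨by omega, by omega⟩ hB

theorem R11_11 : R11_chk 11 = true := by decide +kernel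
theorem R11_12 : R11_chk 12 = true := by decide +kernel
theorem R11_13 : R11_chk 13 = true := by decide +kernel
theorem R11_14 : R11_chk 14 = true := by decide +kernel
theorem R11_15 : R11_chk 15 = true := by decide +kernel
theorem R11_16 : R11_chk 16 = true := by decide +kernel
theorem R11_17 : R11_chk 17 = true := by decide +kernel
theorem R11_18 : R11_chk 18 = true := by decide +kernel
theorem R11_19 : R11_chk 19 = true := by decide +kernel

/-- finite check, 9 parameters values `N = 11, ..., 19` -/
theorem fin_11_19 (N p q r p' q' r' : ℕ) (h1 : 11 ≤ N) (h2 : N ≤ 19) (hx : p + q + r = N)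
    (hy : p' + q' + r' = N) (hp : 1 ≤ p) (hp' : 1 ≤ p') (hA : ¬ (q = 0 ∧ r' = 0))
    (hB : ¬ (r = 0 ∧ q' = 0)) : 12 * ((N : ℤ) - 3) ≤ P8 N p q r p' q' r' := by
  have h : R11_chk N = true := by
    interval_cases N
    · exact R11_11
    · exact R11_12
    · exact R11_13
    · exact R11_14
    · exact R11_15
    · exact R11_16
    · exact R11_17
    · exact R11_18
    · exact R11_19
  exact R11_sound N p q r p' q' r' h (by omega) hx hy hp hp' hA hB

end Pool.Agent.MP5f
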