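import Mathlib
import Pool.Agent.MP_5f2667_co.Defs2

set_option autoImplicit false

open Finset

/-
Proofs (real numbers). Let s be the difference of the other two counts, g the designated count, N = g+b+d:
N^2/4 - e2 = s^2/4 - gN/2 + (3/4)g^2, e3 = g((N-g)^2-s^2)/4, so
Fv = s^2 (N-9-3g)/8 + g K(g), K(g) = N^2/8+9N/4-(3/8)gN-27g/8+(3/8)g^2   (ring identity, s = b-d).
Fv_ge_lin: |s| <= N-3g because b,d >= g; g <= N/3. g K(g)/N - g(N/24+9/8) = (3g/(8N)) (N/3-g)(2N/3+9-g) >= 0. If N-9-3g >= 0 the s^2 term is >= 0; otherwise with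
j = N-3g in [0,9): s^2 (9-j)/8 <= j^2(9-j)/8 <= 27/2 (maximum at j=6: 27/2 - j^2(9-j)/8 = (j-6)^2(j+3)/8 >= 0).
Fv_ge_large: designated count a >= N/2: coefficient (N-9-3a) < 0 and s^2 <= (N-a)^2, at s^2=(N-a)^2: Fv = (N-9)/2 (a-N/2)^2, and (N-9)/(2N) >= 11/40 for N >= 20.
Fv_nonneg: take the largest count a >= N/3 >= (N-9)/3: coefficient <= 0, s^2 <= (N-a)^2, so Fv >= (N-9)/2 (a-N/2)^2 >= 0.
Fv_net0: Fv N 0 b d = (N-9)/8 (b-d)^2. Fv_net: need g K(g)/N - (s^2 part) >= 3/2+3g/2. With D(g) = gK(g)/N - 3g/2 = g(N/24-3/8) + (3g/(8N))(N/3-g)(2N/3+9-g):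
g=1: D = N/8+3/8-3/N >= 2.7 and no correction is needed when 3g <= N-9 (then the s^2 term is >= 0); g=2,3,4: same formula, 3g<=12 vs N-9>=11: for g <= 3 no correction;
in general correction <= 27/(2N) <= 0.675. g >= 5: g(N/24-3/8) >= 5*11/24 = 2.29 >= 3/2+0.675. g=4: add (3*4/(8N))(N/3-4)(2N/3+5) >= ... D(4) >= 4. All with N >= 20. Checked numerically, minimum of
D - 0.675 is 2.05 at N=20.
-/

namespace Pool.Agent.MP5f

theorem R13_id (N g b d : ℝ) (hs : g + b + d = N) :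
    Fv N g b d = (b - d) ^ 2 * (N - 9 - 3 * g) / 8 + g * (N ^ 2 / 24 + 9 * N / 8)
      + 3 * g / 8 * ((N / 3 - g) * (2 * N / 3 + 9 - g)) := by
  subst hs
  unfold Fv
  ring

theorem R13_corr (N g b d : ℝ) (hN : 9 ≤ N) (hb : g ≤ b) (hd : g ≤ d)
    (hs : g + b + d = N) : -(27 / 2) ≤ (b - d) ^ 2 * (N - 9 - 3 * g) / 8 := by
  rcases le_or_gt 0 (N - 9 - 3 * g) with h | h
  · have h1 : 0 ≤ (b - d) ^ 2 * (N - 9 - 3 * g) / 8 := by positivity
    linarith
  · have hj : 0 ≤ N - 3 * g := by linarith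
    have h1 : (b - d) ^ 2 ≤ (N - 3 * g) ^ 2 := by
      apply sq_le_sq'
      · linarith
      · linarith
    have h2 : (b - d) ^ 2 * (9 + 3 * g - N) ≤ (N - 3 * g) ^ 2 * (9 + 3 * g - N) :=
      mul_le_mul_of_nonneg_right h1 (by linarith)
    have h3 : 0 ≤ (N - 3 * g - 6) ^ 2 * (N - 3 * g + 3) := by positivity
    nlinarith [h2, h3]

theorem R13_id2 (N a b d : ℝ) (hs : a + b + d = N) :
    Fv N a b d = (N - 9) / 2 * (a - N / 2) ^ 2
      + ((N - a) ^ 2 - (b - d) ^ 2) * (3 * a + 9 - N) / 8 := by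
  subst hs
  unfold Fv
  ring

theorem R13_sq (N a b d : ℝ) (hb : 0 ≤ b) (hd : 0 ≤ d)
    (hs : a + b + d = N) : 0 ≤ (N - a) ^ 2 - (b - d) ^ 2 := by
  have h : (b - d) ^ 2 ≤ (N - a) ^ 2 := by
    apply sq_le_sq'
    · linarith
    · linarith
  linarith

theorem R13_large (N a b d : ℝ) (hN : 9 ≤ N) (ha : N ≤ 3 * a + 9) (hb : 0 ≤ b) (hd : 0 ≤ d)
    (hs : a + b + d = N) : (N - 9) / 2 * (a - N / 2) ^ 2 ≤ Fv N a b d := by
  rw [R13_id2 N a b d hs]
  have h1 := R13_sq N a b d hb hd hs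
  have h2 : 0 ≤ 3 * a + 9 - N := by linarith
  have h3 : 0 ≤ ((N - a) ^ 2 - (b - d) ^ 2) * (3 * a + 9 - N) / 8 := by positivity
  linarith

theorem R13_nonneg (N a b d : ℝ) (hN : 9 ≤ N) (ha : N ≤ 3 * a + 9) (hb : 0 ≤ b) (hd : 0 ≤ d)
    (hs : a + b + d = N) : 0 ≤ Fv N a b d := by
  have h1 := R13_large N a b d hN ha hb hd hs
  have h2 : 0 ≤ (N - 9) / 2 * (a - N / 2) ^ 2 := by
    have : 0 ≤ N - 9 := by linarith
    positivity
  linarith

/-- vertex lemma: `g` is the least count -/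
theorem Fv_ge_lin (N g b d : ℝ) (hN : 20 ≤ N) (hg : 0 ≤ g) (hb : g ≤ b) (hd : g ≤ d)
    (hs : g + b + d = N) : g * (N / 24 + 9 / 8) - 27 / (2 * N) ≤ Fv N g b d / N := by
  have hN0 : 0 < N := by linarith
  rw [le_div_iff₀ hN0]
  have h1 : (g * (N / 24 + 9 / 8) - 27 / (2 * N)) * N
      = g * (N ^ 2 / 24 + 9 * N / 8) - 27 / 2 := by
    field_simp
  rw [h1, R13_id N g b d hs]
  have h2 := R13_corr N g b d (by linarith) hb hd hs
  have h3 : 0 ≤ N / 3 - g := by linarith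
  have h4 : 0 ≤ 2 * N / 3 + 9 - g := by linarith
  have h5 : 0 ≤ 3 * g / 8 * ((N / 3 - g) * (2 * N / 3 + 9 - g)) := by positivity
  linarith

/-- vertex lemma: large count -/
theorem Fv_ge_large (N a b d : ℝ) (hN : 20 ≤ N) (ha : N / 2 ≤ a) (hb : 0 ≤ b) (hd : 0 ≤ d)
    (hs : a + b + d = N) : 11 / 40 * (a - N / 2) ^ 2 ≤ Fv N a b d / N := by
  have hN0 : 0 < N := by linarith
  rw [le_div_iff₀ hN0]
  have h1 := R13_large N a b d (by linarith) (by linarith) hb hd hs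
  refine le_trans ?_ h1
  nlinarith [sq_nonneg (a - N / 2)]

theorem Fv_nonneg (N a b d : ℝ) (hN : 20 ≤ N) (ha : 0 ≤ a) (hb : 0 ≤ b) (hd : 0 ≤ d)
    (hs : a + b + d = N) : 0 ≤ Fv N a b d := by
  rcases le_or_gt N (3 * a + 9) with h | h
  · exact R13_nonneg N a b d (by linarith) h hb hd hs
  · rcases le_or_gt N (3 * b + 9) with h' | h'
    · have h1 := R13_nonneg N b a d (by linarith) h' ha hd (by linarith)
      have h2 : Fv N b a d = Fv N a b d := by unfold Fv; ring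
      linarith
    · have h1 := R13_nonneg N d a b (by linarith) (by linarith) ha hb (by linarith)
      have h2 : Fv N d a b = Fv N a b d := by unfold Fv; ring
      linarith

/-- vertex lemma: net of the rainbow charge -/
theorem Fv_net (N g b d : ℕ) (hN : 20 ≤ N) (hg : 1 ≤ g) (hb : g ≤ b) (hd : g ≤ d)
    (hs : g + b + d = N) : (3 : ℝ) / 2 + 3 / 2 * g ≤ Fv N g b d / N := by
  have hN' : (20 : ℝ) ≤ N := by exact_mod_cast hN
  have hN0 : (0 : ℝ) < N := by linarith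
  have hg' : (1 : ℝ) ≤ g := by exact_mod_cast hg
  have hb' : (g : ℝ) ≤ b := by exact_mod_cast hb
  have hd' : (g : ℝ) ≤ d := by exact_mod_cast hd
  have hs' : (g : ℝ) + b + d = N := by exact_mod_cast hs
  have h3 : (0 : ℝ) ≤ N / 3 - g := by linarith
  have h4 : (0 : ℝ) ≤ 2 * N / 3 + 9 - g := by linarith
  rw [le_div_iff₀ hN0, R13_id N g b d hs']
  rcases Nat.lt_or_ge N (3 * g + 9) with h | h
  · have h2 := R13_corr (N : ℝ) g b d (by linarith) hb' hd' hs'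
    have h5 : (0 : ℝ) ≤ 3 * g / 8 * ((N / 3 - g) * (2 * N / 3 + 9 - g)) := by positivity
    rcases Nat.lt_or_ge 4 g with h6 | h6
    · have h7 : (5 : ℝ) ≤ g := by exact_mod_cast h6
      nlinarith [mul_nonneg (sub_nonneg.mpr h7) (mul_nonneg hN0.le (sub_nonneg.mpr hN')),
        mul_nonneg hN0.le (sub_nonneg.mpr hN'), mul_nonneg (sub_nonneg.mpr h7) hN0.le]
    · have h8 : g = 4 := by omega
      have h9 : N = 20 := by omega
      subst h8
      subst h9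
      norm_num at h2 ⊢
      nlinarith [h2]
  · have h' : (3 : ℝ) * g + 9 ≤ N := by exact_mod_cast h
    have h5 : (0 : ℝ) ≤ ((b : ℝ) - d) ^ 2 * (N - 9 - 3 * g) / 8 := by
      have : (0 : ℝ) ≤ N - 9 - 3 * g := by linarith
      positivity
    rcases Nat.lt_or_ge 1 g with h6 | h6
    · have h7 : (2 : ℝ) ≤ g := by exact_mod_cast h6
      have h8 : 3 * ((N : ℝ) / 3 + 12) ≤ (N / 3 - g) * (2 * N / 3 + 9 - g) := by
        have h9 : (3 : ℝ) ≤ N / 3 - g := by linarith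
        have h10 : (N : ℝ) / 3 + 12 ≤ 2 * N / 3 + 9 - g := by linarith
        exact mul_le_mul h9 h10 (by linarith) (by linarith)
      have h11 : 3 * (g : ℝ) / 8 * (3 * ((N : ℝ) / 3 + 12)) ≤
          3 * g / 8 * ((N / 3 - g) * (2 * N / 3 + 9 - g)) :=
        mul_le_mul_of_nonneg_left h8 (by positivity)
      nlinarith [mul_nonneg (sub_nonneg.mpr h7) (mul_nonneg hN0.le (sub_nonneg.mpr hN')),
        mul_nonneg hN0.le (sub_nonneg.mpr hN'), mul_nonneg (sub_nonneg.mpr h7) hN0.le]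
    · have h8 : g = 1 := by omega
      subst h8
      norm_num
      norm_num at h5
      nlinarith [mul_nonneg hN0.le (sub_nonneg.mpr hN')]

/-- the same with `g = 0` -/
theorem Fv_net0 (N b d : ℝ) (hN : 20 ≤ N) (hb : 0 ≤ b) (hd : 0 ≤ d)
    (hs : b + d = N) : 0 ≤ Fv N 0 b d / N :=
  div_nonneg (Fv_nonneg N 0 b d hN le_rfl hb hd (by linarith)) (by linarith)

end Pool.Agent.MP5f
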