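import Mathlib
import Pool.Agent.MP_5f2667_co.R13

set_option autoImplicit false

open Finset

/-
Proofs. N >= 20. Write Q = Qe N q r q' r', a = q+q'-N/2, b = r+r'-N/2, so Q = a^2+ab+b^2, v = min q q' + min r r'.
caseA: Q >= 0, v <= q + r'. Ps >= (Fv_x/N - 3q/2) + (Fv_y/N - 3r'/2), by Fv_net (if the least count is >= 1: term >= 3/2) and Fv_net0 (if it is 0: term >= 0; Fv N 0 b d).
Fv is symmetric under permutations of the three counts (ring).
caseC: v <= (q+q')/2+(r+r')/2 = (a+b+N)/2, so Q - 3v/2 >= a^2+ab+b^2-(3/4)(a+b)-(3/4)N >= (3/4)a^2-(3/8)a-(3/4)N-9/64 (complete the square in b).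
Fv_x/N + Fv_y/N >= (q+q')(N/24+9/8) - 27/N (Fv_ge_lin at q and at q'). With w = N/2-(q+q') = -a: total >= (3/4)w^2 - w(N/24+3/4) + N^2/48+(3/8)N-(9/16)N-9/64-27/N
>= 35/1728 N^2 - (5/24) N - 21/64 - 27/N >= 3/2 for N >= 20 (value 2.256 at 20; 27/N <= 27/20).
caseB: p least at x, p <= N/3. Fv_x/N >= p(N/24+9/8) - 27/(2N). a+b = N-p-p', Q >= (3/4)(a+b)^2 = (3/4)(N-p-p')^2. v <= q+r = N-p and v <= q'+r' = N-p'.
 If p' <= N/2: let t = N-p-p' >= N/2-p =: s >= N/6; v <= (N+t)/2; Fv_y >= 0. Ps >= (3/4)t^2-(3/4)(N+t)+p(N/24+9/8)-27/(2N), increasing in t for t>=1/2, so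
 >= (3/4)s^2-(3/4)s-(3/4)N+(N/2-s)(N/24+9/8)-27/(2N), increasing in s for s >= N/6, so >= (5/144)N^2 - N/2 - 27/(2N) >= 3/2 (3.2 at N=20).
 If p' > N/2: z = p'-N/2, A = N/2-p >= N/6, v <= N/2-z, Fv_y/N >= 11/40 z^2 (Fv_ge_large): Ps >= (3/4)(A-z)^2-(3/2)(N/2-z)+(N/2-A)(N/24+9/8)-27/(2N)+(11/40)z^2
 >= (minimise over z: complete the square) 0.2012 A^2+1.0976 A-0.5488-(3/4)N+(N/2-A)(N/24+9/8)-27/(2N), increasing in A >= N/6, value at A=N/6, N=20: 2.7 >= 3/2.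
All bounds checked numerically for N = 20..200. nlinarith with the indicated squares.
-/

namespace Pool.Agent.MP5f

theorem R14_swap (N p q r : ℝ) : Fv N p q r = Fv N q p r := by
  unfold Fv
  ring

theorem R14_swap2 (N p q r : ℝ) : Fv N p q r = Fv N r p q := by
  unfold Fv
  ring

theorem R14_small (N : ℝ) (hN : 20 ≤ N) : 27 / (2 * N) ≤ 27 / 40 := by
  rw [div_le_div_iff₀ (by linarith) (by norm_num)]
  linarith

theorem R14_C (N u w : ℝ) (hN : 20 ≤ N) :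
    3 / 2 ≤ (u - N / 2) ^ 2 + (u - N / 2) * (w - N / 2) + (w - N / 2) ^ 2 - 3 / 4 * (u + w)
      + u * (N / 24 + 9 / 8) - 27 / 20 := by
  nlinarith [sq_nonneg ((w - N / 2) + (u - N / 2) / 2 - 3 / 8),
    sq_nonneg ((u - N / 2) + 2 / 3 * (N / 24 + 3 / 4)), mul_nonneg (sub_nonneg.2 hN)
      (sub_nonneg.2 hN)]

theorem R14_B1 (N p t : ℝ) (hN : 20 ≤ N) (hp : 3 * p ≤ N) (ht : N / 2 - p ≤ t) :
    3 / 2 ≤ 3 / 4 * t ^ 2 - 3 / 4 * (N + t) + p * (N / 24 + 9 / 8) - 27 / 40 := by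
  have h1 : 0 ≤ (t - (N / 2 - p)) * (t + (N / 2 - p) - 1) :=
    mul_nonneg (by linarith) (by linarith)
  have h2 : 0 ≤ (N / 2 - p - N / 6) * (3 / 4 * (N / 2 - p + N / 6) - 3 / 4 - N / 24 - 9 / 8) :=
    mul_nonneg (by linarith) (by linarith)
  nlinarith [mul_nonneg (sub_nonneg.2 hN) (sub_nonneg.2 hN)]

theorem R14_B2 (N A z : ℝ) (hN : 20 ≤ N) (hA : N / 6 ≤ A) :
    3 / 2 ≤ 3 / 4 * (A - z) ^ 2 - 3 / 2 * (N / 2 - z) + (N / 2 - A) * (N / 24 + 9 / 8) - 27 / 40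
      + 11 / 40 * z ^ 2 := by
  have h1 : 0 ≤ (A - N / 6) * (33 / 164 * (A + N / 6) + 90 / 82 - N / 24 - 9 / 8) :=
    mul_nonneg (by linarith) (by linarith)
  nlinarith [sq_nonneg (z - 30 / 41 * (A - 1)), mul_nonneg (sub_nonneg.2 hN) (sub_nonneg.2 hN)]

/-- case A: the colour `k+1` is least at both ends (and at least one end sees all colours) -/
theorem caseA (N p q r p' q' r' : ℕ) (hN : 20 ≤ N) (hx : p + q + r = N) (hy : p' + q' + r' = N)
    (h1 : q ≤ p) (h2 : q ≤ r) (h3 : r' ≤ p') (h4 : r' ≤ q') (h : 1 ≤ q ∨ 1 ≤ r') :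
    (3 : ℝ) / 2 ≤ Ps N p q r p' q' r' := by
  have hNr : (20 : ℝ) ≤ N := by exact_mod_cast hN
  have hQ : 0 ≤ Qe N q r q' r' := by
    unfold Qe
    nlinarith [sq_nonneg (((q : ℝ) + q' - N / 2) + ((r : ℝ) + r' - N / 2)),
      sq_nonneg ((q : ℝ) + q' - N / 2), sq_nonneg ((r : ℝ) + r' - N / 2)]
  have hm1 : min (q : ℝ) q' ≤ q := min_le_left _ _
  have hm2 : min (r : ℝ) r' ≤ r' := min_le_right _ _
  have hxq : 1 ≤ q → 3 / 2 + 3 / 2 * (q : ℝ) ≤ Fv N p q r / N := by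
    intro hq
    rw [R14_swap]
    exact Fv_net N q p r hN hq h1 h2 (by omega)
  have hxq0 : q = 0 → 0 ≤ Fv N p q r / (N : ℝ) := by
    intro hq
    rw [R14_swap, hq, Nat.cast_zero]
    apply Fv_net0 N p r hNr (Nat.cast_nonneg _) (Nat.cast_nonneg _)
    rw [← hx, hq]
    push_cast
    ring
  have hyr : 1 ≤ r' → 3 / 2 + 3 / 2 * (r' : ℝ) ≤ Fv N p' q' r' / N := by
    intro hr
    rw [R14_swap2]
    exact Fv_net N r' p' q' hN hr h3 h4 (by omega)
  have hyr0 : r' = 0 → 0 ≤ Fv N p' q' r' / (N : ℝ) := by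
    intro hr
    rw [R14_swap2, hr, Nat.cast_zero]
    apply Fv_net0 N p' q' hNr (Nat.cast_nonneg _) (Nat.cast_nonneg _)
    rw [← hy, hr]
    push_cast
    ring
  unfold Ps
  rw [add_div]
  rcases Nat.eq_zero_or_pos q with hq | hq
  · rcases Nat.eq_zero_or_pos r' with hr | hr
    · omega
    · have e1 := hxq0 hq
      have e2 := hyr hr
      have e3 : (q : ℝ) = 0 := by rw [hq, Nat.cast_zero]
      linarith
  · rcases Nat.eq_zero_or_pos r' with hr | hr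
    · have e1 := hxq hq
      have e2 := hyr0 hr
      have e3 : (r' : ℝ) = 0 := by rw [hr, Nat.cast_zero]
      linarith
    · have e1 := hxq hq
      have e2 := hyr hr
      linarith

/-- case B: the colour `k` of the edge is least at `x` -/
theorem caseB (N p q r p' q' r' : ℕ) (hN : 20 ≤ N) (hx : p + q + r = N) (hy : p' + q' + r' = N)
    (h1 : p ≤ q) (h2 : p ≤ r) (hp' : 1 ≤ p') :
    (3 : ℝ) / 2 ≤ Ps N p q r p' q' r' := by
  have hNr : (20 : ℝ) ≤ N := by exact_mod_cast hN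
  have hxr : (p : ℝ) + q + r = N := by exact_mod_cast hx
  have hyr : (p' : ℝ) + q' + r' = N := by exact_mod_cast hy
  have h1r : (p : ℝ) ≤ q := by exact_mod_cast h1
  have h2r : (p : ℝ) ≤ r := by exact_mod_cast h2
  have hX : (p : ℝ) * (N / 24 + 9 / 8) - 27 / (2 * N) ≤ Fv N p q r / N :=
    Fv_ge_lin N p q r hNr (Nat.cast_nonneg _) h1r h2r hxr
  have hs := R14_small N hNr
  have hQ : 3 / 4 * ((N : ℝ) - p - p') ^ 2 ≤ Qe N q r q' r' := by
    unfold Qe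
    have e : (N : ℝ) - p - p' = ((q : ℝ) + q' - N / 2) + ((r : ℝ) + r' - N / 2) := by linarith
    rw [e]
    nlinarith [sq_nonneg (((q : ℝ) + q' - N / 2) - ((r : ℝ) + r' - N / 2))]
  have hv1 : min (q : ℝ) q' + min (r : ℝ) r' ≤ N - p := by
    have := min_le_left (q : ℝ) q'
    have := min_le_left (r : ℝ) r'
    linarith
  have hv2 : min (q : ℝ) q' + min (r : ℝ) r' ≤ N - p' := by
    have := min_le_right (q : ℝ) q'
    have := min_le_right (r : ℝ) r'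
    linarith
  unfold Ps
  rw [add_div]
  rcases le_total (p' : ℝ) (N / 2) with hle | hle
  · have hY : 0 ≤ Fv N p' q' r' / (N : ℝ) :=
      div_nonneg (Fv_nonneg N p' q' r' hNr (Nat.cast_nonneg _) (Nat.cast_nonneg _)
        (Nat.cast_nonneg _) hyr) (by linarith)
    have h3 := R14_B1 N p ((N : ℝ) - p - p') hNr (by linarith) (by linarith)
    linarith
  · have hY := Fv_ge_large N p' q' r' hNr hle (Nat.cast_nonneg _) (Nat.cast_nonneg _) hyr
    have h3 := R14_B2 N (N / 2 - p) ((p' : ℝ) - N / 2) hNr (by linarith)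
    have e1 : ((N : ℝ) / 2 - p) - (p' - N / 2) = N - p - p' := by ring
    have e2 : (N : ℝ) / 2 - (p' - N / 2) = N - p' := by ring
    have e3 : (N : ℝ) / 2 - (N / 2 - p) = p := by ring
    rw [e1, e2, e3] at h3
    linarith

/-- case C: least colour `k+1` at `x`, `k+2` at `y` -/
theorem caseC (N p q r p' q' r' : ℕ) (hN : 20 ≤ N) (hx : p + q + r = N) (hy : p' + q' + r' = N)
    (h1 : q ≤ p) (h2 : q ≤ r) (h3 : q' ≤ p') (h4 : q' ≤ r') :
    (3 : ℝ) / 2 ≤ Ps N p q r p' q' r' := by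
  have hNr : (20 : ℝ) ≤ N := by exact_mod_cast hN
  have hxr : (p : ℝ) + q + r = N := by exact_mod_cast hx
  have hyr : (p' : ℝ) + q' + r' = N := by exact_mod_cast hy
  have h1r : (q : ℝ) ≤ p := by exact_mod_cast h1
  have h2r : (q : ℝ) ≤ r := by exact_mod_cast h2
  have h3r : (q' : ℝ) ≤ p' := by exact_mod_cast h3
  have h4r : (q' : ℝ) ≤ r' := by exact_mod_cast h4
  have hs := R14_small N hNr
  have hX : (q : ℝ) * (N / 24 + 9 / 8) - 27 / (2 * N) ≤ Fv N p q r / N := by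
    rw [R14_swap]
    exact Fv_ge_lin N q p r hNr (Nat.cast_nonneg _) h1r h2r (by linarith)
  have hY : (q' : ℝ) * (N / 24 + 9 / 8) - 27 / (2 * N) ≤ Fv N p' q' r' / N := by
    rw [R14_swap]
    exact Fv_ge_lin N q' p' r' hNr (Nat.cast_nonneg _) h3r h4r (by linarith)
  have hv1 : min (q : ℝ) q' ≤ (q + q') / 2 := by
    have := min_le_left (q : ℝ) q'
    have := min_le_right (q : ℝ) q'
    linarith
  have hv2 : min (r : ℝ) r' ≤ (r + r') / 2 := by
    have := min_le_left (r : ℝ) r'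
    have := min_le_right (r : ℝ) r'
    linarith
  have h3 := R14_C N ((q : ℝ) + q') ((r : ℝ) + r') hNr
  unfold Ps Qe
  rw [add_div]
  linarith

end Pool.Agent.MP5f
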