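import Mathlib
import Pool.Agent.MP_5f2667_co.R14

set_option autoImplicit false

open Finset

/-
Proofs. Ps_swap, Ps_mirror: ring-like, min_comm. big_full: choose a least colour at each end. If the colour k (count p or p') is least at x or y: caseB (swap if needed).
Else the least colours are among k+1,k+2: at x: q or r, at y: r' (colour k+1) or q' (colour k+2). Same colour k+1: caseA; same colour k+2: caseA after Ps_mirror;
different: caseC or its mirror image.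
-/

namespace Pool.Agent.MP5f

theorem Ps_swap (N p q r p' q' r' : ℝ) : Ps N p q r p' q' r' = Ps N p' q' r' p q r := by
  unfold Ps Qe
  rw [min_comm q' q, min_comm r' r]
  ring

theorem Ps_mirror (N p q r p' q' r' : ℝ) : Ps N p q r p' q' r' = Ps N p r q p' r' q' := by
  unfold Ps Qe Fv
  ring

theorem big_full (N p q r p' q' r' : ℕ) (hN : 20 ≤ N) (hx : p + q + r = N) (hy : p' + q' + r' = N)
    (hp : 1 ≤ p) (hp' : 1 ≤ p') (h : (1 ≤ q ∧ 1 ≤ r) ∨ (1 ≤ q' ∧ 1 ≤ r')) :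
    (3 : ℝ) / 2 ≤ Ps N p q r p' q' r' := by
  by_cases hx1 : p ≤ q ∧ p ≤ r
  · exact caseB N p q r p' q' r' hN hx hy hx1.1 hx1.2 hp'
  by_cases hy1 : p' ≤ q' ∧ p' ≤ r'
  · rw [Ps_swap]
    exact caseB N p' q' r' p q r hN hy hx hy1.1 hy1.2 hp
  have hx2 : (q ≤ p ∧ q ≤ r) ∨ (r ≤ p ∧ r ≤ q) := by omega
  have hy2 : (q' ≤ p' ∧ q' ≤ r') ∨ (r' ≤ p' ∧ r' ≤ q') := by omega
  rcases hx2 with hx2 | hx2 <;> rcases hy2 with hy2 | hy2
  · exact caseC N p q r p' q' r' hN hx hy hx2.1 hx2.2 hy2.1 hy2.2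
  · exact caseA N p q r p' q' r' hN hx hy hx2.1 hx2.2 hy2.1 hy2.2 (by omega)
  · rw [Ps_mirror]
    exact caseA N p r q p' r' q' hN (by omega) (by omega) hx2.1 hx2.2 hy2.1 hy2.2 (by omega)
  · rw [Ps_mirror]
    exact caseC N p r q p' r' q' hN (by omega) (by omega) hx2.1 hx2.2 hy2.1 hy2.2

end Pool.Agent.MP5f
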