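import Mathlib
import Pool.Agent.MP_5f2667_co.Defs2

set_option autoImplicit false

open Finset

/-
Proofs. Ps_cm: q=0,r'=0: min 0 q' = 0, min r 0 = 0. a = q'-N/2, b = r-N/2; with s = p-r, s' = p'-q': r=(N-s)/2, q'=(N-s')/2: Q = 1/4(s^2+s'^2+ss'), Fv N p 0 r = (N-9)/8 s^2.
Then (N-9)/(8N)+1/4 = (3N-9)/(8N).
Ps_diff: r=r'=0: a = q+q'-N/2, b=-N/2, v = min q q' <= (q+q')/2 = (a+N/2)/2, Fv >= 0. Q = a^2-aN/2+N^2/4. Q - (3/4)(a+N/2) >= (3/16)N^2-(9/16)N-9/64 >= (3N-9)/2 for N >= 9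
(complete the square in a at a = N/4+3/8; 3N^2-33N+69.75 >= 0 for N>=9).
-/

namespace Pool.Agent.MP5f

theorem Ps_cm (N p r p' q' : ℝ) (hN : N ≠ 0) (hx : p + r = N) (hy : p' + q' = N)
    (h0 : 0 ≤ r) (h1 : 0 ≤ q') :
    Ps N p 0 r p' q' 0 = (3 * N - 9) / (8 * N) * ((p - r) ^ 2 + (p' - q') ^ 2)
      + 1 / 4 * ((p - r) * (p' - q')) := by
  unfold Ps Qe Fv
  rw [min_eq_left h1, min_eq_right h0]
  obtain rfl : p = N - r := by linarith
  obtain rfl : p' = N - q' := by linarith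
  field_simp
  ring

theorem Ps_diff (N p q p' q' : ℝ) (hN : 9 ≤ N) (hx : p + q = N) (hy : p' + q' = N)
    (h0 : 0 ≤ q) (h1 : 0 ≤ q') :
    (3 * N - 9) / 2 ≤ Ps N p q 0 p' q' 0 := by
  have hF : ∀ a b : ℝ, a + b = N → 0 ≤ Fv N a b 0 := by
    intro a b hab
    unfold Fv
    have h2 : N ^ 2 / 4 - (a * b + a * 0 + b * 0) = (a - b) ^ 2 / 4 := by
      rw [← hab]; ring
    rw [h2]
    have : 0 ≤ (N - 9) / 2 := by linarith
    have h3 : 0 ≤ (a - b) ^ 2 / 4 := by positivity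
    nlinarith [mul_nonneg this h3]
  have hFF : 0 ≤ (Fv N p q 0 + Fv N p' q' 0) / N :=
    div_nonneg (add_nonneg (hF p q hx) (hF p' q' hy)) (by linarith)
  have hmin : min q q' ≤ (q + q') / 2 := by
    rcases le_total q q' with h | h
    · rw [min_eq_left h]; linarith
    · rw [min_eq_right h]; linarith
  unfold Ps Qe
  rw [min_self]
  nlinarith [sq_nonneg (q + q' - N / 2 - (N / 4 + 3 / 8)), mul_nonneg (sub_nonneg.2 hN) (sub_nonneg.2 hN), hFF, hmin]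

end Pool.Agent.MP5f
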