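import Mathlib
import Pool.Agent.MP_5f2667_co.R06
import Pool.Agent.MP_5f2667_co.R10
import Pool.Agent.MP_5f2667_co.R11
import Pool.Agent.MP_5f2667_co.R12
import Pool.Agent.MP_5f2667_co.R15
import Pool.Agent.MP_5f2667_co.R16

set_option autoImplicit false

open Finset

/-
Proofs. N = n-1 (cast: ((n:R)-1) = ((n-1 : N):R)). Counts at x: p = dg c x k, q = dg c x (k+1), r = dg c x (k+2) with p+q+r = N, p >= 1 (dg_pos, dg_sum'), at y: p' = dg c y k, q' = dg c y (k+2), r' = dg c y (k+1).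
PsC_cm: the missing colour is not k (dg_pos), so it is k+1 (q = 0, r' = 0): Ps_cm, or k+2 (r = 0, q' = 0): Ps_mirror and Ps_cm; sg in terms of the two other colours (sign common to both ends, squares and products do not depend on it).
PsC_ncm: 11 <= N <= 19: fin_11_19 + Ps_eq_P8. N >= 20: big_full if one end is Full (3/2 >= (3N-9)/(2N)), otherwise Ps_diff (or its mirror) ((3N-9)/2 >= (3N-9)/(2N)).
PsC_diff: both ends miss exactly... NCM and not Full: x misses k+1 or k+2, y misses a different one, so q = 0 and q' = 0 (x misses k+1, y misses k+2), or r = 0 and r' = 0; Ps_diff for r=r'=0 (and mirror).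
Note p,p' >= 1. PsC_nonneg: if not NCM: PsC_cm, the form is >= 0 because (3N-9)/(8N) >= 1/8; if NCM: N=9,10 from fin_9_nonneg, fin_10_nonneg; N >= 11 from PsC_ncm. PsC_symm: Ps_swap, c s(x,y) = c s(y,x).
-/

namespace Pool.Agent.MP5f

theorem r17_cases (a b : ZMod 3) (h : a ≠ b) : a = b + 1 ∨ a = b + 2 := by
  revert a b; decide

theorem r17_a (a : ZMod 3) : a + 1 + 1 = a + 2 := by revert a; decide
theorem r17_b (a : ZMod 3) : a + 1 + 2 = a := by revert a; decide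
theorem r17_c (a : ZMod 3) : a + 2 + 1 = a := by revert a; decide
theorem r17_d (a : ZMod 3) : a + 2 + 2 = a + 1 := by revert a; decide

theorem r17_sum {n : ℕ} (c : Sym2 (Fin n) → ZMod 3) (x : Fin n) (k : ZMod 3) :
    dg c x k + dg c x (k + 1) + dg c x (k + 2) = n - 1 := by
  have := dg_sum' c x k
  omega

theorem r17_sumR {n : ℕ} (c : Sym2 (Fin n) → ZMod 3) (x : Fin n) (k : ZMod 3) :
    (dg c x k : ℝ) + dg c x (k + 1) + dg c x (k + 2) = (n : ℝ) - 1 := by
  have := dg_sum' c x k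
  have h : (dg c x k : ℝ) + dg c x (k + 1) + dg c x (k + 2) + 1 = n := by exact_mod_cast this
  linarith

theorem PsC_cm {n : ℕ} (hn : 2 ≤ n) (c : Sym2 (Fin n) → ZMod 3) (x y : Fin n) (h : x ≠ y)
    (k : ZMod 3) (hx : dg c x k = 0) (hy : dg c y k = 0) :
    PsC c x y = (3 * (n : ℝ) - 12) / (8 * ((n : ℝ) - 1)) * ((sg c k x : ℝ) ^ 2 + (sg c k y : ℝ) ^ 2)
      + 1 / 4 * ((sg c k x : ℝ) * sg c k y) := by
  have hn' : (2 : ℝ) ≤ n := by exact_mod_cast hn
  have hp := dg_pos c x y h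
  have hk : k ≠ c s(x, y) := by
    rintro rfl
    omega
  have hsx := r17_sumR c x (c s(x, y))
  have hsy := r17_sumR c y (c s(x, y))
  have e0 : (3 * (n : ℝ) - 12) / (8 * ((n : ℝ) - 1)) =
      (3 * ((n : ℝ) - 1) - 9) / (8 * ((n : ℝ) - 1)) := by congr 1; ring
  rw [e0]
  rcases r17_cases k _ hk with rfl | rfl
  · unfold PsC sg
    rw [r17_a, r17_b]
    rw [hx] at hsx ⊢
    rw [hy] at hsy ⊢
    push_cast at hsx hsy ⊢
    rw [Ps_cm _ _ _ _ _ (by linarith) (by linarith) (by linarith) (Nat.cast_nonneg _)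
      (Nat.cast_nonneg _)]
    ring
  · unfold PsC sg
    rw [r17_c, r17_d]
    rw [hx] at hsx ⊢
    rw [hy] at hsy ⊢
    push_cast at hsx hsy ⊢
    rw [Ps_mirror, Ps_cm _ _ _ _ _ (by linarith) (by linarith) (by linarith) (Nat.cast_nonneg _)
      (Nat.cast_nonneg _)]

theorem r17_diff {n : ℕ} (hn : 10 ≤ n) (c : Sym2 (Fin n) → ZMod 3) (x y : Fin n) (h : x ≠ y)
    (h1 : (dg c x (c s(x, y) + 1) = 0 ∧ dg c y (c s(x, y) + 2) = 0) ∨
      (dg c x (c s(x, y) + 2) = 0 ∧ dg c y (c s(x, y) + 1) = 0)) :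
    (3 * (n : ℝ) - 12) / 2 ≤ PsC c x y := by
  have hn' : (10 : ℝ) ≤ n := by exact_mod_cast hn
  have hsx := r17_sumR c x (c s(x, y))
  have hsy := r17_sumR c y (c s(x, y))
  have e0 : (3 * (n : ℝ) - 12) / 2 = (3 * ((n : ℝ) - 1) - 9) / 2 := by congr 1; ring
  rw [e0]
  unfold PsC
  rcases h1 with ⟨h1, h2⟩ | ⟨h1, h2⟩
  · rw [h1] at hsx ⊢
    rw [h2] at hsy ⊢
    push_cast at hsx hsy ⊢
    rw [Ps_mirror]
    exact Ps_diff _ _ _ _ _ (by linarith) (by linarith) (by linarith) (Nat.cast_nonneg _)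
      (Nat.cast_nonneg _)
  · rw [h1] at hsx ⊢
    rw [h2] at hsy ⊢
    push_cast at hsx hsy ⊢
    exact Ps_diff _ _ _ _ _ (by linarith) (by linarith) (by linarith) (Nat.cast_nonneg _)
      (Nat.cast_nonneg _)

theorem PsC_ncm {n : ℕ} (hn : 12 ≤ n) (c : Sym2 (Fin n) → ZMod 3) (x y : Fin n) (h : x ≠ y)
    (hm : NCM c x y) : (3 * (n : ℝ) - 12) / (2 * ((n : ℝ) - 1)) ≤ PsC c x y := by
  obtain ⟨N, rfl⟩ : ∃ N, n = N + 1 := ⟨n - 1, by omega⟩
  have hN : 11 ≤ N := by omega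
  have hNr : (11 : ℝ) ≤ N := by exact_mod_cast hN
  have hp := dg_pos c x y h
  have hsx := r17_sum c x (c s(x, y))
  have hsy := r17_sum c y (c s(x, y))
  rw [Nat.add_sub_cancel] at hsx hsy
  have hA := hm (c s(x, y) + 1)
  have hB := hm (c s(x, y) + 2)
  have ecast : (((N + 1 : ℕ) : ℝ) - 1) = (N : ℝ) := by push_cast; ring
  have e0 : (3 * ((N + 1 : ℕ) : ℝ) - 12) / (2 * (((N + 1 : ℕ) : ℝ) - 1)) =
      (3 * (N : ℝ) - 9) / (2 * N) := by
    rw [ecast]; push_cast; congr 1; ring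
  rw [e0]
  by_cases h19 : N ≤ 19
  · unfold PsC
    rw [ecast, Ps_eq_P8 _ _ _ _ _ _ _ (by omega)]
    have h1 := fin_11_19 N (dg c x (c s(x, y))) (dg c x (c s(x, y) + 1)) (dg c x (c s(x, y) + 2))
      (dg c y (c s(x, y))) (dg c y (c s(x, y) + 2)) (dg c y (c s(x, y) + 1)) hN h19 hsx
      (by omega) hp.1 hp.2 hA hB
    have h2 : ((12 * ((N : ℤ) - 3) : ℤ) : ℝ) ≤ (P8 N (dg c x (c s(x, y)))
      (dg c x (c s(x, y) + 1)) (dg c x (c s(x, y) + 2))
      (dg c y (c s(x, y))) (dg c y (c s(x, y) + 2)) (dg c y (c s(x, y) + 1)) : ℝ) := by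
      exact_mod_cast h1
    have e1 : (3 * (N : ℝ) - 9) / (2 * N) = ((12 * ((N : ℤ) - 3) : ℤ) : ℝ) / (8 * N) := by
      push_cast
      field_simp
      ring
    rw [e1]
    gcongr
  · have h20 : 20 ≤ N := by omega
    by_cases hf : (1 ≤ dg c x (c s(x, y) + 1) ∧ 1 ≤ dg c x (c s(x, y) + 2)) ∨
        (1 ≤ dg c y (c s(x, y) + 2) ∧ 1 ≤ dg c y (c s(x, y) + 1))
    · have h1 := big_full N (dg c x (c s(x, y))) (dg c x (c s(x, y) + 1)) (dg c x (c s(x, y) + 2))
        (dg c y (c s(x, y))) (dg c y (c s(x, y) + 2)) (dg c y (c s(x, y) + 1)) h20 hsx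
        (by omega) hp.1 hp.2 hf
      unfold PsC
      rw [ecast]
      refine le_trans ?_ h1
      rw [div_le_iff₀ (by positivity)]
      linarith
    · have h1 := r17_diff (by omega) c x y h (by omega)
      refine le_trans ?_ h1
      have e2 : (3 * ((N + 1 : ℕ) : ℝ) - 12) / 2 = (3 * (N : ℝ) - 9) / 2 := by
        push_cast; congr 1; ring
      rw [e2]
      apply div_le_div_of_nonneg_left (by linarith) (by norm_num)
      linarith

theorem PsC_diff {n : ℕ} (hn : 10 ≤ n) (c : Sym2 (Fin n) → ZMod 3) (x y : Fin n) (h : x ≠ y)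
    (hm : NCM c x y) (hx : ¬ Full c x) (hy : ¬ Full c y) : (3 * (n : ℝ) - 12) / 2 ≤ PsC c x y := by
  apply r17_diff hn c x y h
  have hp := dg_pos c x y h
  have hA := hm (c s(x, y) + 1)
  have hB := hm (c s(x, y) + 2)
  unfold Full at hx hy
  push Not at hx hy
  obtain ⟨k, hk⟩ := hx
  obtain ⟨l, hl⟩ := hy
  have hk0 : k ≠ c s(x, y) := by rintro rfl; omega
  have hl0 : l ≠ c s(x, y) := by rintro rfl; omega
  rcases r17_cases k _ hk0 with rfl | rfl <;> rcases r17_cases l _ hl0 with rfl | rfl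
  · exact absurd ⟨hk, hl⟩ hA
  · exact Or.inl ⟨hk, hl⟩
  · exact Or.inr ⟨hk, hl⟩
  · exact absurd ⟨hk, hl⟩ hB

theorem PsC_nonneg {n : ℕ} (hn : 10 ≤ n) (c : Sym2 (Fin n) → ZMod 3) (x y : Fin n) (h : x ≠ y) :
    0 ≤ PsC c x y := by
  have hn' : (10 : ℝ) ≤ n := by exact_mod_cast hn
  by_cases hm : NCM c x y
  · have hp := dg_pos c x y h
    have hsx := r17_sum c x (c s(x, y))
    have hsy := r17_sum c y (c s(x, y))
    rcases Nat.lt_or_ge n 12 with h12 | h12
    · obtain ⟨N, rfl⟩ : ∃ N, n = N + 1 := ⟨n - 1, by omega⟩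
      rw [Nat.add_sub_cancel] at hsx hsy
      have ecast : (((N + 1 : ℕ) : ℝ) - 1) = (N : ℝ) := by push_cast; ring
      unfold PsC
      rw [ecast, Ps_eq_P8 _ _ _ _ _ _ _ (by omega)]
      apply div_nonneg _ (by positivity)
      have h9 : N = 9 ∨ N = 10 := by omega
      rcases h9 with rfl | rfl
      · have := fin_9_nonneg (dg c x (c s(x, y))) (dg c x (c s(x, y) + 1))
          (dg c x (c s(x, y) + 2)) (dg c y (c s(x, y))) (dg c y (c s(x, y) + 2))
          (dg c y (c s(x, y) + 1)) hsx (by omega) hp.1 hp.2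
        exact_mod_cast this
      · have := fin_10_nonneg (dg c x (c s(x, y))) (dg c x (c s(x, y) + 1))
          (dg c x (c s(x, y) + 2)) (dg c y (c s(x, y))) (dg c y (c s(x, y) + 2))
          (dg c y (c s(x, y) + 1)) hsx (by omega) hp.1 hp.2
        exact_mod_cast this
    · refine le_trans ?_ (PsC_ncm h12 c x y h hm)
      apply div_nonneg <;> linarith
  · unfold NCM at hm
    push Not at hm
    obtain ⟨k, hk1, hk2⟩ := hm
    rw [PsC_cm (by omega) c x y h k hk1 hk2]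
    have h1 : (1 : ℝ) / 8 ≤ (3 * (n : ℝ) - 12) / (8 * ((n : ℝ) - 1)) := by
      rw [div_le_div_iff₀ (by norm_num) (by linarith)]
      linarith
    have h2 : 0 ≤ (sg c k x : ℝ) ^ 2 + (sg c k y : ℝ) ^ 2 := by positivity
    nlinarith [sq_nonneg ((sg c k x : ℝ) + sg c k y), mul_le_mul_of_nonneg_right h1 h2]

theorem PsC_symm {n : ℕ} (c : Sym2 (Fin n) → ZMod 3) (x y : Fin n) : PsC c x y = PsC c y x := by
  unfold PsC
  rw [Sym2.eq_swap (a := y) (b := x), Ps_swap, Ps_mirror]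

end Pool.Agent.MP5f
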