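import Mathlib
import Pool.Agent.MP_5f2667_co.R06
import Pool.Agent.MP_5f2667_co.R17

set_option autoImplicit false

open Finset

/-
Proof. N = n-1 odd. kappa = (3N-9)/(8N) = (3n-12)/(8(n-1)), kappa >= 1/6 for N>=9. Give every vertex which is not Full a label = a missing colour (for instance the least one in the order 0,1,2). G_k = vertices with label k, g_k its size.
Pairs inside G_k: PsC_cm: kappa(s_x^2+s_y^2)+s_x s_y/4 with s = sg c k; s is odd (dg(k+1)+dg(k+2) = N odd) so s^2 >= 1. Ordered sum inside G_k = 2 kappa (g_k-1) S_k + 1/4((sum s)^2 - S_k), S_k = sum s^2 over G_k,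
>= g_k(2 kappa (g_k-1) - 1/4): for g_k >= 2 use S_k >= g_k and 2 kappa(g_k-1) >= 2*kappa >= 1/4 (kappa >= 1/8), for g_k <= 1 direct.
All other ordered pairs (x,y): if NCM: >= 2 kappa + phi x y + phi y x (h2). If not NCM (common missing colour but different labels): one of the ends misses two colours, so |s| = N for it; with the common missing colour
PsC = kappa(s^2+s'^2)+ss'/4 >= (1/2) kappa N^2 >= 2 kappa (use kappa>=1/8... : kappa(s^2+s'^2)+ss'/4 >= (kappa-1/8)(s^2+s'^2) >= (kappa - 1/8)N^2, and kappa-1/8 = (2N-9)/(8N); (2N-9)N/8 >= (3N-9)/(4N) fine for N >= 9).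
and phi = 0 there. Sum: ordered total >= sum_k g_k(2 kappa(g_k-1) - 1/4) + 2 kappa (n(n-1) - sum g_k(g_k-1)) + 2*(sum of phi) >= 2 kappa n N - n/4 = n(3N-9)/4 - n/4 = n(3N-10)/4 = n(3n-13)/4.
(the sum of phi x y + phi y x over all ordered pairs = 2 sum_x sum_y phi x y >= 0; phi = 0 inside G_k pairs because they are not NCM.)
-/

namespace Pool.Agent.MP5f

theorem R18_pairs {ι : Type*} [DecidableEq ι] (G : Finset ι) (s : ι → ℝ) (κ : ℝ)
    (hκ : 1 / 8 ≤ κ) (hs : ∀ x ∈ G, 1 ≤ s x ^ 2) :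
    -(G.card : ℝ) / 4 ≤ ∑ x ∈ G, ∑ y ∈ G.erase x,
      (κ * (s x ^ 2 + s y ^ 2) + 1 / 4 * (s x * s y) - 2 * κ) := by
  rcases Nat.lt_or_ge G.card 2 with hg | hg
  · have h0 : ∀ x ∈ G, G.erase x = ∅ := by
      intro x hx
      rw [← Finset.card_eq_zero, Finset.card_erase_of_mem hx]
      omega
    rw [Finset.sum_eq_zero]
    · have := Nat.cast_nonneg (α := ℝ) G.card
      linarith
    · intro x hx
      rw [h0 x hx, Finset.sum_empty]
  · have h1 : ∀ x ∈ G, ∑ y ∈ G.erase x,
        (κ * (s x ^ 2 + s y ^ 2) + 1 / 4 * (s x * s y) - 2 * κ) =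
        κ * ∑ y ∈ G, s y ^ 2 + (κ * G.card - 2 * κ - 1 / 4) * s x ^ 2
          + 1 / 4 * (∑ y ∈ G, s y) * s x + (2 * κ - 2 * κ * G.card) := by
      intro x hx
      rw [Finset.sum_erase_eq_sub hx, Finset.sum_sub_distrib, Finset.sum_add_distrib,
        ← Finset.mul_sum, Finset.sum_add_distrib, ← Finset.mul_sum, ← Finset.mul_sum,
        Finset.sum_const, Finset.sum_const, nsmul_eq_mul, nsmul_eq_mul]
      ring
    have h1' : ∑ x ∈ G, ∑ y ∈ G.erase x,
        (κ * (s x ^ 2 + s y ^ 2) + 1 / 4 * (s x * s y) - 2 * κ) =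
        G.card * (κ * ∑ y ∈ G, s y ^ 2) + (κ * G.card - 2 * κ - 1 / 4) * ∑ y ∈ G, s y ^ 2
          + 1 / 4 * (∑ y ∈ G, s y) * (∑ y ∈ G, s y) + G.card * (2 * κ - 2 * κ * G.card) := by
      rw [Finset.sum_congr rfl h1]
      simp only [Finset.sum_add_distrib, ← Finset.mul_sum, Finset.sum_const, nsmul_eq_mul]
      ring
    rw [h1']
    have hS : (G.card : ℝ) ≤ ∑ y ∈ G, s y ^ 2 := by
      have : ∑ _y ∈ G, (1 : ℝ) ≤ ∑ y ∈ G, s y ^ 2 := Finset.sum_le_sum hs
      rwa [Finset.sum_const, nsmul_eq_mul, mul_one] at this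
    have hg' : (2 : ℝ) ≤ G.card := by exact_mod_cast hg
    have h2 : 0 ≤ ((G.card : ℝ) - 2) * (∑ y ∈ G, s y ^ 2 - G.card) :=
      mul_nonneg (by linarith) (by linarith)
    have h3 : 0 ≤ (κ - 1 / 8) * (((G.card : ℝ) - 1) * (∑ y ∈ G, s y ^ 2 - G.card)) :=
      mul_nonneg (by linarith) (mul_nonneg (by linarith) (by linarith))
    nlinarith [sq_nonneg (∑ y ∈ G, s y)]

theorem R18_third (a b : ZMod 3) (h : a ≠ b) : b = a + 1 ∨ b = a + 2 := by
  revert a b
  decide

/-- if `x` misses the colour `k` and another one then `sg c k x = ± (n - 1)` -/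
theorem R18_two {n : ℕ} (c : Sym2 (Fin n) → ZMod 3) (x : Fin n) (k l : ZMod 3) (hkl : k ≠ l)
    (hk : dg c x k = 0) (hl : dg c x l = 0) : (sg c k x : ℝ) ^ 2 = ((n : ℝ) - 1) ^ 2 := by
  have h1 := dg_sum' c x k
  have hn : (n : ℝ) - 1 = (dg c x (k + 1) : ℝ) + dg c x (k + 2) := by
    have h2 : (dg c x k : ℝ) + dg c x (k + 1) + dg c x (k + 2) + 1 = n := by exact_mod_cast h1
    have h3 : (dg c x k : ℝ) = 0 := by rw [hk, Nat.cast_zero]
    linarith
  rw [hn, sg]
  push_cast
  rcases R18_third k l hkl with h | h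
  · rw [h] at hl
    rw [hl]
    push_cast
    ring
  · rw [h] at hl
    rw [hl]
    push_cast
    ring

theorem R18_odd {n : ℕ} (he : Even n) (c : Sym2 (Fin n) → ZMod 3) (x : Fin n) (k : ZMod 3)
    (hk : dg c x k = 0) : (1 : ℝ) ≤ (sg c k x : ℝ) ^ 2 := by
  have h1 := dg_sum' c x k
  obtain ⟨m, hm⟩ := he
  have h2 : sg c k x ≠ 0 := by
    intro h
    rw [sg] at h
    omega
  have h3 : (1 : ℤ) ≤ (sg c k x) ^ 2 := by
    have := pow_pos (abs_pos.2 h2) 2
    rw [sq_abs] at this
    omega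
  exact_mod_cast h3

theorem R18_ncm_symm {n : ℕ} {c : Sym2 (Fin n) → ZMod 3} {x y : Fin n} (h : NCM c x y) :
    NCM c y x := fun k hk => h k ⟨hk.2, hk.1⟩

/-- assembly for even `n`: `phi` is a correction which vanishes on pairs with a common missing
colour and has nonnegative sum at every vertex -/
theorem even_assembly {n : ℕ} (hn : 10 ≤ n) (he : Even n) (c : Sym2 (Fin n) → ZMod 3)
    (phi : Fin n → Fin n → ℝ) (h0 : ∀ x, 0 ≤ ∑ y ∈ univ.erase x, phi x y)
    (h1 : ∀ x y, x ≠ y → ¬ NCM c x y → phi x y = 0)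
    (h2 : ∀ x y, x ≠ y → NCM c x y →
      (3 * (n : ℝ) - 12) / (4 * ((n : ℝ) - 1)) + phi x y + phi y x ≤ PsC c x y) :
    (n : ℝ) * (3 * n - 13) / 4 ≤ ∑ x : Fin n, ∑ y ∈ univ.erase x, PsC c x y := by
  classical
  have hnr : (10 : ℝ) ≤ n := by exact_mod_cast hn
  have hn1 : (0 : ℝ) < (n : ℝ) - 1 := by linarith
  obtain ⟨κ, hκdef⟩ : ∃ κ : ℝ, κ = (3 * (n : ℝ) - 12) / (8 * ((n : ℝ) - 1)) := ⟨_, rfl⟩
  have hκN : κ * (8 * ((n : ℝ) - 1)) = 3 * (n : ℝ) - 12 := by
    rw [hκdef]
    field_simp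
  have h2κ : (3 * (n : ℝ) - 12) / (4 * ((n : ℝ) - 1)) = 2 * κ := by
    rw [hκdef]
    field_simp
    ring
  have hκ8 : 1 / 8 ≤ κ := by
    rw [hκdef, div_le_div_iff₀ (by norm_num) (by linarith)]
    linarith
  have hκ1 : κ ≤ 3 / 8 := by
    rw [hκdef, div_le_div_iff₀ (by linarith) (by norm_num)]
    linarith
  -- labels
  have hlab : ∀ x, ∃ k, ¬ Full c x → dg c x k = 0 := by
    intro x
    by_cases h : Full c x
    · exact ⟨0, fun h' => absurd h h'⟩
    · rw [Full] at h
      push Not at h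
      obtain ⟨k, hk⟩ := h
      exact ⟨k, fun _ => hk⟩
  choose lab hlab using hlab
  set sl : Fin n → ℝ := fun x => (sg c (lab x) x : ℝ) with hsl
  set D : Fin n → Fin n → ℝ := fun x y =>
    if ¬ Full c x ∧ ¬ Full c y ∧ lab x = lab y then
      κ * (sl x ^ 2 + sl y ^ 2) + 1 / 4 * (sl x * sl y) - 2 * κ else 0 with hD
  have hpt : ∀ x y, x ≠ y → 2 * κ + phi x y + phi y x + D x y ≤ PsC c x y := by
    intro x y hxy
    by_cases h : ¬ Full c x ∧ ¬ Full c y ∧ lab x = lab y
    · have hx := hlab x h.1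
      have hy := hlab y h.2.1
      rw [← h.2.2] at hy
      have hm : ¬ NCM c x y := fun hm => hm (lab x) ⟨hx, hy⟩
      have e1 := h1 x y hxy hm
      have e2 := h1 y x hxy.symm (fun h => hm (R18_ncm_symm h))
      have e3 := PsC_cm (by omega) c x y hxy (lab x) hx hy
      rw [← hκdef] at e3
      have e4 : D x y = κ * (sl x ^ 2 + sl y ^ 2) + 1 / 4 * (sl x * sl y) - 2 * κ := by
        simp only [hD]
        rw [if_pos h]
      have e5 : sl y = (sg c (lab x) y : ℝ) := by
        simp only [hsl]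
        rw [h.2.2]
      rw [e1, e2, e4, e3, e5]
      simp only [hsl]
      linarith
    · have e4 : D x y = 0 := by
        simp only [hD]
        rw [if_neg h]
      rw [e4, add_zero]
      by_cases hm : NCM c x y
      · have := h2 x y hxy hm
        rw [h2κ] at this
        exact this
      · have e1 := h1 x y hxy hm
        have e2 := h1 y x hxy.symm (fun h => hm (R18_ncm_symm h))
        rw [e1, e2, add_zero, add_zero]
        have hm' := hm
        rw [NCM] at hm'
        push Not at hm'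
        obtain ⟨k, hkx, hky⟩ := hm'
        have hfx : ¬ Full c x := fun hf => hf k hkx
        have hfy : ¬ Full c y := fun hf => hf k hky
        have hne : lab x ≠ lab y := fun h' => h ⟨hfx, hfy, h'⟩
        have e3 := PsC_cm (by omega) c x y hxy k hkx hky
        rw [← hκdef] at e3
        have hkey : ((n : ℝ) - 1) ^ 2 ≤ (sg c k x : ℝ) ^ 2 + (sg c k y : ℝ) ^ 2 := by
          by_cases hk : k = lab x
          · have hk' : k ≠ lab y := fun h' => hne (hk ▸ h')
            have := R18_two c y k (lab y) hk' hky (hlab y hfy)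
            rw [this]
            have := sq_nonneg (sg c k x : ℝ)
            linarith
          · have := R18_two c x k (lab x) hk hkx (hlab x hfx)
            rw [this]
            have := sq_nonneg (sg c k y : ℝ)
            linarith
        rw [e3]
        have e6 : (κ - 1 / 8) * ((n : ℝ) - 1) ^ 2 ≤
            (κ - 1 / 8) * ((sg c k x : ℝ) ^ 2 + (sg c k y : ℝ) ^ 2) :=
          mul_le_mul_of_nonneg_left hkey (by linarith)
        have e7 : (κ - 1 / 8) * ((n : ℝ) - 1) ^ 2 = (2 * (n : ℝ) - 11) * ((n : ℝ) - 1) / 8 := by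
          have : (κ - 1 / 8) * ((n : ℝ) - 1) ^ 2 =
            (κ * (8 * ((n : ℝ) - 1)) - ((n : ℝ) - 1)) * ((n : ℝ) - 1) / 8 := by ring
          rw [this, hκN]
          ring
        have e8 : (1 : ℝ) ≤ (2 * (n : ℝ) - 11) * ((n : ℝ) - 1) / 8 := by
          nlinarith
        nlinarith [sq_nonneg ((sg c k x : ℝ) + sg c k y)]
  -- sum of the pointwise bounds
  have hsum : ∑ x : Fin n, ∑ y ∈ univ.erase x, (2 * κ + phi x y + phi y x + D x y) ≤
      ∑ x : Fin n, ∑ y ∈ univ.erase x, PsC c x y := by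
    refine Finset.sum_le_sum fun x _ => Finset.sum_le_sum fun y hy => ?_
    exact hpt x y (Finset.ne_of_mem_erase hy).symm
  refine le_trans ?_ hsum
  have hsplit : ∑ x : Fin n, ∑ y ∈ univ.erase x, (2 * κ + phi x y + phi y x + D x y) =
      2 * κ * (n * (n - 1)) + ∑ x : Fin n, ∑ y ∈ univ.erase x, phi x y
        + ∑ x : Fin n, ∑ y ∈ univ.erase x, phi y x + ∑ x : Fin n, ∑ y ∈ univ.erase x, D x y := by
    simp only [Finset.sum_add_distrib]
    congr 3
    have : ∀ x : Fin n, ∑ _y ∈ univ.erase x, 2 * κ = (n - 1) * (2 * κ) := by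
      intro x
      rw [Finset.sum_const, Finset.card_erase_of_mem (Finset.mem_univ _), Finset.card_univ,
        Fintype.card_fin, nsmul_eq_mul, Nat.cast_sub (by omega)]
      push_cast
      ring
    rw [Finset.sum_congr rfl fun x _ => this x, Finset.sum_const, Finset.card_univ,
      Fintype.card_fin, nsmul_eq_mul]
    ring
  have hphi1 : 0 ≤ ∑ x : Fin n, ∑ y ∈ univ.erase x, phi x y :=
    Finset.sum_nonneg fun x _ => h0 x
  have hphi2 : ∑ x : Fin n, ∑ y ∈ univ.erase x, phi y x =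
      ∑ x : Fin n, ∑ y ∈ univ.erase x, phi x y := by
    rw [Finset.sum_comm' (t' := univ) (s' := fun y => univ.erase y)]
    intro x y
    simp only [Finset.mem_univ, Finset.mem_erase, true_and, and_true]
    exact ne_comm
  -- the label classes
  set G : ZMod 3 → Finset (Fin n) := fun k => univ.filter fun x => ¬ Full c x ∧ lab x = k with hG
  have hDsum : ∑ x : Fin n, ∑ y ∈ univ.erase x, D x y = ∑ k : ZMod 3, ∑ x ∈ G k,
      ∑ y ∈ (G k).erase x, (κ * (sl x ^ 2 + sl y ^ 2) + 1 / 4 * (sl x * sl y) - 2 * κ) := by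
    have e1 : ∀ k : ZMod 3, ∑ x ∈ G k, ∑ y ∈ (G k).erase x,
        (κ * (sl x ^ 2 + sl y ^ 2) + 1 / 4 * (sl x * sl y) - 2 * κ) =
        ∑ x : Fin n, ∑ y ∈ univ.erase x, if x ∈ G k ∧ y ∈ G k then
          (κ * (sl x ^ 2 + sl y ^ 2) + 1 / 4 * (sl x * sl y) - 2 * κ) else 0 := by
      intro k
      have e2 : ∀ x, ∑ y ∈ univ.erase x, (if x ∈ G k ∧ y ∈ G k then
          (κ * (sl x ^ 2 + sl y ^ 2) + 1 / 4 * (sl x * sl y) - 2 * κ) else 0) =
          if x ∈ G k then ∑ y ∈ (G k).erase x,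
            (κ * (sl x ^ 2 + sl y ^ 2) + 1 / 4 * (sl x * sl y) - 2 * κ) else 0 := by
        intro x
        by_cases hx : x ∈ G k
        · rw [if_pos hx]
          simp only [hx, true_and]
          rw [← Finset.sum_filter]
          congr 1
          ext y
          simp only [Finset.mem_filter, Finset.mem_erase, Finset.mem_univ, and_true]
        · rw [if_neg hx]
          simp only [hx, false_and, if_false]
          exact Finset.sum_const_zero
      rw [Finset.sum_congr rfl fun x _ => e2 x, Finset.sum_ite_mem, Finset.univ_inter]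
    rw [Finset.sum_congr rfl fun k _ => e1 k, Finset.sum_comm]
    refine Finset.sum_congr rfl fun x _ => ?_
    rw [Finset.sum_comm]
    refine Finset.sum_congr rfl fun y _ => ?_
    simp only [hD, hG, Finset.mem_filter, Finset.mem_univ, true_and]
    by_cases h : ¬ Full c x ∧ ¬ Full c y ∧ lab x = lab y
    · rw [if_pos h, Finset.sum_eq_single (lab x)]
      · rw [if_pos ⟨⟨h.1, rfl⟩, h.2.1, h.2.2.symm⟩]
      · intro k _ hk
        rw [if_neg]
        rintro ⟨⟨-, h'⟩, -⟩
        exact hk h'.symm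
      · intro h'
        exact absurd (Finset.mem_univ _) h'
    · rw [if_neg h, Finset.sum_eq_zero]
      intro k _
      rw [if_neg]
      rintro ⟨⟨ha, hb⟩, hc, hd⟩
      exact h ⟨ha, hc, hb.trans hd.symm⟩
  have hcard : ∑ k : ZMod 3, ((G k).card : ℝ) ≤ n := by
    have e1 : ∑ k : ZMod 3, (G k).card ≤ n := by
      calc ∑ k : ZMod 3, (G k).card = ∑ k : ZMod 3, ∑ x : Fin n,
            if ¬ Full c x ∧ lab x = k then 1 else 0 := by
              refine Finset.sum_congr rfl fun k _ => ?_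
              rw [hG, Finset.card_filter]
        _ = ∑ x : Fin n, ∑ k : ZMod 3, if ¬ Full c x ∧ lab x = k then 1 else 0 :=
              Finset.sum_comm
        _ ≤ ∑ _x : Fin n, 1 := by
              refine Finset.sum_le_sum fun x _ => ?_
              rw [Finset.sum_eq_single (lab x)]
              · split_ifs <;> omega
              · intro k _ hk
                rw [if_neg]
                rintro ⟨-, h'⟩
                exact hk h'.symm
              · intro h'
                exact absurd (Finset.mem_univ _) h'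
        _ = n := by simp
    exact_mod_cast e1
  have hDge : -(n : ℝ) / 4 ≤ ∑ x : Fin n, ∑ y ∈ univ.erase x, D x y := by
    rw [hDsum]
    have e1 : ∑ k : ZMod 3, -((G k).card : ℝ) / 4 ≤ ∑ k : ZMod 3, ∑ x ∈ G k,
        ∑ y ∈ (G k).erase x, (κ * (sl x ^ 2 + sl y ^ 2) + 1 / 4 * (sl x * sl y) - 2 * κ) := by
      refine Finset.sum_le_sum fun k _ => R18_pairs (G k) sl κ hκ8 ?_
      intro x hx
      simp only [hG, Finset.mem_filter, Finset.mem_univ, true_and] at hx
      exact R18_odd he c x (lab x) (hlab x hx.1)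
    rw [← Finset.sum_div, Finset.sum_neg_distrib] at e1
    linarith
  rw [hsplit, hphi2]
  have hfin : 2 * κ * (n * (n - 1)) = n * (3 * n - 12) / 4 := by
    have : 2 * κ * (n * (n - 1)) = n * (κ * (8 * ((n : ℝ) - 1))) / 4 := by ring
    rw [this, hκN]
  rw [hfin]
  linarith

end Pool.Agent.MP5f
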