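import Mathlib
import Pool.Agent.MP_5f2667_co.R12
import Pool.Agent.MP_5f2667_co.R18

set_option autoImplicit false

open Finset

/-
Proofs. ten: even_assembly with n = 10, phi x y = if Full x then (phi9 of counts at x starting with the colour of xy)/72 else 0; i.e. phi x y = phi9 (dg c x k) (dg c x (k+1)) (dg c x (k+2)) / 72, k = c s(x,y) (phi9 is 0 when x is not Full, as dg c x k >= 1).
h0: sum_by_colour and fin_9_sum (0 if not Full). h1: not NCM gives both not Full. h2: Ps_eq_P8 with N = 9 (8N = 72), fin_9, 36/72 = 1/2 = (3*10-12)/(4*9).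
phi9 for y: Ps has arguments (p',q',r') = (k, k+2, k+1); phi9 p q r is symmetric in q,r.
even_big: even_assembly with phi = 0 and PsC_ncm ((3N-9)/(2N) >= (3N-9)/(4N)).
-/

namespace Pool.Agent.MP5f

theorem R19_phi_symm (p q r : ℕ) : phi9 p q r = phi9 p r q := by
  unfold phi9
  simp only [or_comm]

theorem R19_phi_zero {p q r : ℕ} (h : q = 0 ∨ r = 0) : phi9 p q r = 0 := by
  unfold phi9
  rw [if_pos h]

theorem R19_sum (p q r : ℕ) (hx : p + q + r = 9) :
    0 ≤ (p : ℤ) * phi9 p q r + q * phi9 q r p + r * phi9 r p q := by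
  rcases Nat.eq_zero_or_pos p with hp | hp
  · subst hp
    rw [R19_phi_zero (p := q) (q := r) (r := 0) (Or.inr rfl),
      R19_phi_zero (p := r) (q := 0) (r := q) (Or.inl rfl)]
    simp
  · rcases Nat.eq_zero_or_pos q with hq | hq
    · subst hq
      rw [R19_phi_zero (p := p) (q := 0) (r := r) (Or.inl rfl),
        R19_phi_zero (p := r) (q := p) (r := 0) (Or.inr rfl)]
      simp
    · rcases Nat.eq_zero_or_pos r with hr | hr
      · subst hr
        rw [R19_phi_zero (p := p) (q := q) (r := 0) (Or.inr rfl),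
          R19_phi_zero (p := q) (q := 0) (r := p) (Or.inl rfl)]
        simp
      · exact fin_9_sum p q r hx hp hq hr

theorem R19_cases (k l : ZMod 3) (h : l ≠ k) : l = k + 1 ∨ l = k + 2 := by
  revert k l
  decide

theorem ten (c : Sym2 (Fin 10) → ZMod 3) :
    (10 : ℝ) * 17 / 4 ≤ ∑ x : Fin 10, ∑ y ∈ univ.erase x, PsC c x y := by
  have h := even_assembly (n := 10) le_rfl (by decide) c
    (fun x y => (phi9 (dg c x (c s(x, y))) (dg c x (c s(x, y) + 1)) (dg c x (c s(x, y) + 2)) : ℝ)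
      / 72) ?_ ?_ ?_
  · refine le_trans (le_of_eq ?_) h
    norm_num
  · intro x
    have h1 := sum_by_colour c x
      (fun k => (phi9 (dg c x k) (dg c x (k + 1)) (dg c x (k + 2)) : ℝ) / 72)
    rw [h1]
    have h2 : ∀ g : ZMod 3 → ℝ, ∑ k : ZMod 3, g k = g 0 + g 1 + g 2 := fun g => by
      exact Fin.sum_univ_three g
    rw [h2]
    have e1 : (0 : ZMod 3) + 1 = 1 := by decide
    have e2 : (0 : ZMod 3) + 2 = 2 := by decide
    have e3 : (1 : ZMod 3) + 1 = 2 := by decide
    have e4 : (1 : ZMod 3) + 2 = 0 := by decide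
    have e5 : (2 : ZMod 3) + 1 = 0 := by decide
    have e6 : (2 : ZMod 3) + 2 = 1 := by decide
    rw [e1, e2, e3, e4, e5, e6]
    have h3 := dg_sum c x
    have h4 := R19_sum (dg c x 0) (dg c x 1) (dg c x 2) (by omega)
    have h5 : (0 : ℝ) ≤ ((dg c x 0 : ℤ) * phi9 (dg c x 0) (dg c x 1) (dg c x 2) +
      (dg c x 1 : ℤ) * phi9 (dg c x 1) (dg c x 2) (dg c x 0) +
      (dg c x 2 : ℤ) * phi9 (dg c x 2) (dg c x 0) (dg c x 1) : ℤ) := by exact_mod_cast h4
    push_cast at h5
    linarith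
  · intro x y hxy hn
    have h1 : ∃ k, dg c x k = 0 ∧ dg c y k = 0 := by
      by_contra h2
      push Not at h2
      exact hn fun k hk => h2 k hk.1 hk.2
    obtain ⟨l, hl, -⟩ := h1
    have h2 := dg_pos c x y hxy
    have h3 : l ≠ c s(x, y) := by
      rintro rfl
      omega
    have h4 : phi9 (dg c x (c s(x, y))) (dg c x (c s(x, y) + 1)) (dg c x (c s(x, y) + 2)) = 0 := by
      apply R19_phi_zero
      rcases R19_cases _ _ h3 with h5 | h5
      · left; rw [← h5]; exact hl
      · right; rw [← h5]; exact hl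
    rw [h4]
    simp
  · intro x y hxy hm
    have hsw : c s(y, x) = c s(x, y) := by rw [Sym2.eq_swap]
    have hpos := dg_pos c x y hxy
    have hx := dg_sum' c x (c s(x, y))
    have hy := dg_sum' c y (c s(x, y))
    have h1 := fin_9 (dg c x (c s(x, y))) (dg c x (c s(x, y) + 1)) (dg c x (c s(x, y) + 2))
      (dg c y (c s(x, y))) (dg c y (c s(x, y) + 2)) (dg c y (c s(x, y) + 1)) (by omega) (by omega)
      hpos.1 hpos.2 (hm _) (hm _)
    have h2 := Ps_eq_P8 9 (dg c x (c s(x, y))) (dg c x (c s(x, y) + 1)) (dg c x (c s(x, y) + 2))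
      (dg c y (c s(x, y))) (dg c y (c s(x, y) + 2)) (dg c y (c s(x, y) + 1)) (by norm_num)
    have h3 : PsC c x y = Ps ((9 : ℕ) : ℝ) (dg c x (c s(x, y))) (dg c x (c s(x, y) + 1))
        (dg c x (c s(x, y) + 2)) (dg c y (c s(x, y))) (dg c y (c s(x, y) + 2))
        (dg c y (c s(x, y) + 1)) := by
      unfold PsC
      congr 1
      norm_num
    rw [h3, h2, hsw]
    have h4 : ((36 + phi9 (dg c x (c s(x, y))) (dg c x (c s(x, y) + 1)) (dg c x (c s(x, y) + 2)) +
        phi9 (dg c y (c s(x, y))) (dg c y (c s(x, y) + 2)) (dg c y (c s(x, y) + 1)) : ℤ) : ℝ) ≤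
        ((P8 9 (dg c x (c s(x, y))) (dg c x (c s(x, y) + 1)) (dg c x (c s(x, y) + 2))
      (dg c y (c s(x, y))) (dg c y (c s(x, y) + 2)) (dg c y (c s(x, y) + 1)) : ℤ) : ℝ) := by
      exact_mod_cast h1
    rw [R19_phi_symm (dg c y (c s(x, y)))]
    push_cast at h4 ⊢
    rw [le_div_iff₀ (by norm_num)]
    linarith

theorem even_big {n : ℕ} (hn : 12 ≤ n) (he : Even n) (c : Sym2 (Fin n) → ZMod 3) :
    (n : ℝ) * (3 * n - 13) / 4 ≤ ∑ x : Fin n, ∑ y ∈ univ.erase x, PsC c x y := by
  have hn' : (12 : ℝ) ≤ n := by exact_mod_cast hn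
  refine even_assembly (by omega) he c (fun _ _ => 0) ?_ ?_ ?_
  · intro x
    simp
  · intro x y _ _
    rfl
  · intro x y hxy hm
    refine le_trans ?_ (PsC_ncm hn c x y hxy hm)
    rw [add_zero, add_zero]
    refine div_le_div_of_nonneg_left (by linarith) (by linarith) (by linarith)

end Pool.Agent.MP5f
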