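import Mathlib
import Pool.Agent.MP_5f2667_co.Defs2

set_option autoImplicit false

open Finset

/-
Proof. Suppose nobody is Full and every pair x != y has a common missing colour. Take an edge xy of colour 0 and a common missing
colour b of x, y, and let t be the third colour. An edge uv of colour b: u sees b, so u is different from x and y, and the common
missing colour of x and u is t; so x sees only 0, the edge xu has colour 0 and u sees 0 and b. A vertex w seeing t has no common missing
colour with u.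
-/

namespace Pool.Agent.MP5f

theorem R20_see {n : ℕ} (c : Sym2 (Fin n) → ZMod 3) {x y : Fin n} (h : x ≠ y) :
    dg c x (c s(x, y)) ≠ 0 := by
  unfold dg
  apply Finset.card_ne_zero_of_mem (a := y)
  rw [Finset.mem_filter]
  exact ⟨Finset.mem_univ _, h.symm, rfl⟩

theorem R20_third (a b : ZMod 3) (h : a ≠ b) :
    ∃ t : ZMod 3, t ≠ a ∧ t ≠ b ∧ ∀ m : ZMod 3, m = a ∨ m = b ∨ m = t := by
  revert a b
  decide

theorem full_or_diff {n : ℕ} (c : Sym2 (Fin n) → ZMod 3) (h : ∀ k, Occ c k) :
    (∃ x, Full c x) ∨ ∃ x y, x ≠ y ∧ NCM c x y ∧ ¬ Full c x ∧ ¬ Full c y := by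
  by_contra hcon
  push Not at hcon
  obtain ⟨hF, hN⟩ := hcon
  have hcm : ∀ x y, x ≠ y → ∃ k, dg c x k = 0 ∧ dg c y k = 0 := by
    intro x y hxy
    by_contra h1
    push Not at h1
    have h2 : NCM c x y := fun k hk => h1 k hk.1 hk.2
    exact hF y (hN x y hxy h2 (hF x))
  obtain ⟨x, y, hxy, h0⟩ := h 0
  obtain ⟨b, hxb, hyb⟩ := hcm x y hxy
  have hx0 : dg c x 0 ≠ 0 := by
    have := R20_see c hxy
    rwa [h0] at this
  have hb0 : (0 : ZMod 3) ≠ b := by
    rintro rfl
    exact hx0 hxb
  obtain ⟨t, ht0, htb, hall⟩ := R20_third 0 b hb0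
  obtain ⟨u, v, huv, hb⟩ := h b
  have hub : dg c u b ≠ 0 := by
    have := R20_see c huv
    rwa [hb] at this
  have hxu : x ≠ u := by
    rintro rfl
    exact hub hxb
  obtain ⟨m, hxm, hum⟩ := hcm x u hxu
  have hmt : m = t := by
    rcases hall m with rfl | rfl | rfl
    · exact absurd hxm hx0
    · exact absurd hum hub
    · rfl
  subst hmt
  have hcol : c s(x, u) = 0 := by
    have h1 := R20_see c hxu
    rcases hall (c s(x, u)) with h2 | h2 | h2
    · exact h2
    · rw [h2] at h1; exact absurd hxb h1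
    · rw [h2] at h1; exact absurd hxm h1
  have hu0 : dg c u 0 ≠ 0 := by
    have h1 := R20_see c hxu.symm
    rwa [Sym2.eq_swap, hcol] at h1
  obtain ⟨w, z, hwz, hm⟩ := h m
  have hwm : dg c w m ≠ 0 := by
    have := R20_see c hwz
    rwa [hm] at this
  have huw : u ≠ w := by
    rintro rfl
    exact hwm hum
  obtain ⟨k, huk, hwk⟩ := hcm u w huw
  rcases hall k with rfl | rfl | rfl
  · exact hu0 huk
  · exact hub huk
  · exact hwm hwk

end Pool.Agent.MP5f
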