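import Mathlib
import Pool.Agent.MP_5f2667_co.R12
import Pool.Agent.MP_5f2667_co.R17
import Pool.Agent.MP_5f2667_co.R20

set_option autoImplicit false

open Finset

/-
Proof. full_or_diff. If x is Full: n >= 12: each of the N pairs at x has PsC >= (3N-9)/(2N) (NCM holds as x is Full), all others >= 0 (PsC_nonneg); ordered sum >= 2*N*(3N-9)/(2N) = 3N-9 = 3n-12 (use PsC_symm: both (x,y) and (y,x)).
n = 11 (N=10): fin_10_full and Ps_eq_P8 (8N=80): sum over y of PsC c x y >= (sum_k d_k * (if d_k <= 2 then 72 else 108))/80 >= 936/80 = 11.7 >= 10.5; ordered sum >= 2*11.7 >= 21 = 3*11-12.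
(for d0+d1+d2 = 10, all >= 1: at most 4 edges have a colour with count <= 2... min of the sum is 936 at (2,2,6): finite check).
If there is a diff pair: PsC_diff gives PsC c x y >= (3n-12)/2 and PsC c y x too; others >= 0.
-/

namespace Pool.Agent.MP5f

theorem R21_row {n : ℕ} (P : Fin n → Fin n → ℝ) (hP : ∀ x y, x ≠ y → 0 ≤ P x y)
    (hs : ∀ x y, P x y = P y x) (x : Fin n) :
    2 * ∑ y ∈ univ.erase x, P x y ≤ ∑ a : Fin n, ∑ b ∈ univ.erase a, P a b := by
  rw [← Finset.add_sum_erase univ _ (Finset.mem_univ x)]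
  have h1 : ∑ a ∈ univ.erase x, P x a ≤ ∑ a ∈ univ.erase x, ∑ b ∈ univ.erase a, P a b := by
    apply Finset.sum_le_sum
    intro a ha
    have hax : a ≠ x := Finset.ne_of_mem_erase ha
    rw [hs x a]
    exact Finset.single_le_sum (f := fun b => P a b)
      (fun b hb => hP a b (Finset.ne_of_mem_erase hb).symm)
      (Finset.mem_erase.2 ⟨hax.symm, Finset.mem_univ x⟩)
  linarith

theorem R21_one {n : ℕ} (P : Fin n → Fin n → ℝ) (hP : ∀ x y, x ≠ y → 0 ≤ P x y)
    (hs : ∀ x y, P x y = P y x) (x y : Fin n) (h : x ≠ y) :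
    2 * P x y ≤ ∑ a : Fin n, ∑ b ∈ univ.erase a, P a b := by
  have h1 := R21_row P hP hs x
  have h2 : P x y ≤ ∑ b ∈ univ.erase x, P x b :=
    Finset.single_le_sum (f := fun b => P x b)
      (fun b hb => hP x b (Finset.ne_of_mem_erase hb).symm)
      (Finset.mem_erase.2 ⟨h.symm, Finset.mem_univ y⟩)
  linarith

theorem R21_fin (a b d : ℕ) (h : a + b + d = 10) (ha : a ≠ 0) (hb : b ≠ 0) (hd : d ≠ 0) :
    936 ≤ a * (if a ≤ 2 then 72 else 108) + b * (if b ≤ 2 then 72 else 108)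
      + d * (if d ≤ 2 then 72 else 108) := by
  split_ifs <;> omega

theorem R21_z3 (k : ZMod 3) (P : ZMod 3 → Prop) (h : ∀ j, P j) : P k ∧ P (k + 1) ∧ P (k + 2) :=
  ⟨h _, h _, h _⟩

theorem R21_ten (c : Sym2 (Fin 11) → ZMod 3) (x : Fin 11) (hx : Full c x) :
    (936 : ℝ) / 80 ≤ ∑ y ∈ univ.erase x, PsC c x y := by
  have hy : ∀ y ∈ univ.erase x,
      (if dg c x (c s(x, y)) ≤ 2 then (72 : ℝ) else 108) / 80 ≤ PsC c x y := by
    intro y hy
    have hxy : x ≠ y := (Finset.ne_of_mem_erase hy).symm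
    have hp := dg_pos c x y hxy
    have hs1 := dg_sum' c x (c s(x, y))
    have hs2 := dg_sum' c y (c s(x, y))
    have hq := hx (c s(x, y) + 1)
    have hr := hx (c s(x, y) + 2)
    have h1 := fin_10_full (dg c x (c s(x, y))) (dg c x (c s(x, y) + 1)) (dg c x (c s(x, y) + 2))
      (dg c y (c s(x, y))) (dg c y (c s(x, y) + 2)) (dg c y (c s(x, y) + 1))
      (by omega) (by omega) hp.1 hp.2 (by omega) (by omega)
    have h2 := Ps_eq_P8 10 (dg c x (c s(x, y))) (dg c x (c s(x, y) + 1)) (dg c x (c s(x, y) + 2))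
      (dg c y (c s(x, y))) (dg c y (c s(x, y) + 2)) (dg c y (c s(x, y) + 1)) (by norm_num)
    have h3 : PsC c x y = Ps ((10 : ℕ) : ℝ) (dg c x (c s(x, y))) (dg c x (c s(x, y) + 1))
        (dg c x (c s(x, y) + 2)) (dg c y (c s(x, y))) (dg c y (c s(x, y) + 2))
        (dg c y (c s(x, y) + 1)) := by
      unfold PsC
      congr 1
      norm_num
    rw [h3, h2]
    have h4 : ((if dg c x (c s(x, y)) ≤ 2 then (72 : ℤ) else 108 : ℤ) : ℝ) ≤
        (P8 (10 : ℕ) (dg c x (c s(x, y))) (dg c x (c s(x, y) + 1)) (dg c x (c s(x, y) + 2))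
      (dg c y (c s(x, y))) (dg c y (c s(x, y) + 2)) (dg c y (c s(x, y) + 1)) : ℝ) := by
      exact_mod_cast h1
    push_cast at h4 ⊢
    have h5 : (8 : ℝ) * 10 = 80 := by norm_num
    rw [h5]
    exact div_le_div_of_nonneg_right h4 (by norm_num)
  refine le_trans ?_ (Finset.sum_le_sum hy)
  rw [sum_by_colour c x (fun k => (if dg c x k ≤ 2 then (72 : ℝ) else 108) / 80)]
  have h6 : ∑ k : ZMod 3, (dg c x k : ℝ) * ((if dg c x k ≤ 2 then (72 : ℝ) else 108) / 80) =
      (((dg c x 0 * (if dg c x 0 ≤ 2 then 72 else 108) + dg c x 1 * (if dg c x 1 ≤ 2 then 72 else 108)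
      + dg c x 2 * (if dg c x 2 ≤ 2 then 72 else 108) : ℕ)) : ℝ) / 80 := by
    have h7 : ∀ g : ZMod 3 → ℝ, ∑ k : ZMod 3, g k = g 0 + g 1 + g 2 := fun g => Fin.sum_univ_three g
    rw [h7]
    push_cast
    ring
  rw [h6]
  have h8 := R21_fin (dg c x 0) (dg c x 1) (dg c x 2) (by have := dg_sum c x; omega)
    (hx 0) (hx 1) (hx 2)
  have h9 : ((936 : ℕ) : ℝ) ≤ ((dg c x 0 * (if dg c x 0 ≤ 2 then 72 else 108) +
      dg c x 1 * (if dg c x 1 ≤ 2 then 72 else 108)
      + dg c x 2 * (if dg c x 2 ≤ 2 then 72 else 108) : ℕ) : ℝ) := by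
    exact_mod_cast h8
  have h10 : ((936 : ℕ) : ℝ) = 936 := by norm_num
  rw [h10] at h9
  exact div_le_div_of_nonneg_right h9 (by norm_num)

theorem three_colours {n : ℕ} (hn : 11 ≤ n) (c : Sym2 (Fin n) → ZMod 3) (h : ∀ k, Occ c k) :
    3 * (n : ℝ) - 12 ≤ ∑ x : Fin n, ∑ y ∈ univ.erase x, PsC c x y := by
  have hP : ∀ x y, x ≠ y → 0 ≤ PsC c x y := fun x y hxy => PsC_nonneg (by omega) c x y hxy
  have hs : ∀ x y, PsC c x y = PsC c y x := PsC_symm c
  have hn' : (11 : ℝ) ≤ n := by exact_mod_cast hn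
  rcases full_or_diff c h with ⟨x, hx⟩ | ⟨x, y, hxy, hm, hfx, hfy⟩
  · have hrow := R21_row (PsC c) hP hs x
    refine le_trans ?_ hrow
    rcases Nat.lt_or_ge n 12 with h12 | h12
    · obtain rfl : n = 11 := by omega
      have := R21_ten c x hx
      push_cast
      linarith
    · have h1 : ∀ y ∈ univ.erase x, (3 * (n : ℝ) - 12) / (2 * ((n : ℝ) - 1)) ≤ PsC c x y := by
        intro y hy
        apply PsC_ncm h12 c x y (Finset.ne_of_mem_erase hy).symm
        rintro k ⟨hk, -⟩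
        exact hx k hk
      have h2 := Finset.sum_le_sum h1
      rw [Finset.sum_const, Finset.card_erase_of_mem (Finset.mem_univ x), Finset.card_univ,
        Fintype.card_fin, nsmul_eq_mul] at h2
      have h3 : ((n - 1 : ℕ) : ℝ) = (n : ℝ) - 1 := by
        rw [Nat.cast_sub (by omega)]; simp
      rw [h3] at h2
      have h4 : ((n : ℝ) - 1) * ((3 * (n : ℝ) - 12) / (2 * ((n : ℝ) - 1))) =
          (3 * (n : ℝ) - 12) / 2 := by
        have : (n : ℝ) - 1 ≠ 0 := by linarith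
        field_simp
      rw [h4] at h2
      linarith
  · have h1 := R21_one (PsC c) hP hs x y hxy
    have h2 := PsC_diff (by omega) c x y hxy hm hfx hfy
    linarith

end Pool.Agent.MP5f
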