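import Mathlib
import Pool.Agent.MP_5f2667_co.R06

set_option autoImplicit false

open Finset

/-
Construction by induction `n → n + 4`: signs `e x y = ± 1` (`e x x = 0`), `s x = ∑ y < n, e x y`; the four new vertices are
joined to the old vertex `x` with the signs `(-1)^x * (1, 1, -1, -1)`, and among themselves by the path `0 - 2 - 3 - 1` with
sign `1`, the other three edges with sign `-1`.
-/

namespace Pool.Agent.MP5f

/-- the signs inside the new block -/
def r22_K (i j : ℕ) : ℤ :=
  if i = j then 0 else if i + j = 2 ∨ i + j = 5 ∨ i + j = 4 then 1 else -1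

/-- the signs of the new vertices -/
def r22_T (i : ℕ) : ℤ := if i < 2 then 1 else -1

def r22_e (n : ℕ) (e : ℕ → ℕ → ℤ) (x y : ℕ) : ℤ :=
  if x < n then (if y < n then e x y else (-1) ^ x * r22_T (y - n))
  else (if y < n then (-1) ^ y * r22_T (x - n) else r22_K (x - n) (y - n))

theorem r22_K_symm (i j : ℕ) : r22_K i j = r22_K j i := by
  rw [r22_K, r22_K, Nat.add_comm i j]
  by_cases h : i = j
  · rw [if_pos h, if_pos h.symm]
  · rw [if_neg h, if_neg (Ne.symm h)]

theorem r22_K_val {i j : ℕ} (h : i ≠ j) : r22_K i j = 1 ∨ r22_K i j = -1 := by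
  rw [r22_K, if_neg h]
  split_ifs
  · exact Or.inl rfl
  · exact Or.inr rfl

theorem r22_T_val (i : ℕ) : r22_T i = 1 ∨ r22_T i = -1 := by
  rw [r22_T]
  split_ifs
  · exact Or.inl rfl
  · exact Or.inr rfl

theorem r22_pow_val (x : ℕ) : (-1 : ℤ) ^ x = 1 ∨ (-1 : ℤ) ^ x = -1 := neg_one_pow_eq_or ℤ x

/-- the existence of signs -/
def r22_P (n : ℕ) (A B : ℤ) : Prop :=
  ∃ e : ℕ → ℕ → ℤ, (∀ x y, e x y = e y x) ∧ (∀ x, e x x = 0) ∧
    (∀ x y, x ≠ y → e x y = 1 ∨ e x y = -1) ∧
    (∑ x ∈ range n, (∑ y ∈ range n, e x y) ^ 2 = A) ∧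
    (∑ x ∈ range n, ∑ y ∈ range n, e x y) ^ 2 = B

theorem r22_alt (n : ℕ) : ∑ y ∈ range n, (-1 : ℤ) ^ y = if n % 2 = 0 then 0 else 1 := by
  induction n with
  | zero => rfl
  | succ n ih =>
    rw [Finset.sum_range_succ, ih]
    rcases Nat.even_or_odd n with h | h
    · rw [h.neg_one_pow, if_pos (Nat.even_iff.mp h), if_neg (by have := Nat.even_iff.mp h; omega)]
      norm_num
    · rw [h.neg_one_pow, if_neg (by have := Nat.odd_iff.mp h; omega),
        if_pos (by have := Nat.odd_iff.mp h; omega)]
      norm_num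

theorem r22_step {n : ℕ} {A B : ℤ} (h : r22_P n A B) :
    r22_P (n + 4) (A + if n % 2 = 0 then 4 else 0) B := by
  obtain ⟨e, hs, h0, hv, hA, hB⟩ := h
  have hold : ∀ x, x < n → ∑ y ∈ range (n + 4), r22_e n e x y = ∑ y ∈ range n, e x y := by
    intro x hx
    rw [Finset.sum_range_add]
    have e1 : ∑ y ∈ range n, r22_e n e x y = ∑ y ∈ range n, e x y :=
      Finset.sum_congr rfl fun y hy => by
        rw [r22_e, if_pos hx, if_pos (Finset.mem_range.mp hy)]
    have e2 : ∑ y ∈ range 4, r22_e n e x (n + y) = 0 := by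
      have e3 : ∀ y, r22_e n e x (n + y) = (-1) ^ x * r22_T y := by
        intro y
        rw [r22_e, if_pos hx, if_neg (by omega), Nat.add_sub_cancel_left]
      simp only [e3]
      rw [← Finset.mul_sum]
      have e4 : ∑ y ∈ range 4, r22_T y = 0 := by decide
      rw [e4, mul_zero]
    rw [e1, e2, add_zero]
  have hnew : ∀ i, i < 4 → ∑ y ∈ range (n + 4), r22_e n e (n + i) y =
      r22_T i * (if n % 2 = 0 then 0 else 1) - r22_T i := by
    intro i hi
    rw [Finset.sum_range_add]
    have e1 : ∑ y ∈ range n, r22_e n e (n + i) y = r22_T i * (if n % 2 = 0 then 0 else 1) := by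
      rw [← r22_alt, Finset.mul_sum]
      exact Finset.sum_congr rfl fun y hy => by
        rw [r22_e, if_neg (by omega), if_pos (Finset.mem_range.mp hy), Nat.add_sub_cancel_left,
          mul_comm]
    have e2 : ∑ y ∈ range 4, r22_e n e (n + i) (n + y) = - r22_T i := by
      have e3 : ∀ y, r22_e n e (n + i) (n + y) = r22_K i y := by
        intro y
        rw [r22_e, if_neg (by omega), if_neg (by omega), Nat.add_sub_cancel_left,
          Nat.add_sub_cancel_left]
      simp only [e3]
      interval_cases i <;> decide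
    rw [e1, e2]
    ring
  refine ⟨r22_e n e, ?_, ?_, ?_, ?_, ?_⟩
  · intro x y
    rw [r22_e, r22_e]
    by_cases hx : x < n
    · by_cases hy : y < n
      · simp only [hx, hy, if_true]
        exact hs x y
      · simp only [hx, hy, if_true, if_false]
    · by_cases hy : y < n
      · simp only [hx, hy, if_true, if_false]
      · simp only [hx, hy, if_false]
        exact r22_K_symm _ _
  · intro x
    rw [r22_e]
    by_cases hx : x < n
    · rw [if_pos hx, if_pos hx, h0]
    · rw [if_neg hx, if_neg hx, r22_K, if_pos rfl]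
  · intro x y hxy
    have hm : ∀ a b : ℤ, (a = 1 ∨ a = -1) → (b = 1 ∨ b = -1) → (a * b = 1 ∨ a * b = -1) := by
      rintro a b (rfl | rfl) (rfl | rfl) <;> simp
    rw [r22_e]
    by_cases hx : x < n
    · by_cases hy : y < n
      · rw [if_pos hx, if_pos hy]
        exact hv x y hxy
      · rw [if_pos hx, if_neg hy]
        exact hm _ _ (r22_pow_val _) (r22_T_val _)
    · by_cases hy : y < n
      · rw [if_neg hx, if_pos hy]
        exact hm _ _ (r22_pow_val _) (r22_T_val _)
      · rw [if_neg hx, if_neg hy]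
        exact r22_K_val (by omega)
  · rw [Finset.sum_range_add]
    have e1 : ∑ x ∈ range n, (∑ y ∈ range (n + 4), r22_e n e x y) ^ 2 = A := by
      rw [← hA]
      exact Finset.sum_congr rfl fun x hx => by rw [hold x (Finset.mem_range.mp hx)]
    have e2 : ∑ x ∈ range 4, (∑ y ∈ range (n + 4), r22_e n e (n + x) y) ^ 2 =
        if n % 2 = 0 then 4 else 0 := by
      rw [Finset.sum_congr rfl fun x hx => by rw [hnew x (Finset.mem_range.mp hx)]]
      split_ifs <;> decide
    rw [e1, e2]
  · rw [← hB]
    congr 1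
    rw [Finset.sum_range_add]
    have e1 : ∑ x ∈ range n, ∑ y ∈ range (n + 4), r22_e n e x y =
        ∑ x ∈ range n, ∑ y ∈ range n, e x y :=
      Finset.sum_congr rfl fun x hx => by rw [hold x (Finset.mem_range.mp hx)]
    have e2 : ∑ x ∈ range 4, ∑ y ∈ range (n + 4), r22_e n e (n + x) y = 0 := by
      rw [Finset.sum_congr rfl fun x hx => by rw [hnew x (Finset.mem_range.mp hx)]]
      split_ifs <;> decide
    rw [e1, e2, add_zero]

theorem r22_all (n : ℕ) : r22_P n (if n % 4 = 1 then 0 else if n % 4 = 3 then 4 else (n : ℤ))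
    (if n % 4 = 1 then 0 else if n % 4 = 0 then 0 else (4 : ℤ)) := by
  induction n using Nat.strong_induction_on with
  | _ n ih =>
    by_cases hn : n < 4
    · interval_cases n
      · exact ⟨fun x y => if x = y then 0 else 1, fun x y => by simp [eq_comm], fun x => by simp,
          fun x y h => by simp [h], by decide, by decide⟩
      · exact ⟨fun x y => if x = y then 0 else 1, fun x y => by simp [eq_comm], fun x => by simp,
          fun x y h => by simp [h], by decide, by decide⟩
      · exact ⟨fun x y => if x = y then 0 else 1, fun x y => by simp [eq_comm], fun x => by simp,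
          fun x y h => by simp [h], by decide, by decide⟩
      · refine ⟨fun x y => if x = y then 0 else if x + y = 1 then -1 else 1,
          fun x y => by simp [eq_comm, add_comm], fun x => by simp,
          fun x y h => ?_, by decide, by decide⟩
        simp only [if_neg h]
        split_ifs
        · exact Or.inr rfl
        · exact Or.inl rfl
    · obtain ⟨m, rfl⟩ : ∃ m, n = m + 4 := ⟨n - 4, by omega⟩
      have h := r22_step (ih m (by omega))
      have e1 : (m + 4) % 4 = m % 4 := Nat.add_mod_right m 4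
      rw [e1]
      have e2 : ((if m % 4 = 1 then 0 else if m % 4 = 3 then 4 else (m : ℤ)) +
          if m % 2 = 0 then 4 else 0) =
          (if m % 4 = 1 then 0 else if m % 4 = 3 then 4 else ((m + 4 : ℕ) : ℤ)) := by
        have h3 : m % 2 = m % 4 % 2 := by omega
        have h4 : m % 4 < 4 := Nat.mod_lt _ (by norm_num)
        rw [h3]
        interval_cases m % 4 <;> simp
      rw [e2] at h
      exact h

/-- almost regular 2-colourings -/
theorem exists_two {n : ℕ} (hn : 4 ≤ n) : ∃ c : Sym2 (Fin n) → Fin 2,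
    (∑ x : Fin n, (sg (lift2 c) 2 x) ^ 2 =
      if n % 4 = 1 then 0 else if n % 4 = 3 then 4 else (n : ℤ)) ∧
    (∑ x : Fin n, sg (lift2 c) 2 x) ^ 2 =
      if n % 4 = 1 then 0 else if n % 4 = 0 then 0 else (4 : ℤ) := by
  obtain ⟨e, hs, h0, hv, hA, hB⟩ := r22_all n
  let c : Sym2 (Fin n) → Fin 2 := Sym2.lift ⟨fun x y => if e x.val y.val = 1 then 0 else 1,
    fun x y => by dsimp only; rw [hs]⟩
  have hc : ∀ x y : Fin n, c s(x, y) = if e x.val y.val = 1 then 0 else 1 := fun x y => rfl
  have hsg : ∀ x : Fin n, sg (lift2 c) 2 x = ∑ y ∈ range n, e x.val y := by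
    intro x
    rw [← Fin.sum_univ_eq_sum_range (fun y => e x.val y) n]
    have h1 : (dg (lift2 c) x (2 + 1) : ℤ) =
        ∑ y : Fin n, if y ≠ x ∧ e x.val y.val = 1 then 1 else 0 := by
      rw [dg, Finset.card_filter]
      push_cast
      refine Finset.sum_congr rfl fun y _ => if_congr (and_congr_right fun _ => ?_) rfl rfl
      rw [lift2, hc]
      split_ifs with h2
      · simp only [h2, iff_true]
        decide
      · simp only [h2, iff_false]
        decide
    have h2 : (dg (lift2 c) x (2 + 2) : ℤ) =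
        ∑ y : Fin n, if y ≠ x ∧ ¬ e x.val y.val = 1 then 1 else 0 := by
      rw [dg, Finset.card_filter]
      push_cast
      refine Finset.sum_congr rfl fun y _ => if_congr (and_congr_right fun _ => ?_) rfl rfl
      rw [lift2, hc]
      split_ifs with h2
      · simp only [h2, not_true_eq_false, iff_false]
        decide
      · simp only [h2, not_false_eq_true, iff_true]
        decide
    rw [sg, h1, h2, ← Finset.sum_sub_distrib]
    refine Finset.sum_congr rfl fun y _ => ?_
    by_cases hy : y = x
    · subst hy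
      simp [h0]
    · have hne : x.val ≠ y.val := fun h3 => hy (Fin.ext h3.symm)
      rcases hv x.val y.val hne with h3 | h3
      · simp [hy, h3]
      · simp [hy, h3]
  refine ⟨c, ?_, ?_⟩
  · rw [← hA]
    simp only [hsg]
    exact Fin.sum_univ_eq_sum_range (fun x => (∑ y ∈ range n, e x y) ^ 2) n
  · rw [← hB]
    simp only [hsg]
    rw [Fin.sum_univ_eq_sum_range (fun x => ∑ y ∈ range n, e x y) n]

end Pool.Agent.MP5f
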