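import Mathlib
import Pool.Agent.MP_5f2667_co.R01

set_option autoImplicit false

open Finset

/-
Proof hint. Use zs_tuples: 6 zs (del c x) = number of tuples avoiding x (Fin.succAbove is a bijection onto the complement of x; sum over Fin n of f(succAbove x i) = sum over j != x; Fin.sum_univ_succAbove).
For every tuple of 4 distinct vertices of Fin (n+1) there are n+1-4 = n-3 vertices x avoided. So 6*sum_x zs(del c x) = (n-3)*6*zs c. del_le: the tuples of del c x inject into those of c.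
-/

namespace Pool.Agent.MP5f

theorem R23_one {n : ℕ} (v : Fin (n + 1)) (f : Fin (n + 1) → ℕ) :
    ∑ x : Fin n, f (v.succAbove x) = ∑ j : Fin (n + 1), if j ≠ v then f j else 0 := by
  rw [Fin.sum_univ_succAbove (fun j => if j ≠ v then f j else 0) v]
  simp [Fin.succAbove_ne]

theorem R23_four {n : ℕ} (v : Fin (n + 1))
    (g : Fin (n + 1) → Fin (n + 1) → Fin (n + 1) → Fin (n + 1) → ℕ) :
    ∑ x : Fin n, ∑ y : Fin n, ∑ z : Fin n, ∑ w : Fin n,
      g (v.succAbove x) (v.succAbove y) (v.succAbove z) (v.succAbove w) =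
    ∑ x : Fin (n + 1), ∑ y : Fin (n + 1), ∑ z : Fin (n + 1), ∑ w : Fin (n + 1),
      if x ≠ v ∧ y ≠ v ∧ z ≠ v ∧ w ≠ v then g x y z w else 0 := by
  rw [R23_one v (fun a => ∑ y : Fin n, ∑ z : Fin n, ∑ w : Fin n,
      g a (v.succAbove y) (v.succAbove z) (v.succAbove w))]
  apply Finset.sum_congr rfl
  intro x _
  by_cases hx : x = v
  · simp [hx]
  · rw [if_pos hx, R23_one v (fun a => ∑ z : Fin n, ∑ w : Fin n,
      g x a (v.succAbove z) (v.succAbove w))]
    apply Finset.sum_congr rfl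
    intro y _
    by_cases hy : y = v
    · simp [hy]
    · rw [if_pos hy, R23_one v (fun a => ∑ w : Fin n, g x y a (v.succAbove w))]
      apply Finset.sum_congr rfl
      intro z _
      by_cases hz : z = v
      · simp [hz]
      · rw [if_pos hz, R23_one v (fun a => g x y z a)]
        apply Finset.sum_congr rfl
        intro w _
        simp [hx, hy, hz]

/-- weight of an ordered quadruple -/
def R23_W {n : ℕ} (c : Sym2 (Fin n) → ZMod 3) (x y z w : Fin n) : ℕ :=
  (if (x ≠ y ∧ x ≠ z ∧ x ≠ w ∧ y ≠ z ∧ y ≠ w ∧ z ≠ w) ∧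
      c s(x, y) + c s(x, z) + c s(x, w) = 0 then 1 else 0) +
  3 * (if (x ≠ y ∧ x ≠ z ∧ x ≠ w ∧ y ≠ z ∧ y ≠ w ∧ z ≠ w) ∧
      c s(x, y) + c s(y, z) + c s(z, w) = 0 then 1 else 0)

theorem R23_zs {n : ℕ} (c : Sym2 (Fin n) → ZMod 3) :
    6 * zs c = ∑ x : Fin n, ∑ y : Fin n, ∑ z : Fin n, ∑ w : Fin n, R23_W c x y z w := by
  rw [zs_tuples]
  unfold nS nP R23_W
  simp only [Finset.sum_add_distrib, Finset.mul_sum]

theorem R23_del {n : ℕ} (c : Sym2 (Fin (n + 1)) → ZMod 3) (v : Fin (n + 1)) (x y z w : Fin n) :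
    R23_W (del c v) x y z w =
      R23_W c (v.succAbove x) (v.succAbove y) (v.succAbove z) (v.succAbove w) := by
  unfold R23_W del
  simp only [Sym2.map_mk, ne_eq, Fin.succAbove_right_inj]
  congr!

theorem R23_zsdel {n : ℕ} (c : Sym2 (Fin (n + 1)) → ZMod 3) (v : Fin (n + 1)) :
    6 * zs (del c v) = ∑ x : Fin (n + 1), ∑ y : Fin (n + 1), ∑ z : Fin (n + 1),
      ∑ w : Fin (n + 1), if x ≠ v ∧ y ≠ v ∧ z ≠ v ∧ w ≠ v then R23_W c x y z w else 0 := by
  rw [R23_zs, ← R23_four v (R23_W c)]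
  simp only [R23_del]

theorem R23_count {n : ℕ} (c : Sym2 (Fin (n + 1)) → ZMod 3) (x y z w : Fin (n + 1)) :
    ∑ v : Fin (n + 1), (if x ≠ v ∧ y ≠ v ∧ z ≠ v ∧ w ≠ v then R23_W c x y z w else 0) =
      (n - 3) * R23_W c x y z w := by
  classical
  by_cases h : x ≠ y ∧ x ≠ z ∧ x ≠ w ∧ y ≠ z ∧ y ≠ w ∧ z ≠ w
  · rw [← Finset.sum_filter, Finset.sum_const, smul_eq_mul]
    congr 1
    have h1 : univ.filter (fun v : Fin (n + 1) => x ≠ v ∧ y ≠ v ∧ z ≠ v ∧ w ≠ v) =
        univ \ {x, y, z, w} := by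
      ext v
      simp only [Finset.mem_filter, Finset.mem_univ, true_and, Finset.mem_sdiff,
        Finset.mem_insert, Finset.mem_singleton, not_or]
      constructor
      · rintro ⟨a, b, d, e⟩
        exact ⟨a.symm, b.symm, d.symm, e.symm⟩
      · rintro ⟨a, b, d, e⟩
        exact ⟨fun h => a h.symm, fun h => b h.symm, fun h => d h.symm, fun h => e h.symm⟩
    have h2 : ({x, y, z, w} : Finset (Fin (n + 1))).card = 4 := by
      rw [Finset.card_insert_of_notMem, Finset.card_insert_of_notMem,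
        Finset.card_insert_of_notMem, Finset.card_singleton]
      · simp [h.2.2.2.2.2]
      · simp [h.2.2.2.1, h.2.2.2.2.1]
      · simp [h.1, h.2.1, h.2.2.1]
    rw [h1, Finset.card_sdiff_of_subset (Finset.subset_univ _), h2, Finset.card_univ,
      Fintype.card_fin]
    omega
  · have h0 : R23_W c x y z w = 0 := by
      unfold R23_W
      rw [if_neg (fun hh => h hh.1), if_neg (fun hh => h hh.1)]
    simp [h0]

theorem del_sum {n : ℕ} (hn : 3 ≤ n) (c : Sym2 (Fin (n + 1)) → ZMod 3) :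
    (n - 3) * zs c = ∑ x : Fin (n + 1), zs (del c x) := by
  have h1 : 6 * ((n - 3) * zs c) = 6 * ∑ v : Fin (n + 1), zs (del c v) := by
    rw [Finset.mul_sum]
    simp only [R23_zsdel]
    rw [Finset.sum_comm]
    have h2 : 6 * ((n - 3) * zs c) = (n - 3) * (6 * zs c) := by ring
    rw [h2, R23_zs, Finset.mul_sum]
    apply Finset.sum_congr rfl
    intro x _
    rw [Finset.mul_sum, Finset.sum_comm]
    apply Finset.sum_congr rfl
    intro y _
    rw [Finset.mul_sum, Finset.sum_comm]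
    apply Finset.sum_congr rfl
    intro z _
    rw [Finset.mul_sum, Finset.sum_comm]
    apply Finset.sum_congr rfl
    intro w _
    exact (R23_count c x y z w).symm
  exact Nat.eq_of_mul_eq_mul_left (by norm_num) h1

theorem del_le {n : ℕ} (c : Sym2 (Fin (n + 1)) → ZMod 3) (x : Fin (n + 1)) : zs (del c x) ≤ zs c := by
  have h1 : 6 * zs (del c x) ≤ 6 * zs c := by
    rw [R23_zsdel, R23_zs]
    refine Finset.sum_le_sum fun a _ => Finset.sum_le_sum fun b _ => Finset.sum_le_sum fun d _ =>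
      Finset.sum_le_sum fun e _ => ?_
    split_ifs
    · exact le_refl _
    · exact Nat.zero_le _
  omega

end Pool.Agent.MP5f
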