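import Mathlib
import Pool.Agent.MP_5f2667_co.Defs2
import Pool.Agent.MP_5f2667_co.R01
import Pool.Agent.MP_5f2667_co.R23

set_option autoImplicit false

open Finset

/-
five: finite check over the 3^10 colourings of K_5 (true: brute force in C++ gives minimum 19 for colourings using all three colours, and >= 19 for 2-colourings with a class inside a star, monochromatic ones too).
The number of zero-sum trees of a coloured K_4 is read off a table (`r24_T`, 5 bits per entry, index in base 3), `del_sum` gives K_5.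
four: 3^6 colourings of K_4.
-/

namespace Pool.Agent.MP5f

/-- table: number of zero-sum trees of the colouring of `K_4` with base `3` index `i` -/
def r24_T : ℕ :=
  91254214376528371006592334347076161447250621115834279222067477613953769670201425568468945763426429210935465387219412704741161750927772257021756544412588165856487061693038330002543922045064854647123951210184567679131652244716692534754949749769080293013567121050761318522318933320276751271470102700663154016436601140406638487569583979998799718937771977804048331556551838968373394129044387603345158914734268081188323500785150759198186183398300350692087070577618601594504297371696389067288681954722962935603743310762755718351531345600035059568852324417844275316490143413184013165086317568528417124439218414646268513173807303024961982409970767756676126190033958597110609648618426679169771362358989803043668103267984144688837329739025754429423691473655443242050986925796347780369732927435579086168838414792061273616579178668059348876188768725651287983122334627506130937910938936008779020357211547885810294741052799571905179098538525358958703832394720403358717816325800290198863688507598531972765660664778154849811134892463755825690423281286169895450472270128841862046556853624880387267245845597608222992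

def r24_z (i : ℕ) : ℕ := (r24_T >>> (5 * i)) % 32

def r24_i (a b c d e f : ℕ) : ℕ := a + 3 * b + 9 * c + 27 * d + 81 * e + 243 * f

theorem r24_sum (G : Fin 4 → Fin 4 → Fin 4 → Fin 4 → ℕ)
    (hG : ∀ x y z w, ¬ (x ≠ y ∧ x ≠ z ∧ x ≠ w ∧ y ≠ z ∧ y ≠ w ∧ z ≠ w) → G x y z w = 0) :
    ∑ x : Fin 4, ∑ y : Fin 4, ∑ z : Fin 4, ∑ w : Fin 4, G x y z w =
    G 0 1 2 3 + G 0 1 3 2 + G 0 2 1 3 + G 0 2 3 1 + G 0 3 1 2 + G 0 3 2 1 +
    (G 1 0 2 3 + G 1 0 3 2 + G 1 2 0 3 + G 1 2 3 0 + G 1 3 0 2 + G 1 3 2 0) +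
    (G 2 0 1 3 + G 2 0 3 1 + G 2 1 0 3 + G 2 1 3 0 + G 2 3 0 1 + G 2 3 1 0) +
    (G 3 0 1 2 + G 3 0 2 1 + G 3 1 0 2 + G 3 1 2 0 + G 3 2 0 1 + G 3 2 1 0) := by
  have h1 : ∀ x z w, G x x z w = 0 := fun x z w => hG _ _ _ _ (by tauto)
  have h2 : ∀ x y w, G x y x w = 0 := fun x z w => hG _ _ _ _ (by tauto)
  have h3 : ∀ x y z, G x y z x = 0 := fun x z w => hG _ _ _ _ (by tauto)
  have h4 : ∀ x y w, G x y y w = 0 := fun x z w => hG _ _ _ _ (by tauto)
  have h5 : ∀ x y z, G x y z y = 0 := fun x z w => hG _ _ _ _ (by tauto)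
  have h6 : ∀ x y z, G x y z z = 0 := fun x z w => hG _ _ _ _ (by tauto)
  simp only [Fin.sum_univ_four, h1, h2, h3, h4, h5, h6]
  ring

theorem r24_check : ∀ a b c d e f : ZMod 3,
    6 * ((if a + b + c = 0 then 1 else 0) + (if a + d + e = 0 then 1 else 0) +
      (if b + d + f = 0 then 1 else 0) + (if c + e + f = 0 then 1 else 0)) +
    3 * (2 * ((if a + d + f = 0 then 1 else 0) + (if a + e + f = 0 then 1 else 0) +
      (if b + d + e = 0 then 1 else 0) + (if b + f + e = 0 then 1 else 0) +
      (if c + e + d = 0 then 1 else 0) + (if c + f + d = 0 then 1 else 0) +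
      (if a + b + f = 0 then 1 else 0) + (if a + c + f = 0 then 1 else 0) +
      (if d + b + c = 0 then 1 else 0) + (if e + c + b = 0 then 1 else 0) +
      (if d + a + c = 0 then 1 else 0) + (if e + a + b = 0 then 1 else 0))) =
      6 * r24_z (r24_i a.val b.val c.val d.val e.val f.val) := by
  decide +kernel

theorem r24_zs (d : Sym2 (Fin 4) → ZMod 3) :
    zs d = r24_z (r24_i (d s(0, 1)).val (d s(0, 2)).val (d s(0, 3)).val (d s(1, 2)).val
      (d s(1, 3)).val (d s(2, 3)).val) := by
  have h := zs_tuples d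
  have e10 : s((1 : Fin 4), 0) = s(0, 1) := Sym2.eq_swap
  have e20 : s((2 : Fin 4), 0) = s(0, 2) := Sym2.eq_swap
  have e30 : s((3 : Fin 4), 0) = s(0, 3) := Sym2.eq_swap
  have e21 : s((2 : Fin 4), 1) = s(1, 2) := Sym2.eq_swap
  have e31 : s((3 : Fin 4), 1) = s(1, 3) := Sym2.eq_swap
  have e32 : s((3 : Fin 4), 2) = s(2, 3) := Sym2.eq_swap
  rw [nS, r24_sum _ (fun x y z w hn => if_neg fun h2 => hn h2.1), nP,
    r24_sum _ (fun x y z w hn => if_neg fun h2 => hn h2.1)] at h
  simp (config := {decide := true}) only [e10, e20, e30, e21, e31, e32, true_and] at h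
  have h2 := r24_check (d s(0, 1)) (d s(0, 2)) (d s(0, 3)) (d s(1, 2)) (d s(1, 3)) (d s(2, 3))
  have h3 : 6 * zs d = 6 * r24_z (r24_i (d s(0, 1)).val (d s(0, 2)).val (d s(0, 3)).val
      (d s(1, 2)).val (d s(1, 3)).val (d s(2, 3)).val) := by
    rw [h, ← h2]
    generalize d s(0, 1) = a
    generalize d s(0, 2) = b
    generalize d s(0, 3) = c
    generalize d s(1, 2) = d'
    generalize d s(1, 3) = e
    generalize d s(2, 3) = f
    ring_nf
  omega

theorem four (c : Sym2 (Fin 4) → ZMod 3) : 1 ≤ zs c := by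
  rw [r24_zs]
  have h : ∀ a b c d e f : ZMod 3, 1 ≤ r24_z (r24_i a.val b.val c.val d.val e.val f.val) := by
    decide +kernel
  exact h _ _ _ _ _ _

/-! `K_5` -/

def r24_all (p : ℕ → Bool) : Bool := p 0 && p 1 && p 2

def r24_any (p : ℕ → Bool) : Bool := p 0 || p 1 || p 2

theorem r24_all_spec {p : ℕ → Bool} (h : r24_all p = true) (a : ZMod 3) : p a.val = true := by
  have h1 : a.val < 3 := ZMod.val_lt a
  rw [r24_all, Bool.and_eq_true, Bool.and_eq_true] at h
  obtain ⟨⟨h2, h3⟩, h4⟩ := h
  interval_cases h5 : a.val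
  · exact h2
  · exact h3
  · exact h4

theorem r24_any_spec {p : ℕ → Bool} (h : r24_any p = true) : ∃ a : ZMod 3, p a.val = true := by
  rw [r24_any, Bool.or_eq_true, Bool.or_eq_true] at h
  rcases h with (h | h) | h
  · exact ⟨0, h⟩
  · exact ⟨1, h⟩
  · exact ⟨2, h⟩

/-- the condition `Tame` -/
def r24_t (x01 x02 x03 x04 x12 x13 x14 x23 x24 x34 : ℕ) : Bool :=
  r24_any fun k => (!Nat.beq x01 k && !Nat.beq x02 k && !Nat.beq x03 k && !Nat.beq x04 k && !Nat.beq x12 k && !Nat.beq x13 k && !Nat.beq x14 k && !Nat.beq x23 k && !Nat.beq x24 k && !Nat.beq x34 k) &&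
    r24_all fun l => Nat.beq l k || ((Nat.beq x12 l || Nat.beq x13 l || Nat.beq x14 l || Nat.beq x23 l || Nat.beq x24 l || Nat.beq x34 l) &&
      (Nat.beq x02 l || Nat.beq x03 l || Nat.beq x04 l || Nat.beq x23 l || Nat.beq x24 l || Nat.beq x34 l) &&
      (Nat.beq x01 l || Nat.beq x03 l || Nat.beq x04 l || Nat.beq x13 l || Nat.beq x14 l || Nat.beq x34 l) &&
      (Nat.beq x01 l || Nat.beq x02 l || Nat.beq x04 l || Nat.beq x12 l || Nat.beq x14 l || Nat.beq x24 l) &&
      (Nat.beq x01 l || Nat.beq x02 l || Nat.beq x03 l || Nat.beq x12 l || Nat.beq x13 l || Nat.beq x23 l))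

def r24_leaf (x01 x02 x03 x04 x12 x13 x14 x23 x24 x34 : ℕ) : Bool :=
  Nat.ble 19 (r24_z (r24_i x12 x13 x14 x23 x24 x34) +
    r24_z (r24_i x02 x03 x04 x23 x24 x34) +
    r24_z (r24_i x01 x03 x04 x13 x14 x34) +
    r24_z (r24_i x01 x02 x04 x12 x14 x24) +
    r24_z (r24_i x01 x02 x03 x12 x13 x23)) ||
    r24_t x01 x02 x03 x04 x12 x13 x14 x23 x24 x34

def r24_five : Bool :=
  r24_all fun x01 =>
  r24_all fun x02 =>
  r24_all fun x03 =>
  r24_all fun x04 =>
  r24_all fun x12 =>
  r24_all fun x13 =>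
  r24_all fun x14 =>
  r24_all fun x23 =>
  r24_all fun x24 =>
  r24_all fun x34 =>
  r24_leaf x01 x02 x03 x04 x12 x13 x14 x23 x24 x34

theorem r24_five_check : r24_five = true := by
  decide +kernel

theorem r24_leaf_true (c : Sym2 (Fin 5) → ZMod 3) :
    r24_leaf (c s(0, 1)).val
    (c s(0, 2)).val
    (c s(0, 3)).val
    (c s(0, 4)).val
    (c s(1, 2)).val
    (c s(1, 3)).val
    (c s(1, 4)).val
    (c s(2, 3)).val
    (c s(2, 4)).val
    (c s(3, 4)).val = true := by
  have h := r24_five_check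
  rw [r24_five] at h
  replace h := r24_all_spec h (c s(0, 1))
  replace h := r24_all_spec h (c s(0, 2))
  replace h := r24_all_spec h (c s(0, 3))
  replace h := r24_all_spec h (c s(0, 4))
  replace h := r24_all_spec h (c s(1, 2))
  replace h := r24_all_spec h (c s(1, 3))
  replace h := r24_all_spec h (c s(1, 4))
  replace h := r24_all_spec h (c s(2, 3))
  replace h := r24_all_spec h (c s(2, 4))
  replace h := r24_all_spec h (c s(3, 4))
  exact h

theorem r24_zs5 (c : Sym2 (Fin 5) → ZMod 3) :
    zs c = r24_z (r24_i (c s(1, 2)).val (c s(1, 3)).val (c s(1, 4)).val (c s(2, 3)).val (c s(2, 4)).val (c s(3, 4)).val) +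
      r24_z (r24_i (c s(0, 2)).val (c s(0, 3)).val (c s(0, 4)).val (c s(2, 3)).val (c s(2, 4)).val (c s(3, 4)).val) +
      r24_z (r24_i (c s(0, 1)).val (c s(0, 3)).val (c s(0, 4)).val (c s(1, 3)).val (c s(1, 4)).val (c s(3, 4)).val) +
      r24_z (r24_i (c s(0, 1)).val (c s(0, 2)).val (c s(0, 4)).val (c s(1, 2)).val (c s(1, 4)).val (c s(2, 4)).val) +
      r24_z (r24_i (c s(0, 1)).val (c s(0, 2)).val (c s(0, 3)).val (c s(1, 2)).val (c s(1, 3)).val (c s(2, 3)).val) := by
  have h := del_sum (n := 4) (by norm_num) c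
  rw [show (4 - 3 : ℕ) = 1 from rfl, one_mul] at h
  rw [h, Fin.sum_univ_five, r24_zs, r24_zs, r24_zs, r24_zs, r24_zs]
  rfl

theorem r24_tame (c : Sym2 (Fin 5) → ZMod 3)
    (h : r24_t (c s(0, 1)).val (c s(0, 2)).val (c s(0, 3)).val (c s(0, 4)).val (c s(1, 2)).val (c s(1, 3)).val (c s(1, 4)).val (c s(2, 3)).val (c s(2, 4)).val (c s(3, 4)).val = true) : Tame c := by
  obtain ⟨k, hk⟩ := r24_any_spec h
  rw [Bool.and_eq_true] at hk
  obtain ⟨hk1, hk2⟩ := hk
  have hinj : ∀ a b : ZMod 3, a.val = b.val → a = b := fun a b hab => ZMod.val_injective 3 hab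
  refine ⟨k, ?_, ?_⟩
  · simp only [Bool.and_eq_true, Bool.not_eq_true'] at hk1
    obtain ⟨⟨⟨⟨⟨⟨⟨⟨⟨k0, k1⟩, k2⟩, k3⟩, k4⟩, k5⟩, k6⟩, k7⟩, k8⟩, k9⟩ := hk1
    have hne : ∀ u v : Fin 5, u < v → (c s(u, v)).val.beq k.val = false := by
      intro u v huv
      fin_cases u <;> fin_cases v <;>
        first
          | exact absurd huv (by decide)
          | assumption
    have hne' : ∀ u v : Fin 5, u < v → c s(u, v) ≠ k := by
      intro u v huv h1
      have h2 := hne u v huv
      rw [h1] at h2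
      have h3 : k.val.beq k.val = true := Nat.beq_refl _
      rw [h2] at h3
      exact absurd h3 (by decide)
    rintro ⟨u, v, huv, h1⟩
    rcases lt_or_gt_of_ne huv with h2 | h2
    · exact hne' u v h2 h1
    · rw [Sym2.eq_swap] at h1
      exact hne' v u h2 h1
  · intro l hl y
    have h2 := r24_all_spec hk2 l
    have hlk : Nat.beq l.val k.val = false := by
      rw [Bool.eq_false_iff]
      intro h3
      exact hl (hinj l k (Nat.eq_of_beq_eq_true h3))
    simp only [hlk, Bool.false_or, Bool.and_eq_true, Bool.or_eq_true] at h2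
    have hex : ∀ u v : Fin 5, u ≠ v → u ≠ y → v ≠ y → Nat.beq (c s(u, v)).val l.val = true →
        ∃ u v : Fin 5, u ≠ v ∧ u ≠ y ∧ v ≠ y ∧ c s(u, v) = l := by
      intro u v h1 h2 h3 h4
      exact ⟨u, v, h1, h2, h3, hinj _ _ (Nat.eq_of_beq_eq_true h4)⟩
    obtain ⟨⟨⟨⟨h0, h1⟩, h2⟩, h3⟩, h4⟩ := h2
    fin_cases y
    · rcases h0 with ((((h0 | h0) | h0) | h0) | h0) | h0 <;>
        exact hex _ _ (by decide) (by decide) (by decide) h0
    · rcases h1 with ((((h0 | h0) | h0) | h0) | h0) | h0 <;>
        exact hex _ _ (by decide) (by decide) (by decide) h0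
    · rcases h2 with ((((h0 | h0) | h0) | h0) | h0) | h0 <;>
        exact hex _ _ (by decide) (by decide) (by decide) h0
    · rcases h3 with ((((h0 | h0) | h0) | h0) | h0) | h0 <;>
        exact hex _ _ (by decide) (by decide) (by decide) h0
    · rcases h4 with ((((h0 | h0) | h0) | h0) | h0) | h0 <;>
        exact hex _ _ (by decide) (by decide) (by decide) h0

theorem five (c : Sym2 (Fin 5) → ZMod 3) (h : zs c < 19) : Tame c := by
  have h1 := r24_leaf_true c
  rw [r24_leaf, ← r24_zs5, Bool.or_eq_true] at h1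
  rcases h1 with h1 | h1
  · have h2 : 19 ≤ zs c := Nat.le_of_ble_eq_true h1
    omega
  · exact r24_tame c h1

end Pool.Agent.MP5f
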