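import Mathlib
import Pool.Agent.MP_5f2667_co.R06
import Pool.Agent.MP_5f2667_co.R07

set_option autoImplicit false

open Finset

/-
Proof. With colour k absent: dg c x k = 0, rb3 = 0. For an edge of colour k+1 or k+2, and s = sg: counts of the two colours are
(N+s)/2, (N-s)/2. Qe = 1/4 (s_x^2+s_y^2+s_x s_y) for every pair and Fv = (N-9)/8 * s_x^2. Sum over ordered pairs:
1/2 * sum Qe = 1/4*N*sum s^2 + 1/8((sum s)^2 - sum s^2). Total coefficient of sum s^2: N/4 - 1/8 + (N-9)/8 = (3N-10)/8 = (3n-13)/8. Tested numerically.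
-/

namespace Pool.Agent.MP5f

theorem R09_dg_zero {n : ℕ} (c : Sym2 (Fin n) → ZMod 3) (k : ZMod 3) (hk : ¬ Occ c k) (x : Fin n) :
    dg c x k = 0 := by
  unfold dg
  rw [Finset.card_eq_zero, Finset.filter_eq_empty_iff]
  rintro y - ⟨h1, h2⟩
  exact hk ⟨x, y, fun h => h1 h.symm, h2⟩

theorem R09_rb3 {n : ℕ} (c : Sym2 (Fin n) → ZMod 3) (k : ZMod 3) (hk : ¬ Occ c k) :
    rb3 c = 0 := by
  unfold rb3
  refine Finset.sum_eq_zero fun x _ => Finset.sum_eq_zero fun y _ => Finset.sum_eq_zero fun z _ => ?_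
  rw [if_neg]
  rintro ⟨⟨h1, h2, h3⟩, h4, h5, h6⟩
  have e1 : c s(x, y) ≠ k := fun h => hk ⟨x, y, h1, h⟩
  have e2 : c s(x, z) ≠ k := fun h => hk ⟨x, z, h2, h⟩
  have e3 : c s(y, z) ≠ k := fun h => hk ⟨y, z, h3, h⟩
  generalize c s(x, y) = a at *
  generalize c s(x, z) = b at *
  generalize c s(y, z) = d at *
  clear hk
  revert k a b d
  decide

theorem R09_cases (k j : ZMod 3) (h : j ≠ k) :
    (j = k + 1 ∧ j + 1 = k + 2 ∧ j + 2 = k) ∨ (j = k + 2 ∧ j + 1 = k ∧ j + 2 = k + 1) := by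
  revert k j; decide

theorem R09_F {n : ℕ} (c : Sym2 (Fin n) → ZMod 3) (k : ZMod 3) (hk : ¬ Occ c k) (x : Fin n) :
    Fv ((n : ℝ) - 1) (dg c x 0) (dg c x 1) (dg c x 2) =
      ((n : ℝ) - 10) / 8 * (sg c k x : ℝ) ^ 2 := by
  have h0 := R09_dg_zero c k hk x
  have h1 := dg_sum' c x k
  have h2 : (n : ℝ) = (dg c x k : ℝ) + dg c x (k + 1) + dg c x (k + 2) + 1 := by
    exact_mod_cast h1.symm
  have h3 : Fv ((n : ℝ) - 1) (dg c x 0) (dg c x 1) (dg c x 2) =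
      Fv ((n : ℝ) - 1) (dg c x k) (dg c x (k + 1)) (dg c x (k + 2)) := by
    clear h0 h1 h2 hk
    fin_cases k
    · have e2 : (0 : ZMod 3) + 1 = 1 := by decide
      have e3 : (0 : ZMod 3) + 2 = 2 := by decide
      change Fv ((n : ℝ) - 1) (dg c x 0) (dg c x 1) (dg c x 2) =
        Fv ((n : ℝ) - 1) (dg c x 0) (dg c x (0 + 1)) (dg c x (0 + 2))
      rw [e2, e3]
    · have e2 : (1 : ZMod 3) + 1 = 2 := by decide
      have e3 : (1 : ZMod 3) + 2 = 0 := by decide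
      change Fv ((n : ℝ) - 1) (dg c x 0) (dg c x 1) (dg c x 2) =
        Fv ((n : ℝ) - 1) (dg c x 1) (dg c x (1 + 1)) (dg c x (1 + 2))
      rw [e2, e3]
      unfold Fv
      ring
    · have e2 : (2 : ZMod 3) + 1 = 0 := by decide
      have e3 : (2 : ZMod 3) + 2 = 1 := by decide
      change Fv ((n : ℝ) - 1) (dg c x 0) (dg c x 1) (dg c x 2) =
        Fv ((n : ℝ) - 1) (dg c x 2) (dg c x (2 + 1)) (dg c x (2 + 2))
      rw [e2, e3]
      unfold Fv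
      ring
  rw [h3, h0]
  unfold sg
  push_cast
  rw [h0] at h2
  unfold Fv
  rw [h2]
  push_cast
  ring

theorem R09_Q {n : ℕ} (c : Sym2 (Fin n) → ZMod 3) (k : ZMod 3) (hk : ¬ Occ c k) (x y : Fin n)
    (hxy : x ≠ y) :
    QeC c x y = 1 / 4 * ((sg c k x : ℝ) ^ 2 + (sg c k x : ℝ) * (sg c k y : ℝ)
      + (sg c k y : ℝ) ^ 2) := by
  have h0 := R09_dg_zero c k hk x
  have h0' := R09_dg_zero c k hk y
  have h2 : (n : ℝ) = (dg c x k : ℝ) + dg c x (k + 1) + dg c x (k + 2) + 1 := by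
    exact_mod_cast (dg_sum' c x k).symm
  have h2' : (n : ℝ) = (dg c y k : ℝ) + dg c y (k + 1) + dg c y (k + 2) + 1 := by
    exact_mod_cast (dg_sum' c y k).symm
  have hj : c s(x, y) ≠ k := fun h => hk ⟨x, y, hxy, h⟩
  rw [h0] at h2
  rw [h0'] at h2'
  unfold QeC sg
  push_cast
  rcases R09_cases k _ hj with ⟨-, e2, e3⟩ | ⟨-, e2, e3⟩
  · rw [e2, e3, h0, h0']
    unfold Qe
    have t1 : (dg c x (k + 1) : ℝ) = (n : ℝ) - 1 - dg c x (k + 2) := by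
      rw [h2]; push_cast; ring
    have t2 : (dg c y (k + 1) : ℝ) = (n : ℝ) - 1 - dg c y (k + 2) := by
      rw [h2']; push_cast; ring
    rw [t1, t2]
    push_cast
    ring
  · rw [e2, e3, h0, h0']
    unfold Qe
    have t1 : (dg c x (k + 2) : ℝ) = (n : ℝ) - 1 - dg c x (k + 1) := by
      rw [h2]; push_cast; ring
    have t2 : (dg c y (k + 2) : ℝ) = (n : ℝ) - 1 - dg c y (k + 1) := by
      rw [h2']; push_cast; ring
    rw [t1, t2]
    push_cast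
    ring

theorem zs_two {n : ℕ} (hn : 1 ≤ n) (c : Sym2 (Fin n) → ZMod 3) (k : ZMod 3) (hk : ¬ Occ c k) :
    (zs c : ℝ) = Cn n + (3 * (n : ℝ) - 13) / 8 * ∑ x : Fin n, (sg c k x : ℝ) ^ 2
      + 1 / 8 * (∑ x : Fin n, (sg c k x : ℝ)) ^ 2 := by
  rw [main_identity hn c, R09_rb3 c k hk]
  have hF : ∑ x : Fin n, Fv ((n : ℝ) - 1) (dg c x 0) (dg c x 1) (dg c x 2) =
      ((n : ℝ) - 10) / 8 * ∑ x : Fin n, (sg c k x : ℝ) ^ 2 := by
    rw [Finset.mul_sum]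
    exact Finset.sum_congr rfl fun x _ => R09_F c k hk x
  have hQ : ∑ x : Fin n, ∑ y ∈ univ.erase x, QeC c x y =
      1 / 4 * (2 * ((n : ℝ) - 1) * ∑ x : Fin n, (sg c k x : ℝ) ^ 2 +
        ((∑ x : Fin n, (sg c k x : ℝ)) ^ 2 - ∑ x : Fin n, (sg c k x : ℝ) ^ 2)) := by
    have h1 : ∀ x : Fin n, ∑ y ∈ univ.erase x, QeC c x y =
        ∑ y : Fin n, 1 / 4 * ((sg c k x : ℝ) ^ 2 + (sg c k x : ℝ) * (sg c k y : ℝ)
          + (sg c k y : ℝ) ^ 2) - 1 / 4 * (3 * (sg c k x : ℝ) ^ 2) := by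
      intro x
      rw [← Finset.add_sum_erase _ _ (Finset.mem_univ x)]
      rw [Finset.sum_congr rfl fun y hy => R09_Q c k hk x y (Finset.ne_of_mem_erase hy).symm]
      ring
    rw [Finset.sum_congr rfl fun x _ => h1 x, Finset.sum_sub_distrib]
    have h2 : ∀ x : Fin n, ∑ y : Fin n, 1 / 4 * ((sg c k x : ℝ) ^ 2 + (sg c k x : ℝ) * (sg c k y : ℝ)
          + (sg c k y : ℝ) ^ 2) = 1 / 4 * ((n : ℝ) * (sg c k x : ℝ) ^ 2 +
          (sg c k x : ℝ) * ∑ y : Fin n, (sg c k y : ℝ) + ∑ y : Fin n, (sg c k y : ℝ) ^ 2) := by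
      intro x
      rw [← Finset.mul_sum, Finset.sum_add_distrib, Finset.sum_add_distrib, ← Finset.mul_sum]
      simp
    rw [Finset.sum_congr rfl fun x _ => h2 x]
    rw [← Finset.mul_sum, Finset.sum_add_distrib, Finset.sum_add_distrib, ← Finset.mul_sum,
      ← Finset.sum_mul, ← Finset.mul_sum, ← Finset.mul_sum]
    simp only [Finset.sum_const, Finset.card_univ, Fintype.card_fin, nsmul_eq_mul]
    ring
  rw [hF, hQ]
  push_cast
  ring

end Pool.Agent.MP5f
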