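import Mathlib
import Pool.Agent.MP_5f2667_co.Defs2
import Pool.Agent.MP_5f2667_co.R09

set_option autoImplicit false

open Finset

/-
Proof. zs_two. s_x = sg c k x, s_x = N mod 2 (dg(k+1)+dg(k+2) = N, N = n-1). 3n-13 > 0 for n >= 5. n even: s_x odd, sum s^2 >= n. n = 2 mod 4: moreover sum s = 2(e1-e2), e1+e2 = n(n-1)/2 odd, so (sum s)^2 >= 4 (or: integrality of zs:
Cn n + n(3n-13)/8 + 1/2 is an integer). n = 3 mod 4: e1+e2 odd so sum s = 2(e1-e2) = 2 mod 4, (sum s)^2 >= 4, some s_x != 0; all s_x even: sum s^2 >= 4. n = 1 mod 4: trivial. (sum_x dg c x j is even = 2 e_j: handshake; count ordered pairs.)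
-/

namespace Pool.Agent.MP5f

theorem R25_even {n : ℕ} (c : Sym2 (Fin n) → ZMod 3) (j : ZMod 3) :
    ∃ A : ℕ, ∑ x : Fin n, dg c x j = 2 * A := by
  classical
  let G : SimpleGraph (Fin n) :=
    { Adj := fun x y => y ≠ x ∧ c s(x, y) = j
      symm := ⟨fun x y h => ⟨h.1.symm, by rw [Sym2.eq_swap]; exact h.2⟩⟩
      loopless := ⟨fun x h => h.1 rfl⟩ }
  refine ⟨G.edgeFinset.card, ?_⟩
  rw [← G.sum_degrees_eq_twice_card_edges]
  apply Finset.sum_congr rfl
  intro x _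
  rw [← SimpleGraph.card_neighborFinset_eq_degree, SimpleGraph.neighborFinset_eq_filter]
  unfold dg
  congr 1

theorem R25_four (T : ℤ) (h : ∃ t : ℤ, T = 4 * t + 2) : 4 ≤ T ^ 2 := by
  obtain ⟨t, rfl⟩ := h
  have : 0 ≤ t ∨ t ≤ -1 := by omega
  rcases this with h | h <;> nlinarith

/-- lower bounds for colourings which miss a colour -/
theorem two_lower {n : ℕ} (hn : 5 ≤ n) (c : Sym2 (Fin n) → ZMod 3) (k : ZMod 3) (hk : ¬ Occ c k) :
    Cn n + Par n ≤ zs c := by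
  rw [zs_two (by omega) c k hk]
  have hn' : (5 : ℝ) ≤ n := by exact_mod_cast hn
  have h0 : ∀ x, dg c x k = 0 := by
    intro x
    unfold dg
    rw [Finset.card_eq_zero, Finset.filter_eq_empty_iff]
    rintro y - ⟨h1, h2⟩
    exact hk ⟨x, y, h1.symm, h2⟩
  have hs : ∀ x, sg c k x = 2 * (dg c x (k + 1) : ℤ) - (n - 1) := by
    intro x
    have := dg_sum' c x k
    rw [h0 x] at this
    unfold sg
    omega
  obtain ⟨A, hA⟩ := R25_even c (k + 1)
  have hsum : ∑ x : Fin n, sg c k x = 4 * (A : ℤ) - n * (n - 1) := by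
    have h1 : ∑ x : Fin n, sg c k x = ∑ x : Fin n, (2 * (dg c x (k + 1) : ℤ) - (n - 1)) :=
      Finset.sum_congr rfl (fun x _ => hs x)
    rw [h1, Finset.sum_sub_distrib, ← Finset.mul_sum, ← Nat.cast_sum, hA]
    simp
    ring
  have hS1 : ∑ x : Fin n, (sg c k x : ℝ) = ((∑ x : Fin n, sg c k x : ℤ) : ℝ) := by push_cast; rfl
  have hS2 : ∑ x : Fin n, (sg c k x : ℝ) ^ 2 = ((∑ x : Fin n, sg c k x ^ 2 : ℤ) : ℝ) := by
    push_cast; rfl
  rw [hS1, hS2]
  set T : ℤ := ∑ x : Fin n, sg c k x with hT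
  set Q : ℤ := ∑ x : Fin n, sg c k x ^ 2 with hQ
  have hQ0 : 0 ≤ Q := Finset.sum_nonneg (fun x _ => sq_nonneg _)
  have hQ0' : (0 : ℝ) ≤ Q := by exact_mod_cast hQ0
  have hT0 : (0 : ℝ) ≤ (T : ℝ) ^ 2 := sq_nonneg _
  have hcoef : 0 ≤ (3 * (n : ℝ) - 13) / 8 := by linarith
  have heven : n % 2 = 0 → (n : ℝ) ≤ Q := by
    intro he
    have h1 : ∀ x : Fin n, 1 ≤ sg c k x ^ 2 := by
      intro x
      have h2 : sg c k x ≠ 0 := by
        rw [hs x]; omega
      have h3 : 0 < sg c k x ^ 2 := by positivity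
      omega
    have h2 : ∑ x : Fin n, (1 : ℤ) ≤ Q := Finset.sum_le_sum (fun x _ => h1 x)
    have h3 : (n : ℤ) ≤ Q := by simpa using h2
    exact_mod_cast h3
  unfold Par
  have hmod : n % 4 = 0 ∨ n % 4 = 1 ∨ n % 4 = 2 ∨ n % 4 = 3 := by omega
  rcases hmod with h | h | h | h
  · rw [if_neg (by omega), if_neg (by omega), if_pos h]
    have h1 := heven (by omega)
    have h2 := mul_le_mul_of_nonneg_left h1 hcoef
    linarith
  · rw [if_pos h]
    have h2 := mul_nonneg hcoef hQ0'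
    linarith
  · rw [if_neg (by omega), if_neg (by omega), if_neg (by omega)]
    have h1 := heven (by omega)
    have h2 := mul_le_mul_of_nonneg_left h1 hcoef
    have h3 : 4 ≤ T ^ 2 := by
      apply R25_four
      obtain ⟨m, hm⟩ : ∃ m : ℕ, n = 4 * m + 2 := ⟨n / 4, by omega⟩
      refine ⟨A - 4 * m ^ 2 - 3 * m - 1, ?_⟩
      rw [hsum, hm]
      push_cast
      ring
    have h4 : (4 : ℝ) ≤ (T : ℝ) ^ 2 := by exact_mod_cast h3
    linarith
  · rw [if_neg (by omega), if_pos h]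
    have h3 : 4 ≤ T ^ 2 := by
      apply R25_four
      obtain ⟨m, hm⟩ : ∃ m : ℕ, n = 4 * m + 3 := ⟨n / 4, by omega⟩
      refine ⟨A - 4 * m ^ 2 - 5 * m - 2, ?_⟩
      rw [hsum, hm]
      push_cast
      ring
    have h4 : (4 : ℝ) ≤ (T : ℝ) ^ 2 := by exact_mod_cast h3
    have h5 : 4 ≤ Q := by
      have h6 : ∃ x : Fin n, sg c k x ≠ 0 := by
        by_contra hno
        push Not at hno
        have : T = 0 := Finset.sum_eq_zero (fun x _ => hno x)
        rw [this] at h3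
        norm_num at h3
      obtain ⟨x, hx⟩ := h6
      have h7 : 4 ≤ sg c k x ^ 2 := by
        have h8 : 2 ≤ sg c k x ∨ sg c k x ≤ -2 := by
          rw [hs x] at hx ⊢
          omega
        rcases h8 with h8 | h8 <;> nlinarith
      have h9 : sg c k x ^ 2 ≤ Q :=
        Finset.single_le_sum (f := fun x => sg c k x ^ 2) (fun y _ => sq_nonneg _)
          (Finset.mem_univ x)
      linarith
    have h6 : (4 : ℝ) ≤ (Q : ℝ) := by exact_mod_cast h5
    have h2 := mul_le_mul_of_nonneg_left h6 hcoef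
    linarith

end Pool.Agent.MP5f
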