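import Mathlib
import Pool.Agent.MP_5f2667_co.R09
import Pool.Agent.MP_5f2667_co.R23
import Pool.Agent.MP_5f2667_co.R25

set_option autoImplicit false

open Finset

/-
del_step: del_sum. Call x bad if zs (del c x) < L; then del c x is Tame: it misses a colour k, and as k occurs in c, all k-edges of c contain x. Two bad x != y with missing colours k, l: if k != l, Tame for del c x gives an edge avoiding x and y of colour l,
contradiction with all l-edges containing y. So k = l and the k-edges contain both x and y: the only k-edge is xy; a third bad z (same colour k by the same argument) would lie on it, contradiction. So at most two bad vertices.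
For bad x: two_lower gives Cn n + Par n <= zs (del c x) (<= L by hLM). So (n-3) zs c = sum >= (n+1-b)L + b(Cn n+Par n) >= (n-1)L+2(Cn n+Par n), b <= 2.
mono_big: del c y has only colour k: zs_two (with a missing colour j != k; sg = +-(n-1)) gives zs (del c y) = 16*choose n 4; del_le.
  (Cn n + (3n-13)/8*n*(n-1)^2 + (n(n-1))^2/8 = 16*n(n-1)(n-2)(n-3)/24.)
tame_step: if all colours occur, del_step and h1 contradict zs c <= L'-1. Otherwise colour k is absent; if for some l != k, y every edge avoiding y has colour != l, all of them have the third colour, mono_big contradicts h2.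
-/

namespace Pool.Agent.MP5f

theorem R26_del {n : ℕ} (c : Sym2 (Fin (n + 1)) → ZMod 3) (x : Fin (n + 1)) (u v : Fin n) :
    del c x s(u, v) = c s(x.succAbove u, x.succAbove v) := rfl

/-- all edges of a colour missing in `del c x` contain `x` -/
theorem R26_contains {n : ℕ} (c : Sym2 (Fin (n + 1)) → ZMod 3) (x : Fin (n + 1)) (k : ZMod 3)
    (hk : ¬ Occ (del c x) k) (u v : Fin (n + 1)) (huv : u ≠ v) (hc : c s(u, v) = k) :
    u = x ∨ v = x := by
  by_contra hne
  push Not at hne
  obtain ⟨u', hu'⟩ := Fin.exists_succAbove_eq hne.1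
  obtain ⟨v', hv'⟩ := Fin.exists_succAbove_eq hne.2
  apply hk
  refine ⟨u', v', ?_, ?_⟩
  · intro h
    apply huv
    rw [← hu', ← hv', h]
  · rw [R26_del, hu', hv', hc]

/-- two bad vertices have the same missing colour -/
theorem R26_same {n : ℕ} (c : Sym2 (Fin (n + 1)) → ZMod 3) (x y : Fin (n + 1)) (hxy : x ≠ y)
    (k l : ZMod 3)
    (hx : ∀ l, l ≠ k → ∀ y : Fin n, ∃ u v : Fin n, u ≠ v ∧ u ≠ y ∧ v ≠ y ∧ del c x s(u, v) = l)
    (hl : ¬ Occ (del c y) l) : l = k := by
  by_contra hlk
  obtain ⟨y', hy'⟩ := Fin.exists_succAbove_eq hxy.symm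
  obtain ⟨u, v, huv, huy, hvy, huvl⟩ := hx l hlk y'
  rw [R26_del] at huvl
  rcases R26_contains c y l hl _ _ (fun h => huv (Fin.succAbove_right_injective h)) huvl with h | h
  · rw [← hy'] at h
    exact huy (Fin.succAbove_right_injective h)
  · rw [← hy'] at h
    exact hvy (Fin.succAbove_right_injective h)

theorem R26_choose (n : ℕ) (hn : 4 ≤ n) :
    ((n.choose 4 : ℕ) : ℝ) = n * (n - 1) * (n - 2) * (n - 3) / 24 := by
  obtain ⟨m, rfl⟩ : ∃ m, n = m + 4 := ⟨n - 4, by omega⟩
  have h1 := Nat.descFactorial_eq_factorial_mul_choose (m + 4) 4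
  have h2 : (m + 4).descFactorial 4 = (m + 1) * ((m + 2) * ((m + 3) * (m + 4))) := by
    simp [Nat.descFactorial_succ]
  have h3 : (4 : ℕ).factorial = 24 := rfl
  rw [h2, h3] at h1
  have h4 : ((m : ℝ) + 1) * ((m + 2) * ((m + 3) * (m + 4))) = 24 * ((m + 4).choose 4 : ℕ) := by
    exact_mod_cast h1
  push_cast
  linarith

theorem R26_k1 : ∀ k : ZMod 3, k + 1 ≠ k := by decide

theorem R26_k2 : ∀ k : ZMod 3, k + 2 ≠ k := by decide

theorem R26_k3 : ∀ k : ZMod 3, k + 1 + 2 = k := by decide

theorem R26_k4 : ∀ k : ZMod 3, k + 1 + 1 = k + 2 := by decide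

theorem R26_third (k l m : ZMod 3) (hlk : l ≠ k) (hk : m ≠ k) (hl : m ≠ l) : m = -(k + l) := by
  revert k l m
  decide

/-- one step of the vertex deletion argument -/
theorem del_step {n L : ℕ} (hn : 5 ≤ n) (hL : ∀ c : Sym2 (Fin n) → ZMod 3, zs c < L → Tame c)
    (hLM : Cn n + Par n ≤ L) (c : Sym2 (Fin (n + 1)) → ZMod 3) (hc : ∀ k, Occ c k) :
    ((n : ℝ) - 1) * L + 2 * (Cn n + Par n) ≤ ((n : ℝ) - 3) * zs c := by
  classical
  set bad : Finset (Fin (n + 1)) := univ.filter fun x => zs (del c x) < L with hbad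
  have hb : ∀ x ∈ bad, ∃ k, ¬ Occ (del c x) k ∧ ∀ l, l ≠ k → ∀ y : Fin n, ∃ u v : Fin n,
      u ≠ v ∧ u ≠ y ∧ v ≠ y ∧ del c x s(u, v) = l := by
    intro x hx
    rw [hbad, Finset.mem_filter] at hx
    exact hL _ hx.2
  have hcard : bad.card ≤ 2 := by
    by_contra hgt
    push Not at hgt
    obtain ⟨x, hx, y, hy, z, hz, hxy, hxz, hyz⟩ := Finset.two_lt_card.1 hgt
    obtain ⟨k, hk1, hk2⟩ := hb x hx
    obtain ⟨l, hl1, hl2⟩ := hb y hy
    obtain ⟨m, hm1, hm2⟩ := hb z hz
    have e1 : l = k := R26_same c x y hxy k l hk2 hl1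
    have e2 : m = k := R26_same c x z hxz k m hk2 hm1
    subst e1
    subst e2
    obtain ⟨u, v, huv, hcol⟩ := hc m
    have f1 := R26_contains c x m hk1 u v huv hcol
    have f2 := R26_contains c y m hl1 u v huv hcol
    have f3 := R26_contains c z m hm1 u v huv hcol
    rcases f1 with f1 | f1 <;> rcases f2 with f2 | f2 <;> rcases f3 with f3 | f3 <;>
      first
      | exact hxy (f1.symm.trans f2)
      | exact hxz (f1.symm.trans f3)
      | exact hyz (f2.symm.trans f3)
  have hlow : ∀ x, (if x ∈ bad then Cn n + Par n else (L : ℝ)) ≤ zs (del c x) := by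
    intro x
    split_ifs with hx
    · obtain ⟨k, hk1, -⟩ := hb x hx
      exact two_lower hn (del c x) k hk1
    · have : L ≤ zs (del c x) := by
        by_contra hlt
        push Not at hlt
        exact hx (by rw [hbad, Finset.mem_filter]; exact ⟨Finset.mem_univ _, hlt⟩)
      exact_mod_cast this
  have hsum := del_sum (n := n) (by omega) c
  have hsum' : ((n : ℝ) - 3) * zs c = ∑ x : Fin (n + 1), (zs (del c x) : ℝ) := by
    have h3 : ((n - 3 : ℕ) : ℝ) = (n : ℝ) - 3 := by
      rw [Nat.cast_sub (by omega)]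
      norm_num
    rw [← h3]
    exact_mod_cast hsum
  rw [hsum']
  have hge : ∑ x : Fin (n + 1), (if x ∈ bad then Cn n + Par n else (L : ℝ)) ≤
      ∑ x : Fin (n + 1), (zs (del c x) : ℝ) := Finset.sum_le_sum fun x _ => hlow x
  refine le_trans ?_ hge
  have hcalc : ∑ x : Fin (n + 1), (if x ∈ bad then Cn n + Par n else (L : ℝ)) =
      (n + 1) * L + bad.card * (Cn n + Par n - L) := by
    have e1 : ∀ x : Fin (n + 1), (if x ∈ bad then Cn n + Par n else (L : ℝ)) =
        L + (if x ∈ bad then Cn n + Par n - L else 0) := by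
      intro x
      split_ifs <;> ring
    rw [Finset.sum_congr rfl fun x _ => e1 x, Finset.sum_add_distrib, Finset.sum_const,
      Finset.card_univ, Fintype.card_fin, Finset.sum_ite_mem, Finset.univ_inter,
      Finset.sum_const, nsmul_eq_mul, nsmul_eq_mul]
    push_cast
    ring
  rw [hcalc]
  have hcard' : (bad.card : ℝ) ≤ 2 := by exact_mod_cast hcard
  nlinarith [mul_nonneg (sub_nonneg.2 hcard') (sub_nonneg.2 hLM)]

/-- if all edges avoiding `y` have one colour there are many zero-sum trees -/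
theorem mono_big {n : ℕ} (hn : 4 ≤ n) (c : Sym2 (Fin (n + 1)) → ZMod 3) (y : Fin (n + 1)) (k : ZMod 3)
    (h : ∀ u v, u ≠ v → u ≠ y → v ≠ y → c s(u, v) = k) : 16 * n.choose 4 ≤ zs c := by
  classical
  have hcol : ∀ u v : Fin n, u ≠ v → del c y s(u, v) = k := by
    intro u v huv
    rw [R26_del]
    exact h _ _ (fun h' => huv (Fin.succAbove_right_injective h')) (Fin.succAbove_ne y u)
      (Fin.succAbove_ne y v)
  have hdg : ∀ x j, j ≠ k → dg (del c y) x j = 0 := by
    intro x j hj
    rw [dg, Finset.card_eq_zero, Finset.filter_eq_empty_iff]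
    rintro z - ⟨hzx, hz⟩
    rw [hcol x z hzx.symm] at hz
    exact hj hz.symm
  have hk1 : k + 1 ≠ k := R26_k1 k
  have hk2 : k + 2 ≠ k := R26_k2 k
  have hk3 : k + 1 + 2 = k := R26_k3 k
  have hk4 : k + 1 + 1 = k + 2 := R26_k4 k
  have hocc : ¬ Occ (del c y) (k + 1) := by
    rintro ⟨u, v, huv, huv'⟩
    rw [hcol u v huv] at huv'
    exact hk1 huv'.symm
  have hsg : ∀ x, (sg (del c y) (k + 1) x : ℝ) = -((n : ℝ) - 1) := by
    intro x
    have e1 := dg_sum' (del c y) x k
    rw [hdg x (k + 1) hk1, hdg x (k + 2) hk2] at e1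
    rw [sg, hk3, hk4, hdg x (k + 2) hk2]
    have e2 : (dg (del c y) x k : ℝ) + 1 = n := by exact_mod_cast e1
    push_cast
    linarith
  have h2 := zs_two (by omega) (del c y) (k + 1) hocc
  simp only [hsg] at h2
  rw [Finset.sum_const, Finset.sum_const, Finset.card_univ, Fintype.card_fin, nsmul_eq_mul,
    nsmul_eq_mul] at h2
  have h3 : (zs (del c y) : ℝ) = 16 * ((n.choose 4 : ℕ) : ℝ) := by
    rw [h2, R26_choose n hn, Cn]
    ring
  have h4 : zs (del c y) = 16 * n.choose 4 := by exact_mod_cast h3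
  rw [← h4]
  exact del_le c y

/-- from the step to the next level -/
theorem tame_step {n L L' : ℕ} (hn : 5 ≤ n) (hL : ∀ c : Sym2 (Fin n) → ZMod 3, zs c < L → Tame c)
    (hLM : Cn n + Par n ≤ L)
    (h1 : ((n : ℝ) - 3) * (L' - 1) < ((n : ℝ) - 1) * L + 2 * (Cn n + Par n))
    (h2 : L' ≤ 16 * n.choose 4) (c : Sym2 (Fin (n + 1)) → ZMod 3) (h : zs c < L') : Tame c := by
  classical
  by_cases hall : ∀ k, Occ c k
  · exfalso
    have h3 := del_step hn hL hLM c hall
    have h4 : (zs c : ℝ) ≤ L' - 1 := by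
      have : zs c + 1 ≤ L' := h
      have h5 : (zs c : ℝ) + 1 ≤ L' := by exact_mod_cast this
      linarith
    have hn' : (0 : ℝ) ≤ (n : ℝ) - 3 := by
      have : (5 : ℝ) ≤ n := by exact_mod_cast hn
      linarith
    have h5 := mul_le_mul_of_nonneg_left h4 hn'
    linarith
  · push Not at hall
    obtain ⟨k, hk⟩ := hall
    refine ⟨k, hk, ?_⟩
    intro l hlk y
    by_contra hno
    push Not at hno
    have h3 : ∀ u v, u ≠ v → u ≠ y → v ≠ y → c s(u, v) = -(k + l) := by
      intro u v huv huy hvy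
      apply R26_third k l _ hlk
      · intro h'
        exact hk ⟨u, v, huv, h'⟩
      · exact hno u v huv huy hvy
    have h4 := mono_big (by omega) c y _ h3
    omega

end Pool.Agent.MP5f
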