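import Mathlib
import Pool.Agent.MP_5f2667_co.R24
import Pool.Agent.MP_5f2667_co.R26

set_option autoImplicit false

open Finset

/-
Proof. K_5: five, L=19 (Cn 5 + Par 5 = 10). tame_step n=5: L'=48; n=6: L=48, L'=106; n=7: L=106, L'=205 (Cn+Par: 10, 38, 92, 200, 360 for n=5..9). For n=5..8: all colours occur so c is not Tame, zs c >= L >= Cn+Par.
n=9: del_step with n=8, L=205: 7*205+2*200 = 1835 <= 5 zs, zs >= 367 >= 360. Check: (5-3)*47=94<96; 3*105=315<5*48+2*38=316; 4*204=816<6*106+2*92=820; 16*choose: 80,240,560.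
-/

namespace Pool.Agent.MP5f

theorem R27_val5 : Cn 5 + Par 5 = 10 := by
  norm_num [Cn, Par]

theorem R27_val6 : Cn 6 + Par 6 = 38 := by
  norm_num [Cn, Par]

theorem R27_val7 : Cn 7 + Par 7 = 92 := by
  norm_num [Cn, Par]

theorem R27_val8 : Cn 8 + Par 8 = 200 := by
  norm_num [Cn, Par]

theorem R27_val9 : Cn 9 + Par 9 = 360 := by
  norm_num [Cn, Par]

theorem R27_T6 (c : Sym2 (Fin 6) → ZMod 3) (h : zs c < 48) : Tame c := by
  refine tame_step (n := 5) (L := 19) (L' := 48) (by norm_num) five ?_ ?_ (by decide) c h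
  · rw [R27_val5]; norm_num
  · have := R27_val5
    push_cast
    rw [this]
    norm_num

theorem R27_T7 (c : Sym2 (Fin 7) → ZMod 3) (h : zs c < 106) : Tame c := by
  refine tame_step (n := 6) (L := 48) (L' := 106) (by norm_num) R27_T6 ?_ ?_ (by decide) c h
  · rw [R27_val6]; norm_num
  · rw [R27_val6]; norm_num

theorem R27_T8 (c : Sym2 (Fin 8) → ZMod 3) (h : zs c < 205) : Tame c := by
  refine tame_step (n := 7) (L := 106) (L' := 205) (by norm_num) R27_T7 ?_ ?_ (by decide) c h
  · rw [R27_val7]; norm_num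
  · rw [R27_val7]; norm_num

theorem R27_not_tame {n : ℕ} {c : Sym2 (Fin n) → ZMod 3} (hc : ∀ k, Occ c k) : ¬ Tame c := by
  rintro ⟨k, hk, _⟩
  exact hk (hc k)

/-- small cases: colourings of `K_n`, `5 ≤ n ≤ 9`, using all three colours -/
theorem small {n : ℕ} (h5 : 5 ≤ n) (h9 : n ≤ 9) (c : Sym2 (Fin n) → ZMod 3) (hc : ∀ k, Occ c k) :
    Cn n + Par n ≤ zs c := by
  interval_cases n
  · rw [R27_val5]
    have h1 : 19 ≤ zs c := by
      by_contra hcon
      exact R27_not_tame hc (five c (by omega))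
    have h2 : (19 : ℝ) ≤ zs c := by exact_mod_cast h1
    linarith
  · rw [R27_val6]
    have h1 : 48 ≤ zs c := by
      by_contra hcon
      exact R27_not_tame hc (R27_T6 c (by omega))
    have h2 : (48 : ℝ) ≤ zs c := by exact_mod_cast h1
    linarith
  · rw [R27_val7]
    have h1 : 106 ≤ zs c := by
      by_contra hcon
      exact R27_not_tame hc (R27_T7 c (by omega))
    have h2 : (106 : ℝ) ≤ zs c := by exact_mod_cast h1
    linarith
  · rw [R27_val8]
    have h1 : 205 ≤ zs c := by
      by_contra hcon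
      exact R27_not_tame hc (R27_T8 c (by omega))
    have h2 : (205 : ℝ) ≤ zs c := by exact_mod_cast h1
    linarith
  · rw [R27_val9]
    have h1 := del_step (n := 8) (L := 205) (by norm_num) R27_T8
      (by rw [R27_val8]; norm_num) c hc
    rw [R27_val8] at h1
    push_cast at h1
    linarith

end Pool.Agent.MP5f
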