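import Mathlib
import Pool.Agent.MP_5f2667_co.Defs

set_option autoImplicit false

open Finset

/-
Proof hint. Same trees in both counts; a tree on 4 vertices has exactly 3 edges, and for three values a,b,e in
{0,1} seen in ZMod 3 the sum is 0 iff a=b=e. (Both sides are ncard of a set of graphs: show the sets are equal.)
IsTree.card_edgeFinset gives 3 edges for T.induce U; transfer to T.edgeSet (T is supported on U).
-/

namespace Pool.Agent.MP5f

theorem R02_card {n : ℕ} {T : SimpleGraph (Fin n)} {U : Finset (Fin n)} (hU : U.card = 3 + 1)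
    (hs : ∀ u v, T.Adj u v → u ∈ U) (ht : (T.induce (U : Set (Fin n))).IsTree) :
    T.edgeSet.ncard = 3 := by
  classical
  have h1 : T.edgeSet = (Sym2.map (fun v : ↥(U : Set (Fin n)) => (v : Fin n))) ''
      (T.induce (U : Set (Fin n))).edgeSet := by
    ext e
    induction e using Sym2.ind with
    | _ x y =>
      constructor
      · intro h
        rw [SimpleGraph.mem_edgeSet] at h
        refine ⟨s(⟨x, hs x y h⟩, ⟨y, hs y x h.symm⟩), ?_, rfl⟩
        rw [SimpleGraph.mem_edgeSet]
        exact h
      · rintro ⟨e, he, hxy⟩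
        induction e using Sym2.ind with
        | _ a b =>
          rw [SimpleGraph.mem_edgeSet] at he
          rw [← hxy, Sym2.map_mk, SimpleGraph.mem_edgeSet]
          exact he
  rw [h1, Set.ncard_image_of_injective _ (Sym2.map.injective Subtype.val_injective)]
  have h2 := ht.card_edgeFinset
  rw [← SimpleGraph.coe_edgeFinset, Set.ncard_coe_finset]
  have h3 : Fintype.card ((U : Set (Fin n)) : Type) = 4 := by
    simp [hU]
  rw [h3] at h2
  omega

theorem R02_fin (a b e : Fin 2) : ((a : ℕ) : ZMod 3) + (((b : ℕ) : ZMod 3) + ((e : ℕ) : ZMod 3)) = 0 ↔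
    ∃ i : Fin 2, a = i ∧ b = i ∧ e = i := by
  revert a b e
  decide

theorem mono_eq {n : ℕ} (c : Sym2 (Fin n) → Fin 2) : mono c = zs (lift2 c) := by
  unfold mono zs
  congr 1
  ext T
  simp only [Set.mem_ofPred_eq]
  refine and_congr_right ?_
  rintro ⟨U, hU, hs, ht⟩
  obtain ⟨x, y, z, hxy, hxz, hyz, he⟩ := Set.ncard_eq_three.1 (R02_card hU hs ht)
  rw [he, finsum_mem_insert _ (by simp [hxy, hxz]) (by simp), finsum_mem_pair hyz]
  unfold lift2
  rw [R02_fin]
  simp

end Pool.Agent.MP5f
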