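import Mathlib
import Pool.Agent.MP_5f2667_co.R01
import Pool.Agent.MP_5f2667_co.R02

set_option autoImplicit false

open Finset

/-
tiny: no finset of card 4 in Fin n, n <= 3. four_mono: star at vertex 0 coloured 1, the other edges 0 (only the star itself is monochromatic). Use mono_eq and zs_tuples (import R01 if you like) and decide.
-/

namespace Pool.Agent.MP5f

theorem tiny {n : ℕ} (hn : n ≤ 3) (c : Sym2 (Fin n) → Fin 2) : mono c = 0 := by
  unfold mono
  convert Set.ncard_empty (SimpleGraph (Fin n))
  rw [Set.eq_empty_iff_forall_notMem]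
  rintro T ⟨⟨U, hU, _⟩, _⟩
  have := Finset.card_le_univ U
  rw [hU, Fintype.card_fin] at this
  omega

/-- edges at the vertex `0` have colour 1 -/
def R28_c : Sym2 (Fin 4) → Fin 2 := fun e => if (0 : Fin 4) ∈ e then 1 else 0

theorem R28_nS : nS (lift2 R28_c) = 6 := by decide +kernel

theorem R28_nP : nP (lift2 R28_c) = 0 := by decide +kernel

theorem four_mono : ∃ c : Sym2 (Fin 4) → Fin 2, mono c = 1 := by
  refine ⟨R28_c, ?_⟩
  have h := zs_tuples (lift2 R28_c)
  rw [R28_nS, R28_nP] at h
  rw [mono_eq]
  omega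

end Pool.Agent.MP5f
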