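import Mathlib
import Pool.Agent.MP_5f2667_co.R08
import Pool.Agent.MP_5f2667_co.R19
import Pool.Agent.MP_5f2667_co.R21
import Pool.Agent.MP_5f2667_co.R22
import Pool.Agent.MP_5f2667_co.R27
import Pool.Agent.MP_5f2667_co.R28

set_option autoImplicit false

open Finset

namespace Pool.Agent.MP5f

/-- the value of both minima -/
theorem lower_three {n : ℕ} (hn : 5 ≤ n) (c : Sym2 (Fin n) → ZMod 3) (hc : ∀ k, Occ c k) :
    Cn n + Par n ≤ zs c := by
  by_cases h9 : n ≤ 9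
  · exact small hn h9 c hc
  push Not at h9
  have hz := zs_lower (by omega : 2 ≤ n) c
  have hmod : n % 4 = 0 ∨ n % 4 = 1 ∨ n % 4 = 2 ∨ n % 4 = 3 := by omega
  have heven : Even n → (n : ℝ) * (3 * n - 13) / 4 ≤ ∑ x : Fin n, ∑ y ∈ univ.erase x, PsC c x y := by
    intro he
    by_cases h10 : n = 10
    · subst h10
      have := ten c
      norm_num at this ⊢
      linarith
    · exact even_big (by
        obtain ⟨k, hk⟩ := he
        omega) he c
  rcases hmod with h | h | h | h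
  · have he : Even n := ⟨n / 2, by omega⟩
    have := heven he
    have hp : Par n = (n : ℝ) * (3 * n - 13) / 8 := by
      unfold Par
      rw [if_neg (by omega), if_neg (by omega), if_pos h]
    rw [hp]
    linarith
  · have hp : Par n = 0 := by
      unfold Par
      rw [if_pos h]
    rw [hp]
    have : 0 ≤ ∑ x : Fin n, ∑ y ∈ univ.erase x, PsC c x y := by
      apply Finset.sum_nonneg
      intro x _
      apply Finset.sum_nonneg
      intro y hy
      exact PsC_nonneg (by omega) c x y (Finset.ne_of_mem_erase hy).symm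
    linarith
  · have he : Even n := ⟨n / 2, by omega⟩
    have h1 := heven he
    have hp : Par n = (n : ℝ) * (3 * n - 13) / 8 + 1 / 2 := by
      unfold Par
      rw [if_neg (by omega), if_neg (by omega), if_neg (by omega)]
    rw [hp]
    -- integrality
    have h2 : Cn n + (n : ℝ) * (3 * n - 13) / 8 ≤ zs c := by linarith
    obtain ⟨m, hm⟩ : ∃ m : ℕ, n = 4 * m + 2 := ⟨n / 4, by omega⟩
    have h3 : ∃ z : ℤ, Cn n + ((n : ℝ) * (3 * n - 13) / 8 + 1 / 2) = z := by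
      have h24 : ∃ t : ℤ, ((n : ℤ) * (n - 1) * (4 * (n : ℤ) ^ 2 - 29 * n + 57) + 3 * (n : ℤ) * (3 * n - 13) + 12) = 24 * t := by
        have : ((n : ℤ) * (n - 1) * (4 * (n : ℤ) ^ 2 - 29 * n + 57) + 3 * (n : ℤ) * (3 * n - 13) + 12) % 24 = 0 := by
          rw [hm]
          push_cast
          have hmm : ((m : ℤ) % 24 = 0 ∨ (m : ℤ) % 24 = 1 ∨ (m : ℤ) % 24 = 2 ∨ (m : ℤ) % 24 = 3 ∨ (m : ℤ) % 24 = 4 ∨ (m : ℤ) % 24 = 5
            ∨ (m : ℤ) % 24 = 6 ∨ (m : ℤ) % 24 = 7 ∨ (m : ℤ) % 24 = 8 ∨ (m : ℤ) % 24 = 9 ∨ (m : ℤ) % 24 = 10 ∨ (m : ℤ) % 24 = 11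
            ∨ (m : ℤ) % 24 = 12 ∨ (m : ℤ) % 24 = 13 ∨ (m : ℤ) % 24 = 14 ∨ (m : ℤ) % 24 = 15 ∨ (m : ℤ) % 24 = 16 ∨ (m : ℤ) % 24 = 17
            ∨ (m : ℤ) % 24 = 18 ∨ (m : ℤ) % 24 = 19 ∨ (m : ℤ) % 24 = 20 ∨ (m : ℤ) % 24 = 21 ∨ (m : ℤ) % 24 = 22 ∨ (m : ℤ) % 24 = 23) := by omega
          rcases hmm with h | h | h | h | h | h | h | h | h | h | h | h | h | h | h | h | h | h | h | h | h | h | h | h <;>
            simp [Int.add_emod, Int.mul_emod, Int.sub_emod, pow_succ, h]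
        exact ⟨_, (Int.mul_ediv_cancel' (Int.dvd_of_emod_eq_zero this)).symm⟩
      obtain ⟨t, ht⟩ := h24
      refine ⟨t, ?_⟩
      have ht' : ((n : ℝ) * (n - 1) * (4 * (n : ℝ) ^ 2 - 29 * n + 57) + 3 * (n : ℝ) * (3 * n - 13) + 12) = 24 * t := by
        exact_mod_cast ht
      unfold Cn
      linarith
    obtain ⟨z, hz'⟩ := h3
    rw [hz']
    have : (z : ℝ) - 1 < zs c := by
      rw [← hz']
      linarith
    have h4 : z - 1 < (zs c : ℤ) := by exact_mod_cast this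
    have h5 : z ≤ (zs c : ℤ) := by omega
    exact_mod_cast h5
  · have hp : Par n = (3 * (n : ℝ) - 12) / 2 := by
      unfold Par
      rw [if_neg (by omega), if_pos h]
    rw [hp]
    have := three_colours (by omega : 11 ≤ n) c hc
    linarith

theorem lower_all {n : ℕ} (hn : 5 ≤ n) (c : Sym2 (Fin n) → ZMod 3) : Cn n + Par n ≤ zs c := by
  by_cases hc : ∀ k, Occ c k
  · exact lower_three hn c hc
  · push Not at hc
    obtain ⟨k, hk⟩ := hc
    exact two_lower hn c k hk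

theorem not_occ_lift2 {n : ℕ} (c : Sym2 (Fin n) → Fin 2) : ¬ Occ (lift2 c) 2 := by
  rintro ⟨x, y, _, h⟩
  unfold lift2 at h
  have : ∀ i : Fin 2, ((i : ℕ) : ZMod 3) ≠ 2 := by decide
  exact this _ h

theorem attained {n : ℕ} (hn : 5 ≤ n) : ∃ c : Sym2 (Fin n) → Fin 2, (mono c : ℝ) = Cn n + Par n := by
  obtain ⟨c, h1, h2⟩ := exists_two (by omega : 4 ≤ n)
  refine ⟨c, ?_⟩
  rw [mono_eq, zs_two (by omega) (lift2 c) 2 (not_occ_lift2 c)]
  have h1' : ∑ x : Fin n, (sg (lift2 c) 2 x : ℝ) ^ 2 =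
      if n % 4 = 1 then 0 else if n % 4 = 3 then 4 else (n : ℝ) := by
    have := congrArg (fun z : ℤ => (z : ℝ)) h1
    push_cast at this
    simpa using this
  have h2' : (∑ x : Fin n, (sg (lift2 c) 2 x : ℝ)) ^ 2 =
      if n % 4 = 1 then 0 else if n % 4 = 0 then 0 else (4 : ℝ) := by
    have := congrArg (fun z : ℤ => (z : ℝ)) h2
    push_cast at this
    simpa using this
  rw [h1', h2']
  unfold Par
  have hmod : n % 4 = 0 ∨ n % 4 = 1 ∨ n % 4 = 2 ∨ n % 4 = 3 := by omega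
  rcases hmod with h | h | h | h
  · simp [h]; ring
  · simp [h]
  · simp [h]; ring
  · simp [h]; ring

theorem exists_le {n : ℕ} (c : Sym2 (Fin n) → ZMod 3) : ∃ c' : Sym2 (Fin n) → Fin 2, mono c' ≤ zs c := by
  by_cases h3 : n ≤ 3
  · exact ⟨fun _ => 0, by rw [tiny h3]; exact Nat.zero_le _⟩
  by_cases h4 : n = 4
  · subst h4
    obtain ⟨c', hc'⟩ := four_mono
    exact ⟨c', by rw [hc']; exact four c⟩
  obtain ⟨c', hc'⟩ := attained (by omega : 5 ≤ n)
  refine ⟨c', ?_⟩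
  have := lower_all (by omega : 5 ≤ n) c
  rw [← hc'] at this
  exact_mod_cast this

theorem iInf_eq (n : ℕ) : (⨅ c : Sym2 (Fin n) → ZMod 3, zs c) = ⨅ c : Sym2 (Fin n) → Fin 2, mono c := by
  apply le_antisymm
  · apply le_ciInf
    intro c
    rw [mono_eq]
    exact ciInf_le (OrderBot.bddBelow _) (lift2 c)
  · apply le_ciInf
    intro c
    obtain ⟨c', hc'⟩ := exists_le c
    exact (ciInf_le (OrderBot.bddBelow _) c').trans hc'

theorem value {n : ℕ} (hn : 5 ≤ n) : ((⨅ c : Sym2 (Fin n) → Fin 2, mono c : ℕ) : ℝ) = Cn n + Par n := by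
  obtain ⟨c, hc⟩ := attained hn
  rw [← hc]
  norm_cast
  apply le_antisymm
  · exact ciInf_le (OrderBot.bddBelow _) c
  · apply le_ciInf
    intro c'
    have h := lower_all hn (lift2 c')
    rw [← hc, ← mono_eq] at h
    exact_mod_cast h

end Pool.Agent.MP5f
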